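import Mathlib

set_option autoImplicit false

/-!
Hochschild cochains as functions on lists, coboundary `D`, `D ∘ D = 0`, and the normalisation
of a cocycle with respect to a finite group of elements.
-/

namespace Pool.Agent.HK

variable {R B : Type} [Ring R] [Ring B] [Algebra ℂ R] [Algebra ℂ B] (ι : R →ₐ[ℂ] B)

/-- Minus the sum of all terms of the Hochschild coboundary except the first one. -/
def E : (List R → B) → List R → B
  | _, [] => 0
  | φ, [a] => φ [] * ι a
  | φ, a :: b :: l => φ (a * b :: l) - E (fun t => φ (a :: t)) (b :: l)

/-- The Hochschild coboundary on functions on lists. -/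
def D (φ : List R → B) : List R → B
  | [] => 0
  | a :: l => ι a * φ l - E ι φ (a :: l)

@[simp] theorem E_nil (φ : List R → B) : E ι φ [] = 0 := by simp [E]
@[simp] theorem E_one (φ : List R → B) (a : R) : E ι φ [a] = φ [] * ι a := by simp [E]
theorem E_cons (φ : List R → B) (a b : R) (l : List R) :
    E ι φ (a :: b :: l) = φ (a * b :: l) - E ι (fun t => φ (a :: t)) (b :: l) := by
  simp [E]
@[simp] theorem D_nil (φ : List R → B) : D ι φ [] = 0 := rfl
theorem D_cons (φ : List R → B) (a : R) (l : List R) :
    D ι φ (a :: l) = ι a * φ l - E ι φ (a :: l) := rfl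

/-- `E` only depends on the values on lists one element shorter. -/
theorem E_congr (l : List R) : ∀ (φ ψ : List R → B), 
    (∀ t, t.length + 1 = l.length → φ t = ψ t) → E ι φ l = E ι ψ l := by
  induction l with
  | nil => intro φ ψ _; simp
  | cons a l ih =>
    intro φ ψ h
    cases l with
    | nil => simp [h [] rfl]
    | cons b l =>
      rw [E_cons, E_cons, h _ (by simp), ih (fun t => φ (a :: t)) (fun t => ψ (a :: t))]
      intro t ht
      exact h _ (by simpa using ht)

theorem E_linear (l : List R) : ∀ (c : ℂ) (φ ψ : List R → B),
    E ι (fun t => c • φ t + ψ t) l = c • E ι φ l + E ι ψ l := by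
  induction l with
  | nil => intro c φ ψ; simp
  | cons a l ih =>
    intro c φ ψ
    cases l with
    | nil => simp [add_mul]
    | cons b l =>
      rw [E_cons, E_cons, E_cons, ih c (fun t => φ (a :: t)) (fun t => ψ (a :: t)), smul_sub]
      abel

theorem E_zero (l : List R) : E ι (fun _ => (0 : B)) l = 0 := by
  have := E_linear ι l (-1) (fun _ => (0 : B)) (fun _ => (0 : B))
  simpa using this

theorem E_add (φ ψ : List R → B) (l : List R) :
    E ι (fun t => φ t + ψ t) l = E ι φ l + E ι ψ l := by
  simpa using E_linear ι l 1 φ ψ

theorem E_smul (c : ℂ) (φ : List R → B) (l : List R) :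
    E ι (fun t => c • φ t) l = c • E ι φ l := by
  simpa [E_zero] using E_linear ι l c φ (fun _ => 0)

theorem E_neg (φ : List R → B) (l : List R) :
    E ι (fun t => - φ t) l = - E ι φ l := by
  simpa using E_smul ι (-1) φ l

theorem E_sub (φ ψ : List R → B) (l : List R) :
    E ι (fun t => φ t - ψ t) l = E ι φ l - E ι ψ l := by
  simp only [sub_eq_add_neg, E_add, E_neg]

theorem E_sum {κ : Type} (s : Finset κ) (φ : κ → List R → B) (l : List R) :
    E ι (fun t => ∑ i ∈ s, φ i t) l = ∑ i ∈ s, E ι (φ i) l := by
  classical
  induction s using Finset.induction_on with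
  | empty => simp [E_zero]
  | insert i s hi ih => simp only [Finset.sum_insert hi, E_add, ih]

theorem E_mul_left (b : B) (l : List R) : ∀ (φ : List R → B),
    E ι (fun t => b * φ t) l = b * E ι φ l := by
  induction l with
  | nil => intro φ; simp
  | cons a l ih =>
    intro φ
    cases l with
    | nil => simp [mul_assoc]
    | cons c l => rw [E_cons, E_cons, ih (fun t => φ (a :: t)), mul_sub]

theorem D_add (φ ψ : List R → B) (l : List R) :
    D ι (fun t => φ t + ψ t) l = D ι φ l + D ι ψ l := by
  cases l with
  | nil => simp
  | cons a l => simp only [D_cons, E_add, mul_add]; abel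

theorem D_smul (c : ℂ) (φ : List R → B) (l : List R) :
    D ι (fun t => c • φ t) l = c • D ι φ l := by
  cases l with
  | nil => simp
  | cons a l => simp only [D_cons, E_smul, smul_sub, mul_smul_comm]

theorem D_neg (φ : List R → B) (l : List R) :
    D ι (fun t => - φ t) l = - D ι φ l := by
  simpa using D_smul ι (-1) φ l

theorem D_sub (φ ψ : List R → B) (l : List R) :
    D ι (fun t => φ t - ψ t) l = D ι φ l - D ι ψ l := by
  simp only [sub_eq_add_neg, D_add, D_neg]

theorem D_zero (l : List R) : D ι (fun _ => (0 : B)) l = 0 := by
  simpa using D_smul ι 0 (fun _ => (0 : B)) l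

theorem D_sum {κ : Type} (s : Finset κ) (φ : κ → List R → B) (l : List R) :
    D ι (fun t => ∑ i ∈ s, φ i t) l = ∑ i ∈ s, D ι (φ i) l := by
  classical
  induction s using Finset.induction_on with
  | empty => simp [D_zero]
  | insert i s hi ih => simp only [Finset.sum_insert hi, D_add, ih]

theorem D_congr (φ ψ : List R → B) (l : List R)
    (h : ∀ t, t.length + 1 = l.length → φ t = ψ t) : D ι φ l = D ι ψ l := by
  cases l with
  | nil => simp
  | cons a l => rw [D_cons, D_cons, h l (by simp), E_congr ι _ _ _ h]

theorem E_E (l : List R) : ∀ (φ : List R → B), E ι (E ι φ) l = 0 := by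
  induction l with
  | nil => intro φ; simp
  | cons a l ih =>
    intro φ
    cases l with
    | nil => simp
    | cons b l =>
      rw [E_cons]
      cases l with
      | nil => simp [mul_assoc]
      | cons c l =>
        have h1 : E ι (fun t => E ι φ (a :: t)) (b :: c :: l) =
            E ι (fun t => (match t with | [] => 0 | x :: t => φ (a * x :: t)) -
              E ι (fun t => φ (a :: t)) t) (b :: c :: l) := by
          apply E_congr
          intro t ht
          cases t with
          | nil => simp at ht
          | cons x t => exact E_cons ι φ a x t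
        rw [h1, E_sub, ih (fun t => φ (a :: t)), sub_zero, E_cons, E_cons]
        simp [mul_assoc]

theorem D_D (φ : List R → B) (l : List R) : D ι (D ι φ) l = 0 := by
  cases l with
  | nil => simp
  | cons a l =>
    cases l with
    | nil => simp [D_cons]
    | cons b l =>
      rw [D_cons, E_cons, D_cons, D_cons]
      have h1 : E ι (fun t => D ι φ (a :: t)) (b :: l) =
          ι a * E ι φ (b :: l) - E ι (fun t => E ι φ (a :: t)) (b :: l) := by
        simp only [D_cons]
        rw [E_sub, E_mul_left]
      have h2 := E_E ι (a :: b :: l) φ
      rw [E_cons] at h2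
      rw [h1, map_mul, sub_eq_zero.mp h2]
      noncomm_ring

/-! ### Prefix currying -/

/-- `curs φ p t = φ (p ++ t)`. -/
def curs (φ : List R → B) (p : List R) : List R → B := fun t => φ (p ++ t)

@[simp] theorem curs_nil (φ : List R → B) : curs φ [] = φ := rfl
theorem curs_apply (φ : List R → B) (p t : List R) : curs φ p t = φ (p ++ t) := rfl
theorem curs_cons (φ : List R → B) (a : R) (p : List R) :
    curs φ (a :: p) = curs (fun t => φ (a :: t)) p := rfl

theorem E_append (p : List R) : ∀ (φ : List R → B) (a : R) (l : List R),
    (∀ q : List R, q.length = p.length → φ (q ++ l) = 0) →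
    E ι φ (p ++ a :: l) = (-1 : ℂ) ^ p.length • E ι (curs φ p) (a :: l) := by
  induction p with
  | nil => intro φ a l _; simp
  | cons c p ih =>
    intro φ a l h
    have hih : E ι (fun t => φ (c :: t)) (p ++ a :: l) =
        (-1 : ℂ) ^ p.length • E ι (curs (fun t => φ (c :: t)) p) (a :: l) := by
      apply ih
      intro q hq
      exact h (c :: q) (by simp [hq])
    have key : E ι φ (c :: (p ++ a :: l)) = - E ι (fun t => φ (c :: t)) (p ++ a :: l) := by
      cases p with
      | nil =>
        simp only [List.nil_append]
        rw [E_cons]
        have := h [c * a] rfl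
        simp only [List.cons_append, List.nil_append] at this
        rw [this, zero_sub]
      | cons d p =>
        simp only [List.cons_append]
        rw [E_cons]
        have := h (c * d :: (p ++ [a])) (by simp)
        simp only [List.cons_append, List.append_assoc, List.nil_append] at this
        rw [this, zero_sub]
    rw [List.cons_append, key, hih, curs_cons, List.length_cons, pow_succ, mul_neg_one, neg_smul]

theorem D_append (φ : List R → B) (p : List R) (a : R) (l : List R)
    (h : ∀ q : List R, q.length = p.length → φ (q ++ l) = 0) :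
    D ι φ (p ++ a :: l) = -((-1 : ℂ) ^ p.length • E ι (curs φ p) (a :: l)) := by
  cases p with
  | nil =>
    have := h [] rfl
    simp only [List.nil_append] at this
    simp [D_cons, this]
  | cons c p =>
    rw [← E_append ι _ _ _ _ h, List.cons_append, D_cons]
    have := h (p ++ [a]) (by simp)
    simp only [List.append_assoc, List.cons_append, List.nil_append] at this
    rw [this, mul_zero, zero_sub]

/-! ### Pull-back along a multiplicative map and compression -/

/-- `P q f φ l = q φ(f l) q`. -/
def P (q : B) (f : R → R) (φ : List R → B) : List R → B := fun l => q * φ (l.map f) * q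

theorem E_P (q : B) (f : R → R) (hmul : ∀ a b, f (a * b) = f a * f b)
    (hr : ∀ a, q * ι a = ι (f a) * q) (l : List R) :
    ∀ (φ : List R → B), E ι (P q f φ) l = q * E ι φ (l.map f) * q := by
  induction l with
  | nil => intro φ; simp
  | cons a l ih =>
    intro φ
    cases l with
    | nil => simp [P, mul_assoc, hr]
    | cons b l =>
      simp only [List.map_cons]
      rw [E_cons, E_cons]
      have := ih (fun t => φ (f a :: t))
      simp only [List.map_cons] at this
      have h2 : (fun t => P q f φ (a :: t)) = P q f (fun t => φ (f a :: t)) := by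
        funext t; simp [P]
      rw [h2, this]
      simp only [P, List.map_cons, hmul]
      noncomm_ring

theorem D_P (q : B) (f : R → R) (hmul : ∀ a b, f (a * b) = f a * f b)
    (hr : ∀ a, q * ι a = ι (f a) * q) (hl : ∀ a, ι a * q = q * ι (f a))
    (φ : List R → B) (l : List R) : D ι (P q f φ) l = q * D ι φ (l.map f) * q := by
  cases l with
  | nil => simp
  | cons a l =>
    rw [D_cons, E_P ι q f hmul hr, List.map_cons, D_cons]
    simp only [P, List.map_cons]
    have : ι a * (q * φ (l.map f) * q) = q * (ι (f a) * φ (l.map f)) * q := by
      rw [← mul_assoc, ← mul_assoc, hl, mul_assoc q]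
    rw [this]
    noncomm_ring

end Pool.Agent.HK
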