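import Pool.Agent.HK.Norm

set_option autoImplicit false
set_option linter.unusedSectionVars false

namespace Pool.Agent.HK

variable {R B : Type} [NormedRing R] [NormedRing B] [NormedAlgebra ℂ R] [NormedAlgebra ℂ B]
  (ι : R →ₐ[ℂ] B)

/-- product of the norms of the entries of a list -/
def nm (l : List R) : ℝ := (l.map norm).prod

@[simp] theorem nm_nil : nm ([] : List R) = 1 := by simp [nm]
@[simp] theorem nm_cons (a : R) (l : List R) : nm (a :: l) = ‖a‖ * nm l := by simp [nm]
@[simp] theorem nm_append (l t : List R) : nm (l ++ t) = nm l * nm t := by simp [nm]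
theorem nm_nonneg (l : List R) : 0 ≤ nm l := by
  induction l with
  | nil => simp
  | cons a l ih => rw [nm_cons]; positivity

/-- multilinearity on lists -/
def Lin (φ : List R → B) : Prop :=
  ∀ (p post : List R) (x y : R) (c : ℂ),
    φ (p ++ (c • x + y) :: post) = c • φ (p ++ x :: post) + φ (p ++ y :: post)

/-- `φ` is a bounded multilinear cochain of degree `n` with values in `X` and norm `≤ C`. -/
structure Coch (X : Submodule ℂ B) (n : ℕ) (C : ℝ) (φ : List R → B) : Prop where
  supp : ∀ l : List R, l.length ≠ n → φ l = 0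
  lin : Lin φ
  val : ∀ l : List R, φ l ∈ X
  bd : ∀ l : List R, ‖φ l‖ ≤ C * nm l

theorem Lin.cur {φ : List R → B} (h : Lin φ) (a : R) : Lin (fun t => φ (a :: t)) := by
  intro p post x y c
  exact h (a :: p) post x y c

theorem Lin.head {φ : List R → B} (h : Lin φ) (post : List R) (x y : R) (c : ℂ) :
    φ ((c • x + y) :: post) = c • φ (x :: post) + φ (y :: post) := h [] post x y c

theorem E_lin (p : List R) : ∀ (φ : List R → B), Lin φ → ∀ (post : List R) (x y : R) (c : ℂ),
    E ι φ (p ++ (c • x + y) :: post) = c • E ι φ (p ++ x :: post) + E ι φ (p ++ y :: post) := by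
  induction p with
  | nil =>
    intro φ h post x y c
    simp only [List.nil_append]
    cases post with
    | nil => simp [mul_add]
    | cons b t =>
      rw [E_cons, E_cons, E_cons]
      have h1 : (fun t => φ ((c • x + y) :: t)) = fun t => c • φ (x :: t) + φ (y :: t) := by
        funext t; exact h.head t x y c
      rw [h1, E_linear, add_mul, smul_mul_assoc, h.head]
      rw [smul_sub]; abel
  | cons a p ih =>
    intro φ h post x y c
    cases p with
    | nil =>
      simp only [List.cons_append, List.nil_append]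
      rw [E_cons, E_cons, E_cons]
      have := ih (fun t => φ (a :: t)) (h.cur a) post x y c
      simp only [List.nil_append] at this
      rw [this, mul_add, mul_smul_comm, h.head, smul_sub]; abel
    | cons b p =>
      simp only [List.cons_append]
      rw [E_cons, E_cons, E_cons]
      have := ih (fun t => φ (a :: t)) (h.cur a) post x y c
      simp only [List.cons_append] at this
      have h2 := h (a * b :: p) post x y c
      simp only [List.cons_append] at h2
      rw [this, h2, smul_sub]; abel

theorem D_lin (φ : List R → B) (h : Lin φ) : Lin (D ι φ) := by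
  intro p post x y c
  cases p with
  | nil =>
    simp only [List.nil_append]
    have := E_lin ι [] φ h post x y c
    simp only [List.nil_append] at this
    rw [D_cons, D_cons, D_cons, this]
    simp only [map_add, map_smul, add_mul, smul_mul_assoc, smul_sub]; abel
  | cons a p =>
    have := E_lin ι (a :: p) φ h post x y c
    simp only [List.cons_append] at this ⊢
    rw [D_cons, D_cons, D_cons, this, h, mul_add, mul_smul_comm, smul_sub]; abel

theorem E_bd (hι : ∀ a, ‖ι a‖ ≤ ‖a‖) (l : List R) : ∀ (φ : List R → B) (C : ℝ), 0 ≤ C →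
    (∀ l, ‖φ l‖ ≤ C * nm l) → ‖E ι φ l‖ ≤ l.length * C * nm l := by
  induction l with
  | nil => intro φ C _ _; simp
  | cons a l ih =>
    intro φ C hC h
    cases l with
    | nil =>
      simp only [E_one, List.length_cons, List.length_nil, nm_cons, nm_nil]
      have h1 := h []
      simp only [nm_nil, mul_one] at h1
      calc ‖φ [] * ι a‖ ≤ ‖φ []‖ * ‖ι a‖ := norm_mul_le _ _
        _ ≤ C * ‖a‖ := mul_le_mul h1 (hι a) (norm_nonneg _) hC
        _ = _ := by push_cast; ring
    | cons b l =>
      rw [E_cons]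
      have h1 := h (a * b :: l)
      have h2 := ih (fun t => φ (a :: t)) (C * ‖a‖) (by positivity) (by
        intro t
        have := h (a :: t)
        rw [nm_cons] at this
        linarith [this])
      rw [nm_cons] at h1
      have h3 : ‖a * b‖ * nm l ≤ ‖a‖ * (‖b‖ * nm l) := by
        rw [← mul_assoc]
        exact mul_le_mul_of_nonneg_right (norm_mul_le _ _) (nm_nonneg l)
      calc ‖φ (a * b :: l) - E ι (fun t => φ (a :: t)) (b :: l)‖
          ≤ ‖φ (a * b :: l)‖ + ‖E ι (fun t => φ (a :: t)) (b :: l)‖ := norm_sub_le _ _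
        _ ≤ C * (‖a‖ * (‖b‖ * nm l)) + (b :: l).length * (C * ‖a‖) * nm (b :: l) := by
            refine add_le_add (h1.trans ?_) h2
            exact mul_le_mul_of_nonneg_left h3 hC
        _ = _ := by simp only [nm_cons, List.length_cons]; push_cast; ring

theorem D_bd (hι : ∀ a, ‖ι a‖ ≤ ‖a‖) (φ : List R → B) (C : ℝ) (hC : 0 ≤ C)
    (h : ∀ l, ‖φ l‖ ≤ C * nm l) (l : List R) : ‖D ι φ l‖ ≤ (l.length + 1) * C * nm l := by
  cases l with
  | nil => simp; positivity
  | cons a l =>
    rw [D_cons]
    have h1 := E_bd ι hι (a :: l) φ C hC h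
    have h2 : ‖ι a * φ l‖ ≤ C * nm (a :: l) := by
      calc ‖ι a * φ l‖ ≤ ‖ι a‖ * ‖φ l‖ := norm_mul_le _ _
        _ ≤ ‖a‖ * (C * nm l) := mul_le_mul (hι a) (h l) (norm_nonneg _) (norm_nonneg _)
        _ = _ := by rw [nm_cons]; ring
    calc _ ≤ ‖ι a * φ l‖ + ‖E ι φ (a :: l)‖ := norm_sub_le _ _
      _ ≤ _ := add_le_add h2 h1
      _ = _ := by ring

theorem E_val (X : Submodule ℂ B) (hr : ∀ a, ∀ x ∈ X, x * ι a ∈ X) (l : List R) :
    ∀ (φ : List R → B), (∀ l, φ l ∈ X) → E ι φ l ∈ X := by
  induction l with
  | nil => intro φ _; simp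
  | cons a l ih =>
    intro φ h
    cases l with
    | nil => simpa using hr a _ (h [])
    | cons b l =>
      rw [E_cons]
      exact X.sub_mem (h _) (ih _ (fun t => h _))

/-- `X` is a sub-bimodule. -/
structure IsBimod (X : Submodule ℂ B) : Prop where
  left : ∀ a, ∀ x ∈ X, ι a * x ∈ X
  right : ∀ a, ∀ x ∈ X, x * ι a ∈ X

theorem D_val (X : Submodule ℂ B) (hX : IsBimod ι X) (φ : List R → B) (h : ∀ l, φ l ∈ X)
    (l : List R) : D ι φ l ∈ X := by
  cases l with
  | nil => simp
  | cons a l =>
    rw [D_cons]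
    exact X.sub_mem (hX.left a _ (h _)) (E_val ι X hX.right _ _ h)

theorem D_supp (n : ℕ) (φ : List R → B) (h : ∀ l : List R, l.length ≠ n → φ l = 0)
    (l : List R) (hl : l.length ≠ n + 1) : D ι φ l = 0 := by
  rw [D_congr ι φ (fun _ => 0) l, D_zero]
  intro t ht
  exact h t (by omega)

theorem Coch.D {X : Submodule ℂ B} (hX : IsBimod ι X) (hι : ∀ a, ‖ι a‖ ≤ ‖a‖) {n : ℕ} {C : ℝ}
    (hC : 0 ≤ C) {φ : List R → B} (h : Coch X n C φ) :
    Coch X (n + 1) ((n + 2) * C) (D ι φ) where
  supp := D_supp ι n φ h.supp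
  lin := D_lin ι φ h.lin
  val := D_val ι X hX φ h.val
  bd := by
    intro l
    by_cases hl : l.length = n + 1
    · have := D_bd ι hι φ C hC h.bd l
      rw [hl] at this
      push_cast at this
      calc _ ≤ _ := this
        _ = _ := by ring
    · rw [D_supp ι n φ h.supp l hl, norm_zero]
      have := nm_nonneg l
      positivity

theorem Coch.mono {X : Submodule ℂ B} {n : ℕ} {C C' : ℝ} {φ : List R → B} (h : Coch X n C φ)
    (hC : C ≤ C') : Coch X n C' φ :=
  ⟨h.supp, h.lin, h.val, fun l => (h.bd l).trans (mul_le_mul_of_nonneg_right hC (nm_nonneg l))⟩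

theorem Coch.add {X : Submodule ℂ B} {n : ℕ} {C C' : ℝ} {φ ψ : List R → B} (h : Coch X n C φ)
    (h' : Coch X n C' ψ) : Coch X n (C + C') (fun l => φ l + ψ l) where
  supp l hl := by simp [h.supp l hl, h'.supp l hl]
  lin p post x y c := by
    show φ _ + ψ _ = c • (φ _ + ψ _) + (φ _ + ψ _)
    rw [h.lin, h'.lin, smul_add]; abel
  val l := X.add_mem (h.val l) (h'.val l)
  bd l := by
    calc _ ≤ ‖φ l‖ + ‖ψ l‖ := norm_add_le _ _
      _ ≤ _ := add_le_add (h.bd l) (h'.bd l)
      _ = _ := by ring

theorem Coch.neg {X : Submodule ℂ B} {n : ℕ} {C : ℝ} {φ : List R → B} (h : Coch X n C φ) :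
    Coch X n C (fun l => - φ l) where
  supp l hl := by simp [h.supp l hl]
  lin p post x y c := by
    show - φ _ = c • (- φ _) + (- φ _)
    rw [h.lin, neg_add, smul_neg]
  val l := X.neg_mem (h.val l)
  bd l := by rw [norm_neg]; exact h.bd l

theorem Coch.sub {X : Submodule ℂ B} {n : ℕ} {C C' : ℝ} {φ ψ : List R → B} (h : Coch X n C φ)
    (h' : Coch X n C' ψ) : Coch X n (C + C') (fun l => φ l - ψ l) := by
  have := h.add h'.neg
  simpa only [sub_eq_add_neg] using this

theorem Coch.zero (X : Submodule ℂ B) (n : ℕ) : Coch X n 0 (fun _ : List R => (0 : B)) where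
  supp l hl := rfl
  lin p post x y c := by simp
  val l := X.zero_mem
  bd l := by simp

theorem Coch.sum {X : Submodule ℂ B} {n : ℕ} {κ : Type} (s : Finset κ) (C : κ → ℝ)
    (φ : κ → List R → B) (h : ∀ i ∈ s, Coch X n (C i) (φ i)) :
    Coch X n (∑ i ∈ s, C i) (fun l => ∑ i ∈ s, φ i l) := by
  classical
  induction s using Finset.induction_on with
  | empty => simpa using Coch.zero (R := R) X n
  | insert i s hi ih =>
    simp only [Finset.sum_insert hi]
    exact (h i (Finset.mem_insert_self _ _)).add
      (ih (fun j hj => h j (Finset.mem_insert_of_mem hj)))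

section norm

variable {Γ : Type} [Group Γ] [Fintype Γ] (u : Γ →* R)

theorem norm_avg_le (f : Γ → B) (C : ℝ) (h : ∀ γ, ‖f γ‖ ≤ C) : ‖avg f‖ ≤ C := by
  unfold avg
  have hpos : (0 : ℝ) < Fintype.card Γ := by exact_mod_cast Fintype.card_pos
  rw [norm_smul, norm_inv, Complex.norm_natCast]
  have h1 : ‖∑ γ, f γ‖ ≤ Fintype.card Γ * C := by
    refine (norm_sum_le _ _).trans ?_
    refine (Finset.sum_le_sum fun γ _ => h γ).trans ?_
    simp
  calc _ ≤ (Fintype.card Γ : ℝ)⁻¹ * (Fintype.card Γ * C) := by gcongr
    _ = C := by field_simp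

theorem avg_mem (X : Submodule ℂ B) (f : Γ → B) (h : ∀ γ, f γ ∈ X) : avg f ∈ X :=
  X.smul_mem _ (X.sum_mem fun γ _ => h γ)

theorem S0_coch {X : Submodule ℂ B} (hX : IsBimod ι X) (hι : ∀ a, ‖ι a‖ ≤ ‖a‖)
    (hu : ∀ γ, ‖u γ‖ ≤ 1) {n : ℕ} {C : ℝ} (hC : 0 ≤ C) {φ : List R → B}
    (h : Coch X (n + 1) C φ) : Coch X n C (S0 ι u φ) where
  supp l hl := by
    unfold S0
    have : ∀ γ, ι (u γ⁻¹) * φ (u γ :: l) = 0 := by
      intro γ
      rw [h.supp _ (by simpa using hl), mul_zero]
    simp only [this, avg_zero]
  lin p post x y c := by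
    unfold S0
    have : ∀ γ, ι (u γ⁻¹) * φ (u γ :: (p ++ (c • x + y) :: post)) =
        c • (ι (u γ⁻¹) * φ (u γ :: (p ++ x :: post))) +
          ι (u γ⁻¹) * φ (u γ :: (p ++ y :: post)) := by
      intro γ
      have := h.lin (u γ :: p) post x y c
      simp only [List.cons_append] at this
      rw [this, mul_add, mul_smul_comm]
    simp only [this, avg_add, avg_smul]
  val l := avg_mem X _ fun γ => hX.left _ _ (h.val _)
  bd l := by
    apply norm_avg_le
    intro γ
    calc _ ≤ ‖ι (u γ⁻¹)‖ * ‖φ (u γ :: l)‖ := norm_mul_le _ _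
      _ ≤ 1 * (C * nm l) := by
          refine mul_le_mul ((hι _).trans (hu _)) ?_ (norm_nonneg _) zero_le_one
          refine (h.bd _).trans ?_
          rw [nm_cons]
          refine mul_le_mul_of_nonneg_left ?_ hC
          calc _ ≤ 1 * nm l := mul_le_mul_of_nonneg_right (hu γ) (nm_nonneg l)
            _ = _ := one_mul _
      _ = _ := one_mul _

theorem SS_coch {X : Submodule ℂ B} (hu : ∀ γ, ‖u γ‖ ≤ 1) {n : ℕ} {C : ℝ} (hC : 0 ≤ C)
    (k : ℕ) {φ : List R → B}
    (h : Coch X (n + 1) C φ) : Coch X n C (SS u k φ) where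
  supp l hl := by
    rcases Nat.lt_or_ge k l.length with hk | hk
    · obtain ⟨a, t, hat⟩ : ∃ a t, l.drop k = a :: t := by
        cases hd : l.drop k with
        | nil => simp at hd; omega
        | cons a t => exact ⟨a, t, rfl⟩
      simp only [SS, hat, Sh]
      have : ∀ γ : Γ, curs φ (l.take k) (a * u γ⁻¹ :: u γ :: t) = 0 := by
        intro γ
        rw [curs_apply]
        apply h.supp
        have h2 := congrArg List.length hat
        simp only [List.length_drop, List.length_cons] at h2
        simp only [List.length_append, List.length_cons, List.length_take]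
        rw [min_eq_left hk.le]
        omega
      simp only [this, avg_zero, smul_zero]
    · exact SS_short u φ k l hk
  lin p post x y c := by
    rcases Nat.lt_or_ge k (p ++ x :: post).length with hlen | hlen
    · rcases Nat.lt_trichotomy p.length k with hpk | hpk | hpk
      · obtain ⟨p', s, hps, hp'⟩ : ∃ p' s, post = p' ++ s ∧ p.length + 1 + p'.length = k := by
          refine ⟨post.take (k - p.length - 1), post.drop (k - p.length - 1),
            (List.take_append_drop _ _).symm, ?_⟩
          simp only [List.length_append, List.length_cons] at hlen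
          rw [List.length_take, min_eq_left (by omega)]
          omega
        subst hps
        have e1 : ∀ z : R, p ++ z :: (p' ++ s) = (p ++ z :: p') ++ s := by simp
        have e2 : ∀ z : R, SS u k φ ((p ++ z :: p') ++ s) =
            (-1 : ℂ) ^ (k + 1) • Sh u (curs φ (p ++ z :: p')) s := by
          intro z
          have : k = (p ++ z :: p').length := by simp; omega
          rw [this, SS_append]
        rw [e1, e1, e1, e2, e2, e2, smul_comm c, ← smul_add]
        congr 1
        cases s with
        | nil => simp [Sh]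
        | cons a t =>
          simp only [Sh]
          rw [← avg_smul, ← avg_add]
          congr 1
          funext γ
          have := h.lin p (p' ++ (a * u γ⁻¹ :: u γ :: t)) x y c
          simpa [curs] using this
      · subst hpk
        rw [SS_append, SS_append, SS_append, smul_comm c, ← smul_add]
        congr 1
        simp only [Sh]
        rw [← avg_smul, ← avg_add]
        congr 1
        funext γ
        have := h.lin p (u γ :: post) (x * u γ⁻¹) (y * u γ⁻¹) c
        simpa [curs, add_mul] using this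
      · obtain ⟨q, a, p', rfl, hq⟩ : ∃ q a p', p = q ++ a :: p' ∧ q.length = k := by
          have h1 : p = p.take k ++ p.drop k := (List.take_append_drop _ _).symm
          cases hd : p.drop k with
          | nil => simp at hd; omega
          | cons a p' =>
            rw [hd] at h1
            exact ⟨p.take k, a, p', h1, by simp; omega⟩
        subst hq
        have e1 : ∀ z : R, (q ++ a :: p') ++ z :: post = q ++ (a :: (p' ++ z :: post)) := by simp
        rw [e1, e1, e1, SS_append, SS_append, SS_append, smul_comm c, ← smul_add]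
        congr 1
        simp only [Sh]
        rw [← avg_smul, ← avg_add]
        congr 1
        funext γ
        have := h.lin (q ++ (a * u γ⁻¹ :: u γ :: p')) post x y c
        simpa [curs] using this
    · rw [SS_short u φ k _ (by simpa using hlen), SS_short u φ k _ (by simpa using hlen),
        SS_short u φ k _ (by simpa using hlen)]
      simp
  val l := by
    unfold SS
    apply X.smul_mem
    cases l.drop k with
    | nil => exact X.zero_mem
    | cons a t => exact avg_mem X _ fun γ => h.val _
  bd l := by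
    rcases Nat.lt_or_ge k l.length with hk | hk
    · obtain ⟨a, t, hat⟩ : ∃ a t, l.drop k = a :: t := by
        cases hd : l.drop k with
        | nil => simp at hd; omega
        | cons a t => exact ⟨a, t, rfl⟩
      have hl : l = l.take k ++ a :: t := by rw [← hat, List.take_append_drop]
      have hnm : nm l = nm (l.take k) * (‖a‖ * nm t) := by
        conv_lhs => rw [hl]
        rw [nm_append, nm_cons]
      simp only [SS, hat, Sh]
      rw [norm_smul, norm_pow, norm_neg, norm_one, one_pow, one_mul]
      apply norm_avg_le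
      intro γ
      rw [curs_apply]
      refine (h.bd _).trans ?_
      rw [nm_append, nm_cons, nm_cons, hnm]
      refine mul_le_mul_of_nonneg_left ?_ hC
      refine mul_le_mul_of_nonneg_left ?_ (nm_nonneg _)
      have h1 : ‖a * u γ⁻¹‖ ≤ ‖a‖ := by
        calc _ ≤ ‖a‖ * ‖u γ⁻¹‖ := norm_mul_le _ _
          _ ≤ ‖a‖ * 1 := mul_le_mul_of_nonneg_left (hu _) (norm_nonneg _)
          _ = _ := mul_one _
      have h2 : ‖u γ‖ * nm t ≤ nm t := by
        calc _ ≤ 1 * nm t := mul_le_mul_of_nonneg_right (hu γ) (nm_nonneg t)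
          _ = _ := one_mul _
      exact mul_le_mul h1 h2 (mul_nonneg (norm_nonneg _) (nm_nonneg _)) (norm_nonneg _)
    · rw [SS_short u φ k l hk, norm_zero]
      have := nm_nonneg l
      positivity

theorem norm_iter {X : Submodule ℂ B} (hX : IsBimod ι X) (hι : ∀ a, ‖ι a‖ ≤ ‖a‖)
    (hu : ∀ γ, ‖u γ‖ ≤ 1) (n : ℕ) {C : ℝ} (hC : 0 ≤ C) {φ : List R → B}
    (h : Coch X (n + 1) C φ) (hc : ∀ l, D ι φ l = 0) (k : ℕ) :
    ∃ ψ : List R → B, Coch X n (k * (n + 3) ^ k * C) ψ ∧
      Coch X (n + 1) ((n + 3) ^ k * C) (fun l => φ l - D ι ψ l) ∧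
      ∀ j, j < k → VanAt u j (fun l => φ l - D ι ψ l) := by
  induction k with
  | zero =>
    refine ⟨fun _ => 0, ?_, ?_, ?_⟩
    · simpa using Coch.zero (R := R) X n
    · simpa [D_zero] using h
    · intro j hj; omega
  | succ k ih =>
    obtain ⟨ψ, h1, h2, h3⟩ := ih
    set φ' : List R → B := fun l => φ l - D ι ψ l with hφ'
    have hc' : ∀ l, D ι φ' l = 0 := by
      intro l
      have : D ι (D ι ψ) l = 0 := D_D ι ψ l
      rw [hφ', D_sub, hc, this, sub_zero]
    have hC' : (0 : ℝ) ≤ (n + 3) ^ k * C := by positivity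
    obtain ⟨η, hη, hηv⟩ : ∃ η : List R → B, Coch X n ((n + 3) ^ k * C) η ∧
        ∀ j, j < k + 1 → VanAt u j (fun l => φ' l - D ι η l) := by
      cases k with
      | zero =>
        refine ⟨S0 ι u φ', S0_coch ι u hX hι hu hC' h2, ?_⟩
        intro j hj
        have : j = 0 := by omega
        subst this
        exact vanAt_zero_step ι u φ' hc'
      | succ k =>
        refine ⟨SS u k φ', SS_coch u hu hC' k h2, ?_⟩
        intro j hj
        exact vanAt_step ι u φ' hc' k (fun i hi => h3 i (by omega)) j (by omega)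
    have hsum : ∀ l, φ' l - D ι η l = φ l - D ι (fun l => ψ l + η l) l := by
      intro l
      rw [D_add]
      simp only [hφ', sub_sub]
    refine ⟨fun l => ψ l + η l, ?_, ?_, ?_⟩
    · refine (h1.add hη).mono ?_
      push_cast
      have e : (k * (n + 3) ^ k * C + (n + 3) ^ k * C : ℝ) = (k + 1) * (n + 3) ^ k * C := by ring
      rw [e]
      have : (1 : ℝ) ≤ n + 3 := by have := Nat.cast_nonneg (α := ℝ) n; linarith
      gcongr
      · omega
    · have := h2.sub (hη.D ι hX hι hC')
      simp only [hsum] at this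
      refine this.mono (le_of_eq ?_)
      ring
    · intro j hj
      have := hηv j hj
      simpa only [hsum] using this

/-- the normalisation constant -/
noncomputable def KN (n : ℕ) : ℝ := (n + 1) * (n + 3) ^ (n + 1)

theorem KN_nonneg (n : ℕ) : 0 ≤ KN n := by unfold KN; positivity

theorem exists_normalised {X : Submodule ℂ B} (hX : IsBimod ι X) (hι : ∀ a, ‖ι a‖ ≤ ‖a‖)
    (hu : ∀ γ, ‖u γ‖ ≤ 1) (n : ℕ) {C : ℝ} (hC : 0 ≤ C) {φ : List R → B}
    (h : Coch X (n + 1) C φ) (hc : ∀ l, D ι φ l = 0) :
    ∃ ψ : List R → B, Coch X n (KN n * C) ψ ∧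
      ∀ j, VanAt u j (fun l => φ l - D ι ψ l) := by
  obtain ⟨ψ, h1, h2, h3⟩ := norm_iter ι u hX hι hu n hC h hc (n + 1)
  refine ⟨ψ, h1.mono (le_of_eq (by unfold KN; push_cast; ring)), ?_⟩
  intro j
  rcases Nat.lt_or_ge j (n + 1) with hj | hj
  · exact h3 j hj
  · intro q hq γ post
    apply h2.supp
    simp
    omega

end norm

end Pool.Agent.HK
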