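import Mathlib

set_option autoImplicit false

namespace Pool.Agent.HK

section algebra

/-! Definitions for subsets of a complex Banach star algebra `B`; they are used for a von Neumann
algebra `M` in the algebra `B` of bounded operators. -/

variable {B : Type} [NormedRing B] [NormedAlgebra ℂ B] [StarRing B]

/-- `z` is a central projection of `M`. -/
def IsCentralProj (M : Set B) (z : B) : Prop :=
  z ∈ M ∧ IsStarProjection z ∧ ∀ a ∈ M, z * a = a * z

/-- For a central projection `z` of `M`: the summand `zM` is zero or properly infinite, i.e. there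
are two partial isometries in `M` with initial projection `z` and orthogonal ranges. -/
def IsPropInf (M : Set B) (z : B) : Prop :=
  ∃ v ∈ M, ∃ w ∈ M, star v * v = z ∧ star w * w = z ∧ star v * w = 0

/-- For a central projection `z` of `M`: the summand `zM` is homogeneous of finite type I, i.e.
for some `k` it has `k × k` matrix units `e i j` with `∑ i, e i i = z` whose diagonal corners
`e i i M e i i` are commutative (so `zM` is the algebra of `k × k` matrices over an abelian
von Neumann algebra). -/
def IsHomFin (M : Set B) (z : B) : Prop :=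
  ∃ (k : ℕ) (e : Fin k → Fin k → B),
    (∀ i j, e i j ∈ M) ∧ (∀ i j, star (e i j) = e j i) ∧
    (∀ i j l m, e i j * e l m = if j = l then e i m else 0) ∧
    (∑ i, e i i = z) ∧
    ∀ i, ∀ a ∈ M, ∀ b ∈ M, e i i * a * e i i * b * e i i = e i i * b * e i i * a * e i i

/-- The Hochschild coboundary of a function `ψ` of `k` variables: the function of `k + 1`
variables `a₀ ψ(a₁,…,a_k) + ∑ (-1)^(i+1) ψ(…, aᵢ aᵢ₊₁, …) + (-1)^(k+1) ψ(a₀,…,a_{k-1}) a_k`. -/
noncomputable def coboundary {k : ℕ} (ψ : (Fin k → B) → B) (a : Fin (k + 1) → B) : B :=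
  a 0 * ψ (Fin.tail a)
    + ∑ i : Fin k, ((-1 : ℂ) ^ ((i : ℕ) + 1)) •
        ψ (fun j : Fin k => if (j : ℕ) < (i : ℕ) then a (Fin.castSucc j)
          else if j = i then a (Fin.castSucc j) * a (Fin.succ j) else a (Fin.succ j))
    + ((-1 : ℂ) ^ (k + 1)) • (ψ (Fin.init a) * a (Fin.last k))

/-- `ψ` is a bounded `k`-linear map from `M` to `X` of norm at most `C` (only its values at
arguments taken from `M` matter). -/
structure IsCochain (M X : Set B) {k : ℕ} (C : ℝ) (ψ : (Fin k → B) → B) : Prop where
  linear : ∀ a : Fin k → B, (∀ j, a j ∈ M) → ∀ (i : Fin k) (x y : B), x ∈ M → y ∈ M →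
    ∀ c : ℂ, ψ (Function.update a i (c • x + y)) =
      c • ψ (Function.update a i x) + ψ (Function.update a i y)
  bound : ∀ a : Fin k → B, (∀ j, a j ∈ M) → ‖ψ a‖ ≤ C * ∏ j, ‖a j‖
  values : ∀ a : Fin k → B, (∀ j, a j ∈ M) → ψ a ∈ X

/-- The coboundary of `ψ` is `φ` at all arguments from `M`. -/
def CoboundaryEq (M : Set B) {k : ℕ} (ψ : (Fin k → B) → B) (φ : (Fin (k + 1) → B) → B) : Prop :=
  ∀ a : Fin (k + 1) → B, (∀ j, a j ∈ M) → coboundary ψ a = φ a

/-- `X` is a closed linear subspace, stable under left and right multiplication by `M`. -/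
structure IsClosedBimodule (M X : Set B) : Prop where
  zero_mem : (0 : B) ∈ X
  linear : ∀ (c : ℂ), ∀ x ∈ X, ∀ y ∈ X, c • x + y ∈ X
  closed : IsClosed X
  left_mul : ∀ a ∈ M, ∀ x ∈ X, a * x ∈ X
  right_mul : ∀ a ∈ M, ∀ x ∈ X, x * a ∈ X

/-- The bounded Hochschild cohomology of `M` with coefficients in `X` vanishes in degree `m + 1`,
with constant `K`: every `(m + 1)`-cocycle of norm at most `C` with values in `X` is the
coboundary of an `m`-cochain of norm at most `K * C` with values in `X`. -/
def CohomologyVanishes (M X : Set B) (m : ℕ) (K : ℝ) : Prop :=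
  ∀ (φ : (Fin (m + 1) → B) → B) (C : ℝ), 0 ≤ C → IsCochain M X C φ →
    CoboundaryEq M φ (fun _ => 0) →
    ∃ ψ : (Fin m → B) → B, IsCochain M X (K * C) ψ ∧ CoboundaryEq M ψ φ

end algebra

variable {H : Type} [NormedAddCommGroup H] [InnerProductSpace ℂ H] [CompleteSpace H]

/-- The operators `z j` sum up strongly to the identity. -/
def SumsToOne (z : ℕ → (H →L[ℂ] H)) : Prop :=
  ∀ x : H, HasSum (fun j => z j x) x

/-- `M` is a countable direct sum of properly infinite algebras and of homogeneous algebras of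
finite type I: there is a sequence of pairwise orthogonal central projections of `M` with strong
sum `1`, each of which is properly infinite (or zero) or finite homogeneous of type I. -/
def IsDecomposable (M : VonNeumannAlgebra H) : Prop :=
  ∃ z : ℕ → (H →L[ℂ] H),
    (∀ j, IsCentralProj (M : Set (H →L[ℂ] H)) (z j)) ∧ (∀ i j, i ≠ j → z i * z j = 0) ∧
    SumsToOne z ∧
    ∀ j, IsPropInf (M : Set (H →L[ℂ] H)) (z j) ∨ IsHomFin (M : Set (H →L[ℂ] H)) (z j)

/-- `X` consists of compact operators. -/
def AllCompact (X : Set (H →L[ℂ] H)) : Prop := ∀ x ∈ X, IsCompactOperator x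

end Pool.Agent.HK
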