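import Pool.Agent.HK.Trans

set_option autoImplicit false
set_option linter.unusedSectionVars false

namespace Pool.Agent.HK

variable {H : Type} [NormedAddCommGroup H] [InnerProductSpace ℂ H] [CompleteSpace H]

theorem vn_main (M : VonNeumannAlgebra H) (hM : IsDecomposable M)
    (X : Submodule ℂ (H →L[ℂ] H)) (hXcl : IsClosed (X : Set (H →L[ℂ] H)))
    (hXc : ∀ x ∈ X, IsCompactOperator x) (hX : ∀ a ∈ M, ∀ x ∈ X, a * x ∈ X ∧ x * a ∈ X)
    {n : ℕ} {C : ℝ} (hC : 0 ≤ C)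
    {φ : List (RA M) → (H →L[ℂ] H)} (h : Coch X (n + 1) C φ)
    (hcy : ∀ l, D (io M) φ l = 0) :
    ∃ ψ : List (RA M) → (H →L[ℂ] H), Coch X n (KT n * C * 2) ψ ∧
      ∀ l, D (io M) ψ l = φ l := by
  obtain ⟨z, hz1, hz2, hz3, hz4⟩ := hM
  let z' : ℕ → ZA M := fun j => ⟨z j, mem_cen.mpr ⟨(hz1 j).1,
    VonNeumannAlgebra.mem_commutant_iff.mpr fun g hg => ((hz1 j).2.2 g hg).symm⟩⟩
  have hpr : ∀ j, Pr (inc _ (cen_comm M)) (z' j) := fun j =>
    (pr_iff _ _).mpr (hz1 j).2.1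
  have hseq : OrthSeq ((io M).comp (ic M)) z' := by
    refine ⟨hpr, fun i j hij => ?_⟩
    apply inc_inj
    rw [map_mul, map_zero]
    exact hz2 i j hij
  refine main_vanish (c := ic M) (ι := io M) (vn_hasSums M) (ic_central M) (ic_norm M) (io_norm M)
    (vn_P1 _ (cen_comm M)) ⟨fun a x hx => (hX _ a.2 x hx).1, fun a x hx => (hX _ a.2 x hx).2⟩
    hXcl hXc hseq (fun x => hz3 x) (fun j => ?_) hC h hcy
  rcases hz4 j with h | h
  · exact Or.inl (pinf_of M (z' j) (hpr j) h)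
  · exact Or.inr (homog_of M (z' j) h)

section trans

variable (M : VonNeumannAlgebra H) {m : ℕ} (φ : (Fin (m + 1) → (H →L[ℂ] H)) → (H →L[ℂ] H))

/-- the list form of a function of `m + 1` variables -/
noncomputable def toL : List (RA M) → (H →L[ℂ] H) := fun l =>
  if h : l.length = m + 1 then φ (fun i => io M (l.get (i.cast h.symm))) else 0

theorem toL_ofFn (a : Fin (m + 1) → RA M) : toL M φ (List.ofFn a) = φ (fun i => io M (a i)) := by
  unfold toL
  rw [dif_pos (by simp)]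
  congr 1
  funext i
  rw [List.get_ofFn]
  rfl

theorem toL_ne (l : List (RA M)) (h : l.length ≠ m + 1) : toL M φ l = 0 := by
  unfold toL
  rw [dif_neg h]

theorem list_update {S : Type} (k : ℕ) (p post : List S) (w₀ : S)
    (h : (p ++ w₀ :: post).length = k) :
    ∃ (a : Fin k → S) (i : Fin k), ∀ w, p ++ w :: post = List.ofFn (Function.update a i w) := by
  obtain ⟨a, ha⟩ := exists_ofFn (p ++ w₀ :: post) k h
  have hi : p.length < k := by rw [← h]; simp
  refine ⟨a, ⟨p.length, hi⟩, fun w => ?_⟩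
  rw [ofFn_update, ← ha]
  simp

theorem toL_coch (X : Submodule ℂ (H →L[ℂ] H)) {C : ℝ} (hC : 0 ≤ C)
    (h1 : ∀ a : Fin (m+1) → (H →L[ℂ] H), (∀ j, a j ∈ M) →
        ∀ (i : Fin (m+1)) (x y : H →L[ℂ] H), x ∈ M → y ∈ M → ∀ c : ℂ,
          φ (Function.update a i (c • x + y)) =
            c • φ (Function.update a i x) + φ (Function.update a i y))
    (h2 : ∀ a : Fin (m+1) → (H →L[ℂ] H), (∀ j, a j ∈ M) → ‖φ a‖ ≤ C * ∏ j, ‖a j‖)
    (h3 : ∀ a : Fin (m+1) → (H →L[ℂ] H), (∀ j, a j ∈ M) → φ a ∈ X) :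
    Coch X (m + 1) C (toL M φ) where
  supp l hl := toL_ne M φ l hl
  lin p post x y t := by
    by_cases hlen : (p ++ x :: post).length = m + 1
    · obtain ⟨a, i, ha⟩ := list_update (m + 1) p post x hlen
      rw [ha, ha, ha, toL_ofFn, toL_ofFn, toL_ofFn]
      have e : ∀ w : RA M, (fun j => io M (Function.update a i w j)) =
          Function.update (fun j => io M (a j)) i (io M w) := by
        intro w
        funext j
        by_cases hj : j = i
        · subst hj; simp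
        · simp [Function.update_of_ne hj]
      rw [e, e, e, map_add, map_smul]
      exact h1 _ (fun j => (a j).2) i _ _ x.2 y.2 t
    · rw [toL_ne M φ _ (by simpa using hlen), toL_ne M φ _ (by simpa using hlen),
        toL_ne M φ _ (by simpa using hlen)]
      simp
  val l := by
    by_cases hlen : l.length = m + 1
    · obtain ⟨a, rfl⟩ := exists_ofFn l (m + 1) hlen
      rw [toL_ofFn]
      exact h3 _ fun j => (a j).2
    · rw [toL_ne M φ l hlen]; exact X.zero_mem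
  bd l := by
    by_cases hlen : l.length = m + 1
    · obtain ⟨a, rfl⟩ := exists_ofFn l (m + 1) hlen
      rw [toL_ofFn, nm_ofFn]
      exact h2 _ fun j => (a j).2
    · rw [toL_ne M φ l hlen, norm_zero]
      exact mul_nonneg hC (nm_nonneg _)

theorem io_contr {k : ℕ} (a : Fin (k + 1) → RA M) (i : Fin k) :
    (fun j => io M (contr a i j)) = fun j : Fin k => if (j : ℕ) < (i : ℕ)
      then (fun j => io M (a j)) (Fin.castSucc j)
      else if j = i then (fun j => io M (a j)) (Fin.castSucc j) * (fun j => io M (a j)) (Fin.succ j)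
      else (fun j => io M (a j)) (Fin.succ j) := by
  funext j
  unfold contr
  split_ifs
  · rfl
  · rw [map_mul]
  · rfl

theorem toL_cocycle
    (h4 : ∀ a : Fin (m+2) → (H →L[ℂ] H), (∀ j, a j ∈ M) →
        a 0 * φ (Fin.tail a)
          + ∑ i : Fin (m+1), ((-1 : ℂ) ^ ((i : ℕ) + 1)) •
              φ (fun j : Fin (m+1) => if (j : ℕ) < (i : ℕ) then a (Fin.castSucc j)
                else if j = i then a (Fin.castSucc j) * a (Fin.succ j) else a (Fin.succ j))
          + ((-1 : ℂ) ^ (m + 2)) • (φ (Fin.init a) * a (Fin.last (m+1))) = 0)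
    (l : List (RA M)) : D (io M) (toL M φ) l = 0 := by
  by_cases hlen : l.length = m + 1 + 1
  · obtain ⟨a, rfl⟩ := exists_ofFn l (m + 1 + 1) hlen
    rw [D_ofFn]
    have h5 := h4 (fun j => io M (a j)) (fun j => (a j).2)
    rw [toL_ofFn, toL_ofFn]
    simp only [toL_ofFn, io_contr]
    exact h5
  · exact D_supp (io M) (m + 1) (toL M φ) (fun l hl => toL_ne M φ l hl) l hlen

end trans

open Classical in
theorem final (m : ℕ) (M : VonNeumannAlgebra H) (hM : IsDecomposable M)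
    (X : Submodule ℂ (H →L[ℂ] H)) (hXcl : IsClosed (X : Set (H →L[ℂ] H)))
    (hXc : ∀ x ∈ X, IsCompactOperator x) (hX : ∀ a ∈ M, ∀ x ∈ X, a * x ∈ X ∧ x * a ∈ X)
    (φ : (Fin (m + 1) → (H →L[ℂ] H)) → (H →L[ℂ] H)) (C : ℝ) (hC : 0 ≤ C)
    (h1 : ∀ a : Fin (m+1) → (H →L[ℂ] H), (∀ j, a j ∈ M) →
        ∀ (i : Fin (m+1)) (x y : H →L[ℂ] H), x ∈ M → y ∈ M → ∀ c : ℂ,
          φ (Function.update a i (c • x + y)) =
            c • φ (Function.update a i x) + φ (Function.update a i y))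
    (h2 : ∀ a : Fin (m+1) → (H →L[ℂ] H), (∀ j, a j ∈ M) → ‖φ a‖ ≤ C * ∏ j, ‖a j‖)
    (h3 : ∀ a : Fin (m+1) → (H →L[ℂ] H), (∀ j, a j ∈ M) → φ a ∈ X)
    (h4 : ∀ a : Fin (m+2) → (H →L[ℂ] H), (∀ j, a j ∈ M) →
        a 0 * φ (Fin.tail a)
          + ∑ i : Fin (m+1), ((-1 : ℂ) ^ ((i : ℕ) + 1)) •
              φ (fun j : Fin (m+1) => if (j : ℕ) < (i : ℕ) then a (Fin.castSucc j)
                else if j = i then a (Fin.castSucc j) * a (Fin.succ j) else a (Fin.succ j))
          + ((-1 : ℂ) ^ (m + 2)) • (φ (Fin.init a) * a (Fin.last (m+1))) = 0) :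
    ∃ ψ : (Fin m → (H →L[ℂ] H)) → (H →L[ℂ] H),
        (∀ a : Fin m → (H →L[ℂ] H), (∀ j, a j ∈ M) →
          ∀ (i : Fin m) (x y : H →L[ℂ] H), x ∈ M → y ∈ M → ∀ c : ℂ,
            ψ (Function.update a i (c • x + y)) =
              c • ψ (Function.update a i x) + ψ (Function.update a i y)) ∧
        (∀ a : Fin m → (H →L[ℂ] H), (∀ j, a j ∈ M) → ‖ψ a‖ ≤ KT m * C * 2 * ∏ j, ‖a j‖) ∧
        (∀ a : Fin m → (H →L[ℂ] H), (∀ j, a j ∈ M) → ψ a ∈ X) ∧
        (∀ a : Fin (m+1) → (H →L[ℂ] H), (∀ j, a j ∈ M) →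
          a 0 * ψ (Fin.tail a)
            + ∑ i : Fin m, ((-1 : ℂ) ^ ((i : ℕ) + 1)) •
                ψ (fun j : Fin m => if (j : ℕ) < (i : ℕ) then a (Fin.castSucc j)
                  else if j = i then a (Fin.castSucc j) * a (Fin.succ j) else a (Fin.succ j))
            + ((-1 : ℂ) ^ (m + 1)) • (ψ (Fin.init a) * a (Fin.last m)) = φ a) := by
  obtain ⟨Ψ, hΨ, hD⟩ := vn_main M hM X hXcl hXc hX hC (toL_coch M φ X hC h1 h2 h3)
    (toL_cocycle M φ h4)
  let ψ : (Fin m → (H →L[ℂ] H)) → (H →L[ℂ] H) := fun a =>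
    if h : ∀ j, a j ∈ M then Ψ (List.ofFn fun j => (⟨a j, h j⟩ : RA M)) else 0
  have hψ : ∀ b : Fin m → RA M, ψ (fun j => io M (b j)) = Ψ (List.ofFn b) := by
    intro b
    have hb : ∀ j, io M (b j) ∈ M := fun j => (b j).2
    exact dif_pos hb
  have hlift : ∀ {k : ℕ} (a : Fin k → (H →L[ℂ] H)), (∀ j, a j ∈ M) →
      ∃ b : Fin k → RA M, a = fun j => io M (b j) := fun a ha =>
    ⟨fun j => ⟨a j, ha j⟩, rfl⟩
  refine ⟨ψ, ?_, ?_, ?_, ?_⟩
  · intro a ha i x y hx hy t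
    obtain ⟨b, rfl⟩ := hlift a ha
    let x' : RA M := ⟨x, hx⟩
    let y' : RA M := ⟨y, hy⟩
    have e : ∀ w : RA M, Function.update (fun j => io M (b j)) i (io M w) =
        fun j => io M (Function.update b i w j) := by
      intro w
      funext j
      by_cases hj : j = i
      · subst hj; simp
      · simp [Function.update_of_ne hj]
    have ex : x = io M x' := rfl
    have ey : y = io M y' := rfl
    rw [ex, ey, ← map_smul, ← map_add, e, e, e, hψ, hψ, hψ, ofFn_update, ofFn_update, ofFn_update]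
    exact hΨ.lin _ _ _ _ _
  · intro a ha
    obtain ⟨b, rfl⟩ := hlift a ha
    rw [hψ]
    refine (hΨ.bd _).trans (le_of_eq ?_)
    rw [nm_ofFn]
    rfl
  · intro a ha
    obtain ⟨b, rfl⟩ := hlift a ha
    rw [hψ]
    exact hΨ.val _
  · intro a ha
    obtain ⟨b, rfl⟩ := hlift a ha
    have h5 := hD (List.ofFn b)
    rw [toL_ofFn, D_ofFn] at h5
    rw [← h5]
    simp only [← hψ, io_contr]
    rfl

end Pool.Agent.HK
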