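import Pool.Agent.HK.Local

set_option autoImplicit false
set_option linter.unusedSectionVars false

namespace Pool.Agent.HK

section hilbert

variable {H : Type} [NormedAddCommGroup H] [InnerProductSpace ℂ H] [CompleteSpace H]
variable {R : Type} [NormedRing R] [NormedAlgebra ℂ R] {ι : R →ₐ[ℂ] (H →L[ℂ] H)}

theorem nm_map_le (f : R → R) (κ : ℝ) (hκ : 0 ≤ κ) (hf : ∀ a, ‖f a‖ ≤ κ * ‖a‖) (l : List R) :
    nm (l.map f) ≤ κ ^ l.length * nm l := by
  induction l with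
  | nil => simp
  | cons a t ih =>
    rw [List.map_cons, nm_cons, nm_cons, List.length_cons, pow_succ]
    calc _ ≤ (κ * ‖a‖) * (κ ^ t.length * nm t) :=
          mul_le_mul (hf a) ih (nm_nonneg _) (by positivity)
      _ = _ := by ring

theorem Coch.P {X : Submodule ℂ (H →L[ℂ] H)} (hX : IsBimod ι X) {n : ℕ} {C : ℝ} (hC : 0 ≤ C)
    {φ : List R → (H →L[ℂ] H)} (h : Coch X n C φ) {r : R} (hr : Pr ι r) (f : R → R)
    (hfl : ∀ (c : ℂ) x y, f (c • x + y) = c • f x + f y) (κ : ℝ) (hκ : 0 ≤ κ)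
    (hf : ∀ a, ‖f a‖ ≤ κ * ‖a‖) : Coch X n (κ ^ n * C) (P (ι r) f φ) where
  supp l hl := by
    simp only [HK.P]
    rw [h.supp _ (by simpa using hl)]
    simp
  lin p post x y c := by
    simp only [HK.P, List.map_append, List.map_cons, hfl]
    rw [h.lin]
    simp only [mul_add, add_mul, mul_smul_comm, smul_mul_assoc]
  val l := hX.right _ _ (hX.left _ _ (h.val _))
  bd l := by
    by_cases hl : l.length = n
    · have h1 : ‖ι r * φ (l.map f) * ι r‖ ≤ ‖φ (l.map f)‖ := by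
        calc _ ≤ ‖ι r * φ (l.map f)‖ * ‖ι r‖ := norm_mul_le _ _
          _ ≤ (‖ι r‖ * ‖φ (l.map f)‖) * ‖ι r‖ :=
              mul_le_mul_of_nonneg_right (norm_mul_le _ _) (norm_nonneg _)
          _ ≤ (1 * ‖φ (l.map f)‖) * 1 := by
              refine mul_le_mul ?_ hr.norm_ι_le (norm_nonneg _) (by positivity)
              exact mul_le_mul_of_nonneg_right hr.norm_ι_le (norm_nonneg _)
          _ = _ := by ring
      refine h1.trans ((h.bd _).trans ?_)
      have := nm_map_le f κ hκ hf l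
      rw [hl] at this
      calc _ ≤ C * (κ ^ n * nm l) := mul_le_mul_of_nonneg_left this hC
        _ = _ := by ring
    · have : HK.P (ι r) f φ l = 0 := by
        simp only [HK.P]
        rw [h.supp _ (by simpa using hl)]
        simp
      rw [this, norm_zero]
      have := nm_nonneg l
      positivity

theorem Coch.Q {X : Submodule ℂ (H →L[ℂ] H)} (hX : IsBimod ι X) (hι : ∀ a, ‖ι a‖ = ‖a‖)
    {n : ℕ} {C : ℝ} (hC : 0 ≤ C)
    {φ : List R → (H →L[ℂ] H)} (h : Coch X n C φ) {r : R} (hr : Pr ι r) :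
    Coch X n C (HK.P (ι r) (r * ·) φ) := by
  have := h.P hX hC hr (r * ·) (by intro c x y; simp only [mul_add, mul_smul_comm]) 1 zero_le_one
    (by
      intro a
      calc _ ≤ ‖r‖ * ‖a‖ := norm_mul_le _ _
        _ ≤ _ := mul_le_mul_of_nonneg_right (hr.norm_le hι) (norm_nonneg _))
  simpa using this

theorem D_Q {r : R} (hr : Pr ι r) (hcr : ∀ a, r * a = a * r) (φ : List R → (H →L[ℂ] H))
    (l : List R) :
    D ι (P (ι r) (r * ·) φ) l = P (ι r) (r * ·) (D ι φ) l := by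
  refine D_P ι (ι r) (r * ·) ?_ ?_ ?_ φ l
  · intro a b
    show r * (a * b) = r * a * (r * b)
    calc r * (a * b) = (r * a) * b := (mul_assoc _ _ _).symm
      _ = (r * r * a) * b := by rw [hr.1]
      _ = r * (r * a) * b := by rw [mul_assoc r r a]
      _ = r * (a * r) * b := by rw [hcr a]
      _ = r * a * (r * b) := by simp only [mul_assoc]
  · intro a
    rw [← map_mul, ← map_mul]
    congr 1
    rw [hcr a, mul_assoc, hr.1]
  · intro a
    rw [← map_mul, ← map_mul]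
    congr 1
    rw [← mul_assoc, hr.1, hcr]

theorem Q_Q {r r' : R} (h : r * r' = r') (h' : r' * r = r') (φ : List R → (H →L[ℂ] H))
    (l : List R) :
    P (ι r') (r' * ·) (P (ι r) (r * ·) φ) l = P (ι r') (r' * ·) φ l := by
  simp only [P, List.map_map]
  have e1 : ((r * ·) ∘ (r' * ·)) = (r' * · : R → R) := by
    funext a
    show r * (r' * a) = r' * a
    rw [← mul_assoc, h]
  rw [e1]
  have e2 : ι r' * ι r = ι r' := by rw [← map_mul, h']
  have e3 : ι r * ι r' = ι r' := by rw [← map_mul, h]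
  calc _ = (ι r' * ι r) * φ (l.map (r' * ·)) * (ι r * ι r') := by simp only [mul_assoc]
    _ = _ := by rw [e2, e3]

/-- the cocycle is controlled near `r` -/
def Fine (ι : R →ₐ[ℂ] (H →L[ℂ] H)) (X : Submodule ℂ (H →L[ℂ] H)) (n : ℕ) (K δ : ℝ)
    (φ : List R → (H →L[ℂ] H)) (r : R) : Prop :=
  ∃ θ : List R → (H →L[ℂ] H), Coch X n K θ ∧
    Coch X (n + 1) δ (fun l => P (ι r) (r * ·) φ l - D ι θ l)

theorem Fine.mono {X : Submodule ℂ (H →L[ℂ] H)} (hX : IsBimod ι X) (hι : ∀ a, ‖ι a‖ = ‖a‖)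
    {n : ℕ} {K δ : ℝ} (hK : 0 ≤ K) (hδ : 0 ≤ δ) {φ : List R → (H →L[ℂ] H)} {r r' : R}
    (h : Fine ι X n K δ φ r) (hr' : Pr ι r') (hcr : ∀ a, r' * a = a * r') (hrr : r * r' = r') :
    Fine ι X n K δ φ r' := by
  obtain ⟨θ, h1, h2⟩ := h
  refine ⟨P (ι r') (r' * ·) θ, h1.Q hX hι hK hr', ?_⟩
  have h3 := h2.Q hX hι hδ hr'
  have e : (P (ι r') (r' * ·) fun l => P (ι r) (r * ·) φ l - D ι θ l) =
      fun l => P (ι r') (r' * ·) φ l - D ι (P (ι r') (r' * ·) θ) l := by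
    funext l
    rw [D_Q hr' hcr, ← Q_Q hrr (by rw [hcr, hrr]) φ l]
    simp only [P, mul_sub, sub_mul]
  rwa [e] at h3

theorem Fine.weak {X : Submodule ℂ (H →L[ℂ] H)}
    {n : ℕ} {K K' δ : ℝ} (hK : K ≤ K') {φ : List R → (H →L[ℂ] H)} {r : R}
    (h : Fine ι X n K δ φ r) : Fine ι X n K' δ φ r := by
  obtain ⟨θ, h1, h2⟩ := h
  exact ⟨θ, h1.mono hK, h2⟩

theorem Fine.of_sub {X : Submodule ℂ (H →L[ℂ] H)} (hX : IsBimod ι X) (hι : ∀ a, ‖ι a‖ = ‖a‖)
    {n : ℕ} {K K' δ : ℝ} (hK' : 0 ≤ K') {φ ψ : List R → (H →L[ℂ] H)} {r : R}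
    (hψ : Coch X n K' ψ) (hr : Pr ι r) (hcr : ∀ a, r * a = a * r)
    (h : Fine ι X n K δ (fun l => φ l - D ι ψ l) r) : Fine ι X n (K + K') δ φ r := by
  obtain ⟨θ, h1, h2⟩ := h
  refine ⟨fun l => θ l + P (ι r) (r * ·) ψ l, h1.add (hψ.Q hX hι hK' hr), ?_⟩
  have e : (fun l => P (ι r) (r * ·) φ l - D ι (fun l => θ l + P (ι r) (r * ·) ψ l) l) =
      fun l => P (ι r) (r * ·) (fun l => φ l - D ι ψ l) l - D ι θ l := by
    funext l
    rw [D_add, D_Q hr hcr]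
    simp only [P, mul_sub, sub_mul]
    abel
  rw [e]
  exact h2

theorem cocycle_sub {φ ψ : List R → (H →L[ℂ] H)} (hc : ∀ l, D ι φ l = 0) (l : List R) :
    D ι (fun l => φ l - D ι ψ l) l = 0 := by
  have : D ι (D ι ψ) l = 0 := D_D ι ψ l
  rw [D_sub, hc, this, sub_zero]

theorem pyth {N : ℕ} (y : Fin N → H) (hy : ∀ i j, i ≠ j → inner ℂ (y i) (y j) = (0 : ℂ)) :
    ‖∑ i, y i‖ ^ 2 = ∑ i, ‖y i‖ ^ 2 := by
  have hall : ∀ S : Finset (Fin N), ‖∑ i ∈ S, y i‖ ^ 2 = ∑ i ∈ S, ‖y i‖ ^ 2 := by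
    intro S
    induction S using Finset.induction_on with
    | empty => simp
    | insert a S ha ih =>
      rw [Finset.sum_insert ha, Finset.sum_insert ha, ← ih]
      have h0 : inner ℂ (y a) (∑ i ∈ S, y i) = (0 : ℂ) := by
        rw [inner_sum]
        apply Finset.sum_eq_zero
        intro i hi
        exact hy a i fun h => ha (h ▸ hi)
      have := norm_add_sq_eq_norm_sq_add_norm_sq_of_inner_eq_zero (𝕜 := ℂ) _ _ h0
      simp only [sq]
      exact this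
  exact hall Finset.univ

theorem inner_proj {e f : R} (he : Pr ι e) (hef : e * f = 0) (a b : H) :
    inner ℂ (ι e a) (ι f b) = (0 : ℂ) := by
  have h1 : inner ℂ (ι e a) (ι f b) = inner ℂ a ((ι e) (ι f b)) := by
    have h2 := ContinuousLinearMap.adjoint_inner_left (ι e) (ι f b) a
    have h3 : ContinuousLinearMap.adjoint (ι e) = ι e := he.2.star_eq
    rw [h3] at h2
    exact h2
  have h4 : (ι e) (ι f b) = (ι e * ι f) b := rfl
  rw [h1, h4, ← map_mul, hef, map_zero]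
  simp

theorem block_norm {N : ℕ} (e : Fin N → R) (he : ∀ i, Pr ι (e i))
    (horth : ∀ i j, i ≠ j → e i * e j = 0) (hsum : ∑ i, e i = 1) (T : Fin N → H →L[ℂ] H)
    (M : ℝ) (hM : 0 ≤ M) (hT : ∀ i, ‖T i‖ ≤ M) :
    ‖∑ i, ι (e i) * T i * ι (e i)‖ ≤ M := by
  refine ContinuousLinearMap.opNorm_le_bound _ hM fun x => ?_
  have e1 : (∑ i, ι (e i) * T i * ι (e i)) x = ∑ i, ι (e i) (T i (ι (e i) x)) := by
    simp
  have e2 : x = ∑ i, ι (e i) x := by
    have h1 : (∑ i, ι (e i)) x = x := by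
      rw [← map_sum, hsum, map_one]; rfl
    conv_lhs => rw [← h1]
    simp
  have h2 : ‖∑ i, ι (e i) (T i (ι (e i) x))‖ ^ 2 = ∑ i, ‖ι (e i) (T i (ι (e i) x))‖ ^ 2 :=
    pyth _ fun i j hij => inner_proj (he i) (horth i j hij) _ _
  have h3 : ‖x‖ ^ 2 = ∑ i, ‖ι (e i) x‖ ^ 2 := by
    have := pyth (fun i => ι (e i) x) fun i j hij => inner_proj (he i) (horth i j hij) _ _
    rw [← e2] at this
    exact this
  have h4 : ∀ i, ‖ι (e i) (T i (ι (e i) x))‖ ≤ M * ‖ι (e i) x‖ := by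
    intro i
    calc _ ≤ ‖ι (e i)‖ * ‖T i (ι (e i) x)‖ := ContinuousLinearMap.le_opNorm _ _
      _ ≤ 1 * (‖T i‖ * ‖ι (e i) x‖) :=
          mul_le_mul (he i).norm_ι_le (ContinuousLinearMap.le_opNorm _ _) (norm_nonneg _)
            zero_le_one
      _ ≤ 1 * (M * ‖ι (e i) x‖) := by
          gcongr
          exact hT i
      _ = _ := one_mul _
  have h5 : ‖∑ i, ι (e i) (T i (ι (e i) x))‖ ^ 2 ≤ (M * ‖x‖) ^ 2 := by
    rw [h2, mul_pow, h3, Finset.mul_sum]
    apply Finset.sum_le_sum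
    intro i _
    rw [← mul_pow]
    exact pow_le_pow_left₀ (norm_nonneg _) (h4 i) 2
  rw [e1]
  exact (pow_le_pow_iff_left₀ (norm_nonneg _) (by positivity) two_ne_zero).mp h5

theorem block_coch {X : Submodule ℂ (H →L[ℂ] H)} (hX : IsBimod ι X) (hι : ∀ a, ‖ι a‖ = ‖a‖)
    {N : ℕ} (e : Fin N → R) (he : ∀ i, Pr ι (e i))
    (horth : ∀ i j, i ≠ j → e i * e j = 0) (hsum : ∑ i, e i = 1) {n : ℕ} {C : ℝ} (hC : 0 ≤ C)
    (η : Fin N → List R → (H →L[ℂ] H)) (h : ∀ i, Coch X n C (η i)) :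
    Coch X n C (fun l => ∑ i, P (ι (e i)) (e i * ·) (η i) l) := by
  have h1 := Coch.sum (X := X) (n := n) Finset.univ (fun _ => C)
    (fun i => P (ι (e i)) (e i * ·) (η i)) (fun i _ => (h i).Q hX hι hC (he i))
  refine ⟨h1.supp, h1.lin, h1.val, ?_⟩
  intro l
  show ‖∑ i, ι (e i) * (η i (l.map (e i * ·))) * ι (e i)‖ ≤ _
  refine block_norm e he horth hsum _ _ (mul_nonneg hC (nm_nonneg l)) fun i => ?_
  refine ((h i).bd _).trans (mul_le_mul_of_nonneg_left ?_ hC)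
  have := nm_map_le (e i * ·) 1 zero_le_one (fun a => by
    calc _ ≤ ‖e i‖ * ‖a‖ := norm_mul_le _ _
      _ ≤ _ := mul_le_mul_of_nonneg_right ((he i).norm_le hι) (norm_nonneg _)) l
  simpa using this

end hilbert

end Pool.Agent.HK
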