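import Pool.Agent.HK.Prism

set_option autoImplicit false
set_option linter.unusedSectionVars false

/-! Homogeneous finite type I pieces. -/

namespace Pool.Agent.HK

variable {H : Type} [NormedAddCommGroup H] [InnerProductSpace ℂ H] [CompleteSpace H]
variable {Z R : Type} [NormedCommRing Z] [NormedAlgebra ℂ Z] [NormedRing R] [NormedAlgebra ℂ R]
  {c : Z →ₐ[ℂ] R} {ι : R →ₐ[ℂ] (H →L[ℂ] H)}

/-- abstract data of a homogeneous piece of finite type I -/
structure Homog (c : Z →ₐ[ℂ] R) (B : Type) [NormedRing B] [NormedAlgebra ℂ B] (z : Z) where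
  k : ℕ
  e : Fin k → Fin k → R
  coef : R → Fin k → Fin k → Z
  e_norm : ∀ i j, ‖e i j‖ ≤ 1
  e_mul : ∀ i j l m, e i j * e l m = if j = l then e i m else 0
  coef_lin : ∀ (t : ℂ) a b i j, coef (t • a + b) i j = t • coef a i j + coef b i j
  coef_mul : ∀ a b i j, coef (a * b) i j = ∑ l, coef a i l * coef b l j
  coef_c : ∀ (w : Z) a i j, coef (c w * a) i j = w * coef a i j
  coef_e : ∀ p q i j, coef (e p q) i j = if i = p ∧ j = q then z else 0
  coef_exp : ∀ a, c z * a = ∑ i, ∑ j, c (coef a i j) * e i j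
  contr : ∀ χ : Z →ₐ[ℂ] ℂ, χ z = 1 → ∀ a, ‖∑ i, ∑ j, χ (coef a i j) • e i j‖ ≤ ‖a‖
  grp : ∃ (Γ : Type) (_ : Group Γ) (_ : Fintype Γ) (u : Γ →* R), (∀ γ, ‖u γ‖ ≤ 1) ∧
    ∀ φ : List R → B, Lin φ → (∀ γ, Van (u γ) φ) → ∀ i j, Van (e i j) φ

namespace Homog

variable {B : Type} [NormedRing B] [NormedAlgebra ℂ B] {z : Z} (S : Homog c B z)

theorem coef_zero (i j : Fin S.k) : S.coef 0 i j = 0 := by
  have := S.coef_lin 1 0 0 i j
  simpa using this

theorem coef_add (a b : R) (i j : Fin S.k) : S.coef (a + b) i j = S.coef a i j + S.coef b i j := by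
  have := S.coef_lin 1 a b i j
  simpa using this

theorem coef_smul (t : ℂ) (a : R) (i j : Fin S.k) : S.coef (t • a) i j = t • S.coef a i j := by
  have := S.coef_lin t a 0 i j
  rwa [add_zero, coef_zero, add_zero] at this

theorem coef_sub (a b : R) (i j : Fin S.k) : S.coef (a - b) i j = S.coef a i j - S.coef b i j := by
  have := S.coef_lin (-1) b a i j
  rw [neg_one_smul, neg_one_smul, neg_add_eq_sub, neg_add_eq_sub] at this
  exact this

theorem coef_sum {κ : Type} (s : Finset κ) (a : κ → R) (i j : Fin S.k) :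
    S.coef (∑ l ∈ s, a l) i j = ∑ l ∈ s, S.coef (a l) i j := by
  classical
  induction s using Finset.induction_on with
  | empty => simp [coef_zero]
  | insert l s hl ih => rw [Finset.sum_insert hl, coef_add, ih, Finset.sum_insert hl]

/-- evaluation at a character -/
noncomputable def ev (χ : Z →ₐ[ℂ] ℂ) (a : R) : R := ∑ i, ∑ j, χ (S.coef a i j) • S.e i j

theorem ev_lin (χ : Z →ₐ[ℂ] ℂ) (t : ℂ) (x y : R) :
    S.ev χ (t • x + y) = t • S.ev χ x + S.ev χ y := by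
  simp only [ev, S.coef_lin, map_add, map_smul, add_smul, Finset.sum_add_distrib,
    Finset.smul_sum, smul_assoc]

theorem ev_mul (χ : Z →ₐ[ℂ] ℂ) (a b : R) : S.ev χ (a * b) = S.ev χ a * S.ev χ b := by
  simp only [ev]
  have h1 : (∑ i, ∑ j, χ (S.coef a i j) • S.e i j) * (∑ i, ∑ j, χ (S.coef b i j) • S.e i j) =
      ∑ i, ∑ j, ∑ l, ∑ m, (χ (S.coef a i j) * χ (S.coef b l m)) • (S.e i j * S.e l m) := by
    rw [Finset.sum_mul]
    refine Finset.sum_congr rfl fun i _ => ?_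
    rw [Finset.sum_mul]
    refine Finset.sum_congr rfl fun j _ => ?_
    rw [Finset.mul_sum]
    refine Finset.sum_congr rfl fun l _ => ?_
    rw [Finset.mul_sum]
    refine Finset.sum_congr rfl fun m _ => ?_
    rw [smul_mul_smul_comm]
  rw [h1]
  simp only [S.e_mul, smul_ite, smul_zero]
  have h2 : ∀ i j, (∑ l, ∑ m, (if j = l then (χ (S.coef a i j) * χ (S.coef b l m)) • S.e i m
      else 0)) = ∑ m, (χ (S.coef a i j) * χ (S.coef b j m)) • S.e i m := by
    intro i j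
    rw [Finset.sum_eq_single j]
    · simp
    · intro l _ hl
      simp [Ne.symm hl]
    · intro h; exact absurd (Finset.mem_univ j) h
  simp only [h2]
  refine Finset.sum_congr rfl fun i _ => ?_
  rw [Finset.sum_comm]
  refine Finset.sum_congr rfl fun m _ => ?_
  rw [S.coef_mul, map_sum, Finset.sum_smul]
  simp only [map_mul]

theorem coef_ev (χ : Z →ₐ[ℂ] ℂ) (a : R) (i j : Fin S.k) :
    S.coef (S.ev χ a) i j = χ (S.coef a i j) • z := by
  simp only [ev]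
  rw [coef_sum]
  simp only [coef_sum, coef_smul, S.coef_e, smul_ite, smul_zero]
  rw [Finset.sum_eq_single i]
  · rw [Finset.sum_eq_single j]
    · simp
    · intro m _ hm
      rw [if_neg fun h => hm h.2.symm]
    · intro h; exact absurd (Finset.mem_univ j) h
  · intro l _ hl
    apply Finset.sum_eq_zero
    intro m _
    rw [if_neg fun h => hl h.1.symm]
  · intro h; exact absurd (Finset.mem_univ i) h

theorem van_ev (χ : Z →ₐ[ℂ] ℂ) {φ : List R → B} (hφ : Lin φ) (h : ∀ i j, Van (S.e i j) φ)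
    (a : R) : Van (S.ev χ a) φ := by
  unfold ev
  exact Van.sum hφ _ _ fun i _ => Van.sum hφ _ _ fun j _ => (h i j).smul hφ _

end Homog

theorem cutoff_family {κ' : Z →ₐ[ℂ] (H →L[ℂ] H)} (hκ : ∀ a, ‖κ' a‖ = ‖a‖) (χ : Z →ₐ[ℂ] ℂ)
    (hP1 : ∀ b, χ b = 0 → ∀ ε : ℝ, 0 < ε → ∃ r, Pr κ' r ∧ χ r = 1 ∧ ‖b * r‖ ≤ ε)
    (ε : ℝ) (hε : 0 < ε) {κ : Type} (s : Finset κ) (b : κ → Z) (hb : ∀ i, χ (b i) = 0) :
    ∃ r, Pr κ' r ∧ χ r = 1 ∧ ∀ i ∈ s, ‖b i * r‖ ≤ ε := by
  classical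
  induction s using Finset.induction_on with
  | empty => exact ⟨1, Pr.one, map_one χ, by simp⟩
  | insert i s hi ih =>
    obtain ⟨s', hs1, hs2, hs3⟩ := ih
    obtain ⟨r, hr1, hr2, hr3⟩ := hP1 (b i) (hb i) ε hε
    refine ⟨r * s', hr1.mul hs1, by rw [map_mul, hr2, hs2, one_mul], ?_⟩
    intro j hj
    rw [Finset.mem_insert] at hj
    rcases hj with rfl | hj
    · calc _ = ‖b j * r * s'‖ := by rw [mul_assoc]
        _ ≤ ‖b j * r‖ * ‖s'‖ := norm_mul_le _ _
        _ ≤ ε * 1 := mul_le_mul hr3 (hs1.norm_le hκ) (norm_nonneg _) hε.le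
        _ = ε := mul_one _
    · calc _ = ‖b j * s' * r‖ := by rw [mul_comm r s', mul_assoc]
        _ ≤ ‖b j * s'‖ * ‖r‖ := norm_mul_le _ _
        _ ≤ ε * 1 := mul_le_mul (hs3 j hj) (hr1.norm_le hκ) (norm_nonneg _) hε.le
        _ = ε := mul_one _

/-- constants -/
noncomputable def C1 (n : ℕ) : ℝ := 1 + (n + 2) * KN n
noncomputable def KH (n : ℕ) : ℝ := (1 + 2 ^ n) * (KN n * C1 n) + KN n

theorem C1_nonneg (n : ℕ) : 0 ≤ C1 n := by
  have := KN_nonneg n
  unfold C1; positivity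

theorem KH_nonneg (n : ℕ) : 0 ≤ KH n := by
  have := KN_nonneg n
  have := C1_nonneg n
  unfold KH; positivity

theorem homog_fine (hS : HasSums ι) (hc : ∀ z a, c z * a = a * c z) (hcn : ∀ z, ‖c z‖ = ‖z‖)
    (hι : ∀ a, ‖ι a‖ = ‖a‖)
    (hP1 : ∀ χ : Z →ₐ[ℂ] ℂ, ∀ b, χ b = 0 → ∀ ε : ℝ, 0 < ε →
      ∃ r, Pr (ι.comp c) r ∧ χ r = 1 ∧ ‖b * r‖ ≤ ε)
    {X : Submodule ℂ (H →L[ℂ] H)}
    (hX : IsBimod ι X) (hXc : ∀ x ∈ X, IsCompactOperator x) {z : Z} (hz : Pr (ι.comp c) z)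
    (S : Homog c (H →L[ℂ] H) z) (χ : Z →ₐ[ℂ] ℂ) (hχz : χ z = 1)
    {n : ℕ} {C : ℝ} (hC : 0 ≤ C) {φ : List R → (H →L[ℂ] H)} (h : Coch X (n + 1) C φ)
    (hcy : ∀ l, D ι φ l = 0) (δ : ℝ) (hδ : 0 < δ) :
    ∃ r, Pr (ι.comp c) r ∧ χ r = 1 ∧ Fine ι X n (KH n * C) δ φ (c r) := by
  have hιle : ∀ a, ‖ι a‖ ≤ ‖a‖ := fun a => (hι a).le
  have hKC : 0 ≤ KN n * C := mul_nonneg (KN_nonneg n) hC
  have hC1 : 0 ≤ C1 n * C := mul_nonneg (C1_nonneg n) hC
  have hκ : ∀ a, ‖(ι.comp c) a‖ = ‖a‖ := fun a => by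
    show ‖ι (c a)‖ = _
    rw [hι, hcn]
  obtain ⟨Γ, _, _, u, hu, hue⟩ := S.grp
  obtain ⟨ψ, hψ, hψv⟩ := exists_normalised ι u hX hιle hu n hC h hcy
  set φ₁ : List R → (H →L[ℂ] H) := fun l => φ l - D ι ψ l with hφ₁
  have hc1 : ∀ l, D ι φ₁ l = 0 := cocycle_sub hcy
  have h1 : Coch X (n + 1) (C1 n * C) φ₁ :=
    (h.sub (hψ.D ι hX hιle hKC)).mono (le_of_eq (by unfold C1; ring))
  have hve : ∀ i j, Van (S.e i j) φ₁ := hue φ₁ h1.lin fun γ p post => hψv p.length p rfl γ post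
  obtain ⟨r, hr, hχr, hzr, hfine⟩ := local_fine hS hc hcn hι hX hXc χ
    (fun b => (∀ i j, χ (S.coef b i j) = 0) ∧ c z * b = b)
    (by
      rintro t b ⟨hb1, hb2⟩
      refine ⟨fun i j => by rw [S.coef_smul, map_smul, hb1, smul_zero], ?_⟩
      rw [mul_smul_comm, hb2])
    (by
      rintro b ⟨hb1, hb2⟩ ε hε
      obtain ⟨r, hr1, hr2, hr3⟩ := cutoff_family hκ χ (hP1 χ) (ε / ((S.k : ℝ) * S.k + 1))
        (by positivity) (Finset.univ : Finset (Fin S.k × Fin S.k))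
        (fun x => S.coef b x.1 x.2) (fun x => hb1 _ _)
      refine ⟨r, hr1, hr2, ?_⟩
      have e1 : b * c r = ∑ i, ∑ j, c (S.coef b i j * r) * S.e i j := by
        have e0 := S.coef_exp b
        rw [hb2] at e0
        conv_lhs => rw [e0]
        rw [Finset.sum_mul]
        refine Finset.sum_congr rfl fun i _ => ?_
        rw [Finset.sum_mul]
        refine Finset.sum_congr rfl fun j _ => ?_
        rw [mul_assoc, ← hc, ← mul_assoc, map_mul]
      rw [e1]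
      have e2 : ∀ i j, ‖c (S.coef b i j * r) * S.e i j‖ ≤ ε / ((S.k : ℝ) * S.k + 1) := by
        intro i j
        calc _ ≤ ‖c (S.coef b i j * r)‖ * ‖S.e i j‖ := norm_mul_le _ _
          _ ≤ (ε / ((S.k : ℝ) * S.k + 1)) * 1 := by
              refine mul_le_mul ?_ (S.e_norm i j) (norm_nonneg _) (by positivity)
              rw [hcn]
              exact hr3 (i, j) (Finset.mem_univ _)
          _ = _ := mul_one _
      calc _ ≤ ∑ i : Fin S.k, ‖∑ j, c (S.coef b i j * r) * S.e i j‖ := norm_sum_le _ _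
        _ ≤ ∑ i : Fin S.k, ∑ j : Fin S.k, ε / ((S.k : ℝ) * S.k + 1) := by
            refine Finset.sum_le_sum fun i _ => (norm_sum_le _ _).trans ?_
            exact Finset.sum_le_sum fun j _ => e2 i j
        _ = (S.k * S.k) * (ε / ((S.k : ℝ) * S.k + 1)) := by
            simp only [Finset.sum_const, Finset.card_univ, Fintype.card_fin, nsmul_eq_mul]
            ring
        _ ≤ ε := by
            rw [mul_div_assoc', div_le_iff₀ (by positivity)]
            nlinarith)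
    (S.ev χ) (S.ev_lin χ) (S.ev_mul χ) (S.contr χ hχz) z hz hχz
    (by
      intro r hr hχr hzr a
      refine ⟨fun i j => ?_, ?_⟩
      · rw [S.coef_c, S.coef_sub, S.coef_ev, map_mul, map_sub, map_smul, hχz, smul_eq_mul,
          mul_one, sub_self, mul_zero]
      · rw [← mul_assoc, ← map_mul, hzr])
    hC1 h1 hc1 (S.van_ev χ h1.lin hve) δ hδ
  refine ⟨r, hr, hχr, (hfine.of_sub hX hι hKC hψ hr.toR (hc r)).weak (le_of_eq ?_)⟩
  unfold KH; ring

end Pool.Agent.HK
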