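import Pool.Agent.HK.Homog

set_option autoImplicit false
set_option linter.unusedSectionVars false

/-! Convergence of the averages over an infinite orthogonal family of central projections. -/

namespace Pool.Agent.HK

variable {H : Type} [NormedAddCommGroup H] [InnerProductSpace ℂ H] [CompleteSpace H]

section lin

variable {R : Type} [NormedRing R] [NormedAlgebra ℂ R] {ι : R →ₐ[ℂ] (H →L[ℂ] H)}

/-- bounded linear map with values in `X` -/
structure BL (X : Submodule ℂ (H →L[ℂ] H)) (C : ℝ) (L : R → (H →L[ℂ] H)) : Prop where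
  lin : ∀ (t : ℂ) x y, L (t • x + y) = t • L x + L y
  val : ∀ x, L x ∈ X
  bd : ∀ x, ‖L x‖ ≤ C * ‖x‖

/-- bounded bilinear map with values in `X` -/
structure BT (X : Submodule ℂ (H →L[ℂ] H)) (C : ℝ) (T : R → R → (H →L[ℂ] H)) : Prop where
  lin1 : ∀ (t : ℂ) x y w, T (t • x + y) w = t • T x w + T y w
  lin2 : ∀ (t : ℂ) x y w, T w (t • x + y) = t • T w x + T w y
  val : ∀ x y, T x y ∈ X
  bd : ∀ x y, ‖T x y‖ ≤ C * (‖x‖ * ‖y‖)

theorem BL.add {X : Submodule ℂ (H →L[ℂ] H)} {C : ℝ} {L : R → (H →L[ℂ] H)} (h : BL X C L)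
    (x y : R) : L (x + y) = L x + L y := by
  have := h.lin 1 x y
  simpa using this

theorem BL.zero {X : Submodule ℂ (H →L[ℂ] H)} {C : ℝ} {L : R → (H →L[ℂ] H)} (h : BL X C L) :
    L 0 = 0 := by
  have := h.add 0 0
  simpa using this

theorem BL.sub {X : Submodule ℂ (H →L[ℂ] H)} {C : ℝ} {L : R → (H →L[ℂ] H)} (h : BL X C L)
    (x y : R) : L (x - y) = L x - L y := by
  have := h.add (x - y) y
  rw [sub_add_cancel] at this
  rw [this]; abel

theorem BT.flip {X : Submodule ℂ (H →L[ℂ] H)} {C : ℝ} {T : R → R → (H →L[ℂ] H)} (h : BT X C T) :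
    BT X C (fun x y => T y x) where
  lin1 t x y w := h.lin2 t x y w
  lin2 t x y w := h.lin1 t x y w
  val x y := h.val y x
  bd x y := by
    refine (h.bd y x).trans (le_of_eq ?_)
    ring

theorem BT.left {X : Submodule ℂ (H →L[ℂ] H)} {C : ℝ} {T : R → R → (H →L[ℂ] H)} (h : BT X C T)
    (x : R) : BL X (C * ‖x‖) (T x) where
  lin t y w := h.lin2 t y w x
  val y := h.val x y
  bd y := by
    refine (h.bd x y).trans (le_of_eq ?_)
    ring

theorem BT.right {X : Submodule ℂ (H →L[ℂ] H)} {C : ℝ} {T : R → R → (H →L[ℂ] H)} (h : BT X C T)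
    (y : R) : BL X (C * ‖y‖) (fun x => T x y) := h.flip.left y

/-- linear map as a cochain -/
def liL (L : R → (H →L[ℂ] H)) : List R → (H →L[ℂ] H)
  | [x] => L x
  | _ => 0

theorem BL.coch {X : Submodule ℂ (H →L[ℂ] H)} {C : ℝ} (hC : 0 ≤ C) {L : R → (H →L[ℂ] H)}
    (h : BL X C L) : Coch X 1 C (liL L) where
  supp l hl := by
    match l with
    | [] => rfl
    | [x] => simp at hl
    | x :: y :: t => rfl
  lin p post x y t := by
    match p, post with
    | [], [] => exact h.lin t x y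
    | [], w :: post => simp [liL]
    | [a], [] => simp [liL]
    | [a], w :: post => simp [liL]
    | a :: b :: p, post => simp [liL]
  val l := by
    match l with
    | [] => exact X.zero_mem
    | [x] => exact h.val x
    | x :: y :: t => exact X.zero_mem
  bd l := by
    match l with
    | [] => simpa [liL] using hC
    | [x] => simpa [liL] using h.bd x
    | x :: y :: t =>
      simp only [liL, norm_zero]
      exact mul_nonneg hC (nm_nonneg _)

/-- bilinear map as a cochain -/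
def biT (T : R → R → (H →L[ℂ] H)) : List R → (H →L[ℂ] H)
  | [x, y] => T x y
  | _ => 0

theorem BT.coch {X : Submodule ℂ (H →L[ℂ] H)} {C : ℝ} (hC : 0 ≤ C) {T : R → R → (H →L[ℂ] H)}
    (h : BT X C T) : Coch X 2 C (biT T) where
  supp l hl := by
    match l with
    | [] => rfl
    | [x] => rfl
    | [x, y] => simp at hl
    | x :: y :: z :: t => rfl
  lin p post x y t := by
    match p, post with
    | [], [] => simp [biT]
    | [], [w] => exact h.lin1 t x y w
    | [], w :: w' :: post => simp [biT]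
    | [a], [] => exact h.lin2 t x y a
    | [a], w :: post => simp [biT]
    | [a, b], post => simp [biT]
    | a :: b :: b' :: p, post => simp [biT]
  val l := by
    match l with
    | [] => exact X.zero_mem
    | [x] => exact X.zero_mem
    | [x, y] => exact h.val x y
    | x :: y :: z :: t => exact X.zero_mem
  bd l := by
    match l with
    | [] => simpa [biT] using hC
    | [x] => simp only [biT, norm_zero]; exact mul_nonneg hC (nm_nonneg _)
    | [x, y] => simpa [biT] using h.bd x y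
    | x :: y :: z :: t =>
      simp only [biT, norm_zero]
      exact mul_nonneg hC (nm_nonneg _)

theorem small_fin (hS : HasSums ι) {X : Submodule ℂ (H →L[ℂ] H)}
    (hX : ∀ x ∈ X, IsCompactOperator x) (n : ℕ) (C : ℝ) (φ : List R → (H →L[ℂ] H)) (hC : 0 ≤ C)
    (h : Coch X (n + 1) C φ)
    (p : ℕ → R) (hp : ∀ j, Pr ι (p j)) (hpo : ∀ i j, i ≠ j → p i * p j = 0)
    (l : ℕ → List R) (hl : ∀ j, (l j).length = n + 1)
    (hla : ∀ j, ∀ a ∈ l j, p j * a = a ∧ a * p j = a ∧ ‖a‖ ≤ 1)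
    (ε : ℝ) (hε : 0 < ε) : {j | ε ≤ ‖φ (l j)‖}.Finite := by
  by_contra hinf
  have hinf' : {j | ε ≤ ‖φ (l j)‖}.Infinite := hinf
  have : Infinite {j | ε ≤ ‖φ (l j)‖} := hinf'.to_subtype
  let e : ℕ ↪ {j | ε ≤ ‖φ (l j)‖} := Infinite.natEmbedding _
  exact small_orth ι hS hX n C φ hC h (fun k => p (e k)) (fun k => hp _)
    (fun i j hij => hpo _ _ fun h1 => hij (e.injective (Subtype.ext h1)))
    (fun k => l (e k)) (fun k => hl _) (fun k => hla _) ε hε (fun k => (e k).2)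

theorem BL.small_fin (hS : HasSums ι) {X : Submodule ℂ (H →L[ℂ] H)}
    (hX : ∀ x ∈ X, IsCompactOperator x) {C : ℝ} (hC : 0 ≤ C) {L : R → (H →L[ℂ] H)}
    (h : BL X C L)
    (p : ℕ → R) (hp : ∀ j, Pr ι (p j)) (hpo : ∀ i j, i ≠ j → p i * p j = 0)
    (x : ℕ → R) (hx : ∀ j, p j * x j = x j ∧ x j * p j = x j ∧ ‖x j‖ ≤ 1)
    (ε : ℝ) (hε : 0 < ε) : {j | ε ≤ ‖L (x j)‖}.Finite := by
  have := HK.small_fin hS hX 0 C (liL L) hC (h.coch hC) p hp hpo (fun j => [x j])
    (fun j => by simp) (fun j a ha => by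
      rw [List.mem_singleton] at ha
      subst ha
      exact hx j) ε hε
  exact this

theorem BT.small_fin (hS : HasSums ι) {X : Submodule ℂ (H →L[ℂ] H)}
    (hX : ∀ x ∈ X, IsCompactOperator x) {C : ℝ} (hC : 0 ≤ C) {T : R → R → (H →L[ℂ] H)}
    (h : BT X C T)
    (p : ℕ → R) (hp : ∀ j, Pr ι (p j)) (hpo : ∀ i j, i ≠ j → p i * p j = 0)
    (x y : ℕ → R) (hx : ∀ j, p j * x j = x j ∧ x j * p j = x j ∧ ‖x j‖ ≤ 1)
    (hy : ∀ j, p j * y j = y j ∧ y j * p j = y j ∧ ‖y j‖ ≤ 1)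
    (ε : ℝ) (hε : 0 < ε) : {j | ε ≤ ‖T (x j) (y j)‖}.Finite := by
  have := HK.small_fin hS hX 1 C (biT T) hC (h.coch hC) p hp hpo (fun j => [x j, y j])
    (fun j => by simp) (fun j a ha => by
      simp only [List.mem_cons, List.not_mem_nil, or_false] at ha
      rcases ha with rfl | rfl
      · exact hx j
      · exact hy j) ε hε
  exact this

/-- Rosenthal step for a sequence of bounded linear maps. -/
theorem ros_step (hS : HasSums ι) {C : ℝ} (hC : 0 ≤ C) (L : ℕ → R → (H →L[ℂ] H))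
    (hadd : ∀ j x y, L j (x + y) = L j x + L j y) (hbd : ∀ j x, ‖L j x‖ ≤ C * ‖x‖)
    (p : ℕ → R) (hp : ∀ j, Pr ι (p j)) (hpo : ∀ i j, i ≠ j → p i * p j = 0)
    (x : ℕ → R) (hx : ∀ j, p j * x j = x j ∧ x j * p j = x j ∧ ‖x j‖ ≤ 1)
    (ε : ℝ) (hε : 0 < ε) (hcon : ∀ j, ε ≤ ‖L j (x j)‖) :
    ∃ J : Set ℕ, J.Infinite ∧ ∃ b : R, ‖b‖ ≤ 1 ∧ ∀ j ∈ J, ε / 4 ≤ ‖L j b‖ := by
  obtain ⟨A, hA1, hA2, hA3⟩ := hS p hp hpo x (fun j => (hx j).1) (fun j => (hx j).2.1)
    (fun j => (hx j).2.2)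
  have hvec : ∀ j, ∃ v : H, ‖v‖ < 1 ∧ ε / 2 ≤ ‖L j (x j) v‖ := by
    intro j
    obtain ⟨v, hv1, hv2⟩ := (L j (x j)).exists_lt_apply_of_lt_opNorm (r := ε / 2)
      (by have := hcon j; linarith)
    exact ⟨v, hv1, hv2.le⟩
  choose v hv1 hv2 using hvec
  have hg := fun i => exists_dual_vec (L i (x i)) (v i) (ε / 2) (hv2 i) (by linarith)
  choose g hg1 hg2 using hg
  have hopn : ∀ (j : ℕ) (S : Set ℕ), ‖L j (A S)‖ ≤ C := by
    intro j S
    refine (hbd _ _).trans ?_
    calc C * ‖A S‖ ≤ C * 1 := mul_le_mul_of_nonneg_left (hA3 S) hC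
      _ = C := mul_one _
  have hbd' : ∀ (i : ℕ) (S : Set ℕ), ‖inner ℂ (g i) (L i (A S) (v i))‖ ≤ C := by
    intro i S
    calc _ ≤ ‖g i‖ * ‖L i (A S) (v i)‖ := norm_inner_le_norm _ _
      _ ≤ 1 * (C * 1) := by
          refine mul_le_mul (hg1 i).le ?_ (norm_nonneg _) zero_le_one
          refine (ContinuousLinearMap.le_opNorm _ _).trans ?_
          exact mul_le_mul (hopn i S) (hv1 i).le (norm_nonneg _) hC
      _ = C := by ring
  obtain ⟨J, hJ, hJm⟩ := rosenthal_real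
    (fun i T => (inner ℂ (g i) (L i (A T) (v i))).re) C
    (fun i T => (Complex.abs_re_le_norm _).trans (hbd' i _))
    (by
      intro i S T hST
      show (inner ℂ (g i) (L i (A (S ∪ T)) (v i))).re = _
      rw [hA1 _ _ hST, hadd, add_apply, inner_add_right, Complex.add_re])
    (ε / 4) (by linarith)
  refine ⟨J, hJ, A J, hA3 J, ?_⟩
  intro j hj
  have h1 := hJm j hj
  simp only [hA2] at h1
  have h2 := hg2 j
  have h3 : (inner ℂ (g j) (L j (A J) (v j))).re ≤ ‖L j (A J)‖ := by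
    calc _ ≤ ‖inner ℂ (g j) (L j (A J) (v j))‖ := Complex.re_le_norm _
      _ ≤ ‖g j‖ * ‖L j (A J) (v j)‖ := norm_inner_le_norm _ _
      _ ≤ 1 * (‖L j (A J)‖ * 1) := by
          refine mul_le_mul (hg1 j).le ?_ (norm_nonneg _) zero_le_one
          refine (ContinuousLinearMap.le_opNorm _ _).trans ?_
          exact mul_le_mul_of_nonneg_left (hv1 j).le (norm_nonneg _)
      _ = _ := by ring
  linarith

end lin

/-- Cauchy criterion by disjoint blocks. -/
theorem cauchy_of_blocks {G : Type} [NormedAddCommGroup G] (a : ℕ → G)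
    (h : ∀ ε : ℝ, 0 < ε → ∀ n m : ℕ → ℕ, (∀ i, n i < m i) → (∀ i, m i ≤ n (i + 1)) →
      ¬ ∀ i, ε ≤ ‖a (m i) - a (n i)‖) : CauchySeq a := by
  rw [Metric.cauchySeq_iff']
  by_contra hcon
  push Not at hcon
  obtain ⟨ε, hε, hcon⟩ := hcon
  choose f hf1 hf2 using hcon
  -- `f N ≥ N` and `ε ≤ dist (a (f N)) (a N)`
  let n : ℕ → ℕ := fun i => f^[i] 0
  have hn : ∀ i, n (i + 1) = f (n i) := fun i => Function.iterate_succ_apply' f i 0
  refine h ε hε n (fun i => n (i + 1)) ?_ (fun i => le_rfl) ?_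
  · intro i
    rw [hn]
    rcases lt_or_eq_of_le (hf1 (n i)) with h1 | h1
    · exact h1
    · exfalso
      have := hf2 (n i)
      rw [← h1, dist_self] at this
      linarith
  · intro i
    rw [← dist_eq_norm, hn]
    exact hf2 (n i)

end Pool.Agent.HK
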