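import Pool.Agent.HK.Inf1

set_option autoImplicit false
set_option linter.unusedSectionVars false

namespace Pool.Agent.HK

section avg

variable {B : Type} [Ring B] [Algebra ℂ B]

theorem avg_sum {Γ : Type} [Group Γ] [Fintype Γ] {κ : Type} (s : Finset κ) (f : κ → Γ → B) :
    avg (fun γ => ∑ i ∈ s, f i γ) = ∑ i ∈ s, avg (f i) := by
  classical
  induction s using Finset.induction_on with
  | empty => simp [avg_zero]
  | insert i s hi ih => simp only [Finset.sum_insert hi, avg_add, ih]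

theorem avg_zero_of_neg {Γ : Type} [Group Γ] [Fintype Γ] (f : Γ → B) (γ₀ : Γ)
    (h : ∀ γ, f (γ * γ₀) = - f γ) : avg f = 0 := by
  have h1 := avg_shift f γ₀
  simp only [h] at h1
  have h2 : avg (fun γ => - f γ) = - avg f := by
    have := avg_smul (Γ := Γ) (-1 : ℂ) f
    simpa using this
  rw [h2] at h1
  have h3 : (2 : ℂ) • avg f = 0 := by
    rw [two_smul]
    nth_rewrite 1 [← h1]
    exact neg_add_cancel _
  rw [smul_eq_zero] at h3
  rcases h3 with h3 | h3
  · norm_num at h3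
  · exact h3

theorem avg_sign {N : ℕ} (i : Fin N) (b : B) :
    avg (fun γ : Fin N → ℤˣ => (((γ i : ℤˣ) : ℤ) : ℂ) • b) = 0 := by
  refine avg_zero_of_neg _ (Pi.mulSingle i (-1)) fun γ => ?_
  simp

theorem avg_sign2 {N : ℕ} (i j : Fin N) (b : B) :
    avg (fun γ : Fin N → ℤˣ => ((((γ i : ℤˣ) : ℤ) : ℂ) * (((γ j : ℤˣ) : ℤ) : ℂ)) • b) =
      if i = j then b else 0 := by
  by_cases h : i = j
  · subst h
    rw [if_pos rfl]
    have : (fun γ : Fin N → ℤˣ => ((((γ i : ℤˣ) : ℤ) : ℂ) * (((γ i : ℤˣ) : ℤ) : ℂ)) • b) =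
        fun _ => b := by
      funext γ
      rcases Int.units_eq_one_or (γ i) with h | h <;> simp [h]
    rw [this, avg_const]
  · rw [if_neg h]
    refine avg_zero_of_neg _ (Pi.mulSingle i (-1)) fun γ => ?_
    simp [Pi.mulSingle_eq_of_ne (Ne.symm h)]

end avg

variable {H : Type} [NormedAddCommGroup H] [InnerProductSpace ℂ H] [CompleteSpace H]
variable {Z R : Type} [NormedCommRing Z] [NormedAlgebra ℂ Z] [NormedRing R] [NormedAlgebra ℂ R]
  {c : Z →ₐ[ℂ] R} {ι : R →ₐ[ℂ] (H →L[ℂ] H)}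

theorem usign_orth {N : ℕ} (e : Fin N → Z) (he : ∀ i, e i * e i = e i)
    (horth : ∀ i j, i ≠ j → e i * e j = 0) (s : Fin N → ℤˣ) :
    usign e he s = (1 - ∑ i, e i) + ∑ i, (((s i : ℤˣ) : ℤ) : Z) * e i := by
  have hall : ∀ S : Finset (Fin N), ∏ i ∈ S, vsign (e i) (he i) (s i) =
      (1 - ∑ i ∈ S, e i) + ∑ i ∈ S, (((s i : ℤˣ) : ℤ) : Z) * e i := by
    intro S
    induction S using Finset.induction_on with
    | empty => simp
    | insert a S ha ih =>
      rw [Finset.prod_insert ha, Finset.sum_insert ha, Finset.sum_insert ha, ih, vsign_apply]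
      have h1 : e a * ∑ i ∈ S, e i = 0 := by
        rw [Finset.mul_sum]
        exact Finset.sum_eq_zero fun i hi => horth a i fun h => ha (h ▸ hi)
      have h2 : e a * ∑ i ∈ S, (((s i : ℤˣ) : ℤ) : Z) * e i = 0 := by
        rw [Finset.mul_sum]
        refine Finset.sum_eq_zero fun i hi => ?_
        rw [mul_left_comm, horth a i fun h => ha (h ▸ hi), mul_zero]
      have h3 : (1 - e a + (((s a : ℤˣ) : ℤ) : Z) * e a) *
          (1 - ∑ i ∈ S, e i + ∑ i ∈ S, (((s i : ℤˣ) : ℤ) : Z) * e i) =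
          (1 - (e a + ∑ i ∈ S, e i) + ((((s a : ℤˣ) : ℤ) : Z) * e a +
            ∑ i ∈ S, (((s i : ℤˣ) : ℤ) : Z) * e i)) +
          (1 - (((s a : ℤˣ) : ℤ) : Z)) * (e a * ∑ i ∈ S, e i) +
          ((((s a : ℤˣ) : ℤ) : Z) - 1) * (e a * ∑ i ∈ S, (((s i : ℤˣ) : ℤ) : Z) * e i) := by
        ring
      rw [h3, h1, h2]
      ring
  exact hall Finset.univ

theorem BT.expand {X : Submodule ℂ (H →L[ℂ] H)} {C : ℝ} {T : R → R → (H →L[ℂ] H)}
    (h : BT X C T) {N : ℕ} (r : R) (e : Fin N → R) (s : Fin N → ℂ) :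
    T (r + ∑ i, s i • e i) (r + ∑ i, s i • e i) =
      T r r + (∑ i, s i • T r (e i)) + (∑ i, s i • T (e i) r) +
        ∑ i, ∑ j, (s i * s j) • T (e i) (e j) := by
  have hsum : ∀ (L : R → (H →L[ℂ] H)) (K : ℝ), BL X K L → ∀ S : Finset (Fin N),
      L (∑ i ∈ S, s i • e i) = ∑ i ∈ S, s i • L (e i) := by
    intro L K hL S
    induction S using Finset.induction_on with
    | empty => simp [hL.zero]
    | insert a S ha ih =>
      rw [Finset.sum_insert ha, Finset.sum_insert ha, hL.lin, ih]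
  have h1 : ∀ x, T x (r + ∑ i, s i • e i) = T x r + ∑ i, s i • T x (e i) := by
    intro x
    rw [(h.left x).add, hsum _ _ (h.left x)]
  have h2 : ∀ y, T (r + ∑ i, s i • e i) y = T r y + ∑ i, s i • T (e i) y := by
    intro y
    have h3 := (h.right y).add r (∑ i, s i • e i)
    have h4 := hsum _ _ (h.right y) Finset.univ
    calc T (r + ∑ i, s i • e i) y = T r y + T (∑ i, s i • e i) y := h3
      _ = _ := by rw [h4]
  have h5 : ∑ j, s j • T (r + ∑ i, s i • e i) (e j) =
      ∑ j, s j • T r (e j) + ∑ i, ∑ j, (s i * s j) • T (e i) (e j) := by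
    simp only [h2, smul_add, Finset.sum_add_distrib, Finset.smul_sum, smul_smul]
    congr 1
    rw [Finset.sum_comm]
    refine Finset.sum_congr rfl fun i _ => Finset.sum_congr rfl fun j _ => ?_
    rw [mul_comm]
  rw [h1, h5, h2]
  abel

/-- the group average of a bilinear map over the sign group of an orthogonal family -/
theorem BT.avg_formula {X : Submodule ℂ (H →L[ℂ] H)} {C : ℝ} {T : R → R → (H →L[ℂ] H)}
    (h : BT X C T) {N : ℕ} (e : Fin N → Z) (he : ∀ i, e i * e i = e i)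
    (horth : ∀ i j, i ≠ j → e i * e j = 0) :
    avg (fun γ => T (uR c e he γ⁻¹) (uR c e he γ)) =
      T (c (1 - ∑ i, e i)) (c (1 - ∑ i, e i)) + ∑ i, T (c (e i)) (c (e i)) := by
  have h1 : ∀ γ : Fin N → ℤˣ, γ⁻¹ = γ := by
    intro γ; funext i; exact Int.units_inv_eq_self _
  have h2 : ∀ γ : Fin N → ℤˣ, uR c e he γ = c (1 - ∑ i, e i) +
      ∑ i, (((γ i : ℤˣ) : ℤ) : ℂ) • c (e i) := by
    intro γ
    show c (usign e he γ) = _
    rw [usign_orth e he horth, map_add, map_sum]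
    congr 1
    refine Finset.sum_congr rfl fun i _ => ?_
    rw [← map_smul]
    congr 1
    rw [Algebra.smul_def]
    congr 1
    exact (map_intCast (algebraMap ℂ Z) _).symm
  simp only [h1, h2]
  simp only [h.expand]
  rw [avg_add, avg_add, avg_add, avg_const, avg_sum, avg_sum, avg_sum]
  simp only [avg_sign, avg_sum, avg_sign2]
  simp

end Pool.Agent.HK
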