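import Pool.Agent.HK.Inf2

set_option autoImplicit false
set_option linter.unusedSectionVars false

namespace Pool.Agent.HK

variable {H : Type} [NormedAddCommGroup H] [InnerProductSpace ℂ H] [CompleteSpace H]
variable {Z R : Type} [NormedCommRing Z] [NormedAlgebra ℂ Z] [NormedRing R] [NormedAlgebra ℂ R]
  {c : Z →ₐ[ℂ] R} {ι : R →ₐ[ℂ] (H →L[ℂ] H)}

/-- an orthogonal sequence of central projections -/
structure OrthSeq (κ : Z →ₐ[ℂ] (H →L[ℂ] H)) (z : ℕ → Z) : Prop where
  pr : ∀ j, Pr κ (z j)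
  orth : ∀ i j, i ≠ j → z i * z j = 0

/-- finite block sum -/
def sZ (z : ℕ → Z) (F : Finset ℕ) : Z := ∑ i ∈ F, z i

/-- tail projection -/
def rZ (z : ℕ → Z) (N : ℕ) : Z := 1 - sZ z (Finset.range N)

section seq

variable {κ : Z →ₐ[ℂ] (H →L[ℂ] H)} {z : ℕ → Z} (hz : OrthSeq κ z)

include hz

theorem OrthSeq.mul_sZ (i : ℕ) (F : Finset ℕ) : z i * sZ z F = if i ∈ F then z i else 0 := by
  unfold sZ
  rw [Finset.mul_sum]
  split_ifs with h
  · rw [Finset.sum_eq_single_of_mem i h fun j _ hj => hz.orth i j (Ne.symm hj), (hz.pr i).1]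
  · exact Finset.sum_eq_zero fun j hj => hz.orth i j fun h' => h (h' ▸ hj)

theorem OrthSeq.sZ_mul_sZ (F G : Finset ℕ) : sZ z F * sZ z G = sZ z (F ∩ G) := by
  conv_lhs => rw [sZ]
  rw [Finset.sum_mul]
  simp only [hz.mul_sZ]
  rw [Finset.sum_ite_mem]
  rfl

theorem OrthSeq.sZ_pr (F : Finset ℕ) : Pr κ (sZ z F) := by
  refine ⟨by rw [hz.sZ_mul_sZ, Finset.inter_self], ?_⟩
  unfold sZ
  rw [map_sum]
  exact isSelfAdjoint_sum _ fun i _ => (hz.pr i).2

theorem OrthSeq.sZ_disj {F G : Finset ℕ} (h : Disjoint F G) : sZ z F * sZ z G = 0 := by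
  rw [hz.sZ_mul_sZ, Finset.disjoint_iff_inter_eq_empty.mp h]
  rfl

theorem OrthSeq.rZ_pr (N : ℕ) : Pr κ (rZ z N) := (hz.sZ_pr _).one_sub

end seq

theorem rZ_split (z : ℕ → Z) {n m : ℕ} (h : n ≤ m) :
    rZ z n = rZ z m + sZ z (Finset.Ico n m) := by
  unfold rZ sZ
  rw [← Finset.sum_range_add_sum_Ico (fun i => z i) h]
  abel

theorem rZ_sub (z : ℕ → Z) {n m : ℕ} (h : n ≤ m) :
    rZ z m - rZ z n = - sZ z (Finset.Ico n m) := by
  rw [rZ_split z h]; abel

section blocks

variable {n m : ℕ → ℕ} (hnm : ∀ i, n i < m i) (hmn : ∀ i, m i ≤ n (i + 1))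

include hnm hmn

theorem blocks_le {i j : ℕ} (h : i < j) : m i ≤ n j := by
  obtain ⟨k, rfl⟩ := Nat.exists_eq_add_of_le (Nat.succ_le_of_lt h)
  clear h
  induction k with
  | zero => exact hmn i
  | succ k ih =>
    have h1 := hnm (i + 1 + k)
    have h2 := hmn (i + 1 + k)
    have h3 : i.succ + (k + 1) = i + 1 + k + 1 := by omega
    rw [h3]
    have h4 : i.succ + k = i + 1 + k := rfl
    rw [h4] at ih
    omega

theorem blocks_ge (i : ℕ) : i ≤ n i := by
  induction i with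
  | zero => exact Nat.zero_le _
  | succ i ih =>
    have h1 := hnm i
    have h2 := hmn i
    omega

theorem blocks_disj {i j : ℕ} (h : i ≠ j) :
    Disjoint (Finset.Ico (n i) (m i)) (Finset.Ico (n j) (m j)) := by
  rw [Finset.disjoint_left]
  intro x hx hy
  rw [Finset.mem_Ico] at hx hy
  rcases lt_or_gt_of_ne h with h | h
  · have := blocks_le hnm hmn h; omega
  · have := blocks_le hnm hmn h; omega

end blocks

section conv

variable {z : ℕ → Z} (hz : OrthSeq (ι.comp c) z)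

include hz

/-- elements living under a block -/
theorem block_elem (F : Finset ℕ)
    (w : Z) (hw : sZ z F * w = w) (hwn : ‖c w‖ ≤ 1) :
    c (sZ z F) * c w = c w ∧ c w * c (sZ z F) = c w ∧ ‖c w‖ ≤ 1 := by
  refine ⟨by rw [← map_mul, hw], by rw [← map_mul, mul_comm, hw], hwn⟩

theorem sZ_elem (hι : ∀ a, ‖ι a‖ = ‖a‖) (F : Finset ℕ) :
    c (sZ z F) * c (sZ z F) = c (sZ z F) ∧ c (sZ z F) * c (sZ z F) = c (sZ z F) ∧
      ‖c (sZ z F)‖ ≤ 1 :=
  block_elem hz F _ (hz.sZ_pr F).1 ((hz.sZ_pr F).toR.norm_le hι)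

theorem BL.blocks (hS : HasSums ι) (hι : ∀ a, ‖ι a‖ = ‖a‖)
    {X : Submodule ℂ (H →L[ℂ] H)}
    (hX : ∀ x ∈ X, IsCompactOperator x) {C : ℝ} (hC : 0 ≤ C) {L : R → (H →L[ℂ] H)}
    (h : BL X C L) {n m : ℕ → ℕ} (hnm : ∀ i, n i < m i) (hmn : ∀ i, m i ≤ n (i + 1))
    (ε : ℝ) (hε : 0 < ε) : {i | ε ≤ ‖L (c (sZ z (Finset.Ico (n i) (m i))))‖}.Finite := by
  refine h.small_fin hS hX hC (fun i => c (sZ z (Finset.Ico (n i) (m i))))
    (fun i => (hz.sZ_pr _).toR) ?_ _ (fun i => sZ_elem hz hι _) ε hε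
  intro i j hij
  rw [← map_mul, hz.sZ_disj (blocks_disj hnm hmn hij), map_zero]

theorem BL.cauchy (hS : HasSums ι) (hι : ∀ a, ‖ι a‖ = ‖a‖)
    {X : Submodule ℂ (H →L[ℂ] H)}
    (hX : ∀ x ∈ X, IsCompactOperator x) {C : ℝ} (hC : 0 ≤ C) {L : R → (H →L[ℂ] H)}
    (h : BL X C L) : CauchySeq (fun N => L (c (rZ z N))) := by
  apply cauchy_of_blocks
  intro ε hε n m hnm hmn hcon
  have h1 := h.blocks hz hS hι hX hC hnm hmn ε hε
  have h2 : {i | ε ≤ ‖L (c (sZ z (Finset.Ico (n i) (m i))))‖} = Set.univ := by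
    rw [Set.eq_univ_iff_forall]
    intro i
    have h3 := hcon i
    rw [← h.sub, ← map_sub, rZ_sub z (hnm i).le, map_neg] at h3
    have h4 : L (-c (sZ z (Finset.Ico (n i) (m i)))) =
        - L (c (sZ z (Finset.Ico (n i) (m i)))) := by
      have := h.sub 0 (c (sZ z (Finset.Ico (n i) (m i))))
      rw [zero_sub, h.zero, zero_sub] at this
      exact this
    rw [h4, norm_neg] at h3
    exact h3
  rw [h2] at h1
  exact Set.infinite_univ h1

theorem BT.tail (hS : HasSums ι) (hι : ∀ a, ‖ι a‖ = ‖a‖)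
    {X : Submodule ℂ (H →L[ℂ] H)} (hXcl : IsClosed (X : Set (H →L[ℂ] H)))
    (hX : ∀ x ∈ X, IsCompactOperator x) {C : ℝ} (hC : 0 ≤ C) {T : R → R → (H →L[ℂ] H)}
    (h : BT X C T) {n m : ℕ → ℕ} (hnm : ∀ i, n i < m i) (hmn : ∀ i, m i ≤ n (i + 1))
    (ε : ℝ) (hε : 0 < ε) :
    {i | ε ≤ ‖T (c (sZ z (Finset.Ico (n i) (m i)))) (c (rZ z (m i)))‖}.Finite := by
  have hrn : ∀ N, ‖c (rZ z N)‖ ≤ 1 := fun N => (hz.rZ_pr N).toR.norm_le hι
  have hlim : ∀ b, ∃ y, Filter.Tendsto (fun N => T b (c (rZ z N))) Filter.atTop (nhds y) :=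
    fun b => cauchySeq_tendsto_of_complete
      ((h.left b).cauchy hz hS hι hX (mul_nonneg hC (norm_nonneg _)))
  choose Tinf hTinf using hlim
  have hTbd : ∀ b N, ‖T b (c (rZ z N))‖ ≤ C * ‖b‖ := by
    intro b N
    refine (h.bd _ _).trans (mul_le_mul_of_nonneg_left ?_ hC)
    calc _ ≤ ‖b‖ * 1 := mul_le_mul_of_nonneg_left (hrn N) (norm_nonneg _)
      _ = _ := mul_one _
  have hTi : BL X C Tinf := by
    refine ⟨?_, ?_, ?_⟩
    · intro t x y
      have h1 := ((hTinf x).const_smul t).add (hTinf y)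
      have h2 : (fun N => t • T x (c (rZ z N)) + T y (c (rZ z N))) =
          fun N => T (t • x + y) (c (rZ z N)) := by
        funext N; rw [h.lin1]
      rw [h2] at h1
      exact tendsto_nhds_unique (hTinf _) h1
    · intro x
      exact hXcl.mem_of_tendsto (hTinf x) (Filter.Eventually.of_forall fun N => h.val _ _)
    · intro x
      exact le_of_tendsto (hTinf x).norm (Filter.Eventually.of_forall fun N => hTbd x N)
  have hfin1 := hTi.blocks hz hS hι hX hC hnm hmn (ε / 2) (by linarith)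
  have hfin2 : {i | ε / 2 ≤ ‖T (c (sZ z (Finset.Ico (n i) (m i)))) (c (rZ z (m i))) -
      Tinf (c (sZ z (Finset.Ico (n i) (m i))))‖}.Finite := by
    by_contra hinf
    have hinf' : {i | ε / 2 ≤ ‖T (c (sZ z (Finset.Ico (n i) (m i)))) (c (rZ z (m i))) -
      Tinf (c (sZ z (Finset.Ico (n i) (m i))))‖}.Infinite := hinf
    set G := {i | ε / 2 ≤ ‖T (c (sZ z (Finset.Ico (n i) (m i)))) (c (rZ z (m i))) -
      Tinf (c (sZ z (Finset.Ico (n i) (m i))))‖} with hG
    have : Infinite G := hinf'.to_subtype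
    let e : ℕ ↪o ℕ := Nat.orderEmbeddingOfSet G
    have heG : ∀ k, e k ∈ G := fun k => by
      have h1 := Nat.orderEmbeddingOfSet_range G
      have h2 : e k ∈ Set.range (Nat.orderEmbeddingOfSet G) := ⟨k, rfl⟩
      rwa [h1] at h2
    obtain ⟨J, hJ, b, hb, hJb⟩ := ros_step hS (C := 2 * C) (by positivity)
      (fun k x => T x (c (rZ z (m (e k)))) - Tinf x)
      (fun k x y => by
        have h1 : T (x + y) (c (rZ z (m (e k)))) = T x (c (rZ z (m (e k)))) +
            T y (c (rZ z (m (e k)))) := (h.right (c (rZ z (m (e k))))).add x y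
        rw [h1, hTi.add]; abel)
      (fun k x => by
        refine (norm_sub_le _ _).trans ?_
        have h1 := hTbd x (m (e k))
        have h2 := hTi.bd x
        linarith)
      (fun k => c (sZ z (Finset.Ico (n (e k)) (m (e k))))) (fun k => (hz.sZ_pr _).toR)
      (fun i j hij => by
        rw [← map_mul, hz.sZ_disj (blocks_disj hnm hmn fun h' => hij (e.injective h')), map_zero])
      (fun k => c (sZ z (Finset.Ico (n (e k)) (m (e k))))) (fun k => sZ_elem hz hι _)
      (ε / 2) (by linarith) (fun k => heG k)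
    have hto : Filter.Tendsto (fun k => T b (c (rZ z (m (e k)))) - Tinf b) Filter.atTop
        (nhds 0) := by
      have hm : Filter.Tendsto (fun k => m (e k)) Filter.atTop Filter.atTop := by
        apply Filter.tendsto_atTop_mono (f := fun k => k) _ Filter.tendsto_id
        intro k
        have h1 := blocks_ge hnm hmn (e k)
        have h2 := hnm (e k)
        have h3 : k ≤ e k := e.strictMono.le_apply
        omega
      have h1 := (hTinf b).comp hm
      have h2 := h1.sub (tendsto_const_nhds (x := Tinf b))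
      rw [sub_self] at h2
      exact h2
    rw [Metric.tendsto_atTop] at hto
    obtain ⟨K, hK⟩ := hto (ε / 2 / 4) (by linarith)
    obtain ⟨k, hkJ, hk⟩ := hJ.exists_gt K
    have h1 := hK k hk.le
    rw [dist_zero_right] at h1
    have h2 := hJb k hkJ
    linarith
  refine (hfin1.union hfin2).subset ?_
  intro i hi
  by_contra hcon
  simp only [Set.mem_union, Set.mem_ofPred_eq, not_or, not_le] at hcon
  have h1 : ε ≤ ‖T (c (sZ z (Finset.Ico (n i) (m i)))) (c (rZ z (m i)))‖ := hi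
  have h2 : ‖T (c (sZ z (Finset.Ico (n i) (m i)))) (c (rZ z (m i)))‖ ≤
      ‖T (c (sZ z (Finset.Ico (n i) (m i)))) (c (rZ z (m i))) -
        Tinf (c (sZ z (Finset.Ico (n i) (m i))))‖ + ‖Tinf (c (sZ z (Finset.Ico (n i) (m i))))‖ := by
    have := norm_add_le (T (c (sZ z (Finset.Ico (n i) (m i)))) (c (rZ z (m i))) -
        Tinf (c (sZ z (Finset.Ico (n i) (m i))))) (Tinf (c (sZ z (Finset.Ico (n i) (m i)))))
    rwa [sub_add_cancel] at this
  linarith [hcon.1, hcon.2]

/-- choice of signs for the diagonal sum -/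
theorem BT.signs
    {X : Submodule ℂ (H →L[ℂ] H)} {C : ℝ} {T : R → R → (H →L[ℂ] H)}
    (h : BT X C T) (F : Finset ℕ) : ∀ (b : H →L[ℂ] H), ∃ w : Z, sZ z F * w = w ∧
      w * w = sZ z F ∧ IsSelfAdjoint (ι (c w)) ∧
      ‖b + ∑ i ∈ F, T (c (z i)) (c (z i))‖ ≤ ‖b + T (c w) (c w)‖ := by
  induction F using Finset.induction_on with
  | empty =>
    intro b
    refine ⟨0, by simp, by simp [sZ], by simp, ?_⟩
    rw [map_zero, (h.left 0).zero]
    simp
  | insert a F ha ih =>
    intro b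
    obtain ⟨w, hw1, hw2, hw3, hw4⟩ := ih (b + T (c (z a)) (c (z a)))
    have haw : z a * w = 0 := by
      rw [← hw1, ← mul_assoc, hz.mul_sZ, if_neg ha, zero_mul]
    have hF : sZ z (insert a F) = z a + sZ z F := by
      unfold sZ; rw [Finset.sum_insert ha]
    have hzF : sZ z F * z a = 0 := by rw [mul_comm, hz.mul_sZ, if_neg ha]
    have hp : ∀ s : ℂ, s * s = 1 → sZ z (insert a F) * (w + s • z a) = w + s • z a ∧
        (w + s • z a) * (w + s • z a) = sZ z (insert a F) := by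
      intro s hs
      constructor
      · rw [hF, add_mul, mul_add, mul_add, haw, hw1, mul_smul_comm, mul_smul_comm, (hz.pr a).1,
          hzF]
        simp [add_comm]
      · rw [hF, add_mul, mul_add, mul_add, hw2, mul_smul_comm, smul_mul_assoc, haw, mul_comm w,
          haw, smul_mul_assoc, mul_smul_comm, (hz.pr a).1, smul_smul, hs]
        simp [add_comm]
    have hsa : ∀ s : ℝ, IsSelfAdjoint (ι (c (w + (s : ℂ) • z a))) := by
      intro s
      rw [map_add, map_add, map_smul, map_smul]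
      refine hw3.add ?_
      have h1 : IsSelfAdjoint (ι (c (z a))) := (hz.pr a).2
      rw [IsSelfAdjoint, star_smul, h1.star_eq]
      congr 1
      exact Complex.conj_ofReal s
    have hT : ∀ s : ℂ, T (c (w + s • z a)) (c (w + s • z a)) = T (c w) (c w) +
        s • T (c w) (c (z a)) + s • T (c (z a)) (c w) + (s * s) • T (c (z a)) (c (z a)) := by
      intro s
      have e1 : w + s • z a = s • z a + w := add_comm _ _
      rw [e1, map_add, map_smul, h.lin1, h.lin2, h.lin2, smul_add, smul_smul]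
      abel
    have hsum : (b + T (c (w + (1 : ℂ) • z a)) (c (w + (1 : ℂ) • z a))) +
        (b + T (c (w + (-1 : ℂ) • z a)) (c (w + (-1 : ℂ) • z a))) =
        (2 : ℂ) • (b + T (c (z a)) (c (z a)) + T (c w) (c w)) := by
      rw [hT, hT]
      simp only [one_smul, neg_smul, mul_neg, mul_one, neg_neg, two_smul]
      abel
    have hmax : ‖b + T (c (z a)) (c (z a)) + T (c w) (c w)‖ ≤
          ‖b + T (c (w + (1 : ℂ) • z a)) (c (w + (1 : ℂ) • z a))‖ ∨
        ‖b + T (c (z a)) (c (z a)) + T (c w) (c w)‖ ≤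
          ‖b + T (c (w + (-1 : ℂ) • z a)) (c (w + (-1 : ℂ) • z a))‖ := by
      by_contra hcon
      push Not at hcon
      have h1 := norm_add_le (b + T (c (w + (1 : ℂ) • z a)) (c (w + (1 : ℂ) • z a)))
        (b + T (c (w + (-1 : ℂ) • z a)) (c (w + (-1 : ℂ) • z a)))
      rw [hsum, norm_smul] at h1
      have h2 : ‖(2 : ℂ)‖ = 2 := by simp
      rw [h2] at h1
      linarith [hcon.1, hcon.2]
    have e2 : b + ∑ i ∈ insert a F, T (c (z i)) (c (z i)) =
        b + T (c (z a)) (c (z a)) + ∑ i ∈ F, T (c (z i)) (c (z i)) := by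
      rw [Finset.sum_insert ha]; abel
    rw [e2]
    rcases hmax with hmax | hmax
    · refine ⟨w + (1 : ℂ) • z a, (hp 1 (by norm_num)).1, (hp 1 (by norm_num)).2, ?_,
        hw4.trans hmax⟩
      have := hsa 1
      simpa using this
    · refine ⟨w + (-1 : ℂ) • z a, (hp (-1) (by norm_num)).1, (hp (-1) (by norm_num)).2, ?_,
        hw4.trans hmax⟩
      have := hsa (-1)
      simpa using this

theorem BT.diag (hS : HasSums ι) (hι : ∀ a, ‖ι a‖ = ‖a‖)
    {X : Submodule ℂ (H →L[ℂ] H)}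
    (hX : ∀ x ∈ X, IsCompactOperator x) {C : ℝ} (hC : 0 ≤ C) {T : R → R → (H →L[ℂ] H)}
    (h : BT X C T) {n m : ℕ → ℕ} (hnm : ∀ i, n i < m i) (hmn : ∀ i, m i ≤ n (i + 1))
    (ε : ℝ) (hε : 0 < ε) :
    {i | ε ≤ ‖∑ k ∈ Finset.Ico (n i) (m i), T (c (z k)) (c (z k))‖}.Finite := by
  have hw := fun i => h.signs hz (Finset.Ico (n i) (m i)) 0
  choose w hw1 hw2 hw3 hw4 using hw
  have hwn : ∀ i, ‖c (w i)‖ ≤ 1 := by
    intro i
    have h1 : ‖ι (c (w i))‖ * ‖ι (c (w i))‖ ≤ 1 := by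
      rw [← CStarRing.norm_star_mul_self, (hw3 i).star_eq, ← map_mul, ← map_mul, hw2]
      exact (hz.sZ_pr _).toR.norm_ι_le
    rw [← hι]
    by_contra hcon
    push Not at hcon
    nlinarith
  have hel := fun i => block_elem hz (Finset.Ico (n i) (m i)) (w i) (hw1 i) (hwn i)
  refine (h.small_fin hS hX hC (fun i => c (sZ z (Finset.Ico (n i) (m i))))
    (fun i => (hz.sZ_pr _).toR) ?_ (fun i => c (w i)) (fun i => c (w i)) hel hel ε hε).subset ?_
  · intro i j hij
    rw [← map_mul, hz.sZ_disj (blocks_disj hnm hmn hij), map_zero]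
  · intro i hi
    have h1 := hw4 i
    rw [zero_add, zero_add] at h1
    exact le_trans (hi : ε ≤ _) h1

theorem BT.cauchy (hS : HasSums ι) (hι : ∀ a, ‖ι a‖ = ‖a‖)
    {X : Submodule ℂ (H →L[ℂ] H)} (hXcl : IsClosed (X : Set (H →L[ℂ] H)))
    (hX : ∀ x ∈ X, IsCompactOperator x) {C : ℝ} (hC : 0 ≤ C) {T : R → R → (H →L[ℂ] H)}
    (h : BT X C T) :
    CauchySeq (fun N => T (c (rZ z N)) (c (rZ z N)) +
      ∑ i ∈ Finset.range N, T (c (z i)) (c (z i))) := by
  apply cauchy_of_blocks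
  intro ε hε n m hnm hmn hcon
  have f1 := h.diag hz hS hι hX hC hnm hmn (ε / 4) (by linarith)
  have f2 : {i | ε / 4 ≤ ‖T (c (sZ z (Finset.Ico (n i) (m i))))
      (c (sZ z (Finset.Ico (n i) (m i))))‖}.Finite :=
    h.small_fin hS hX hC (fun i => c (sZ z (Finset.Ico (n i) (m i))))
      (fun i => (hz.sZ_pr _).toR) (fun i j hij => by
        rw [← map_mul, hz.sZ_disj (blocks_disj hnm hmn hij), map_zero]) _ _
      (fun i => sZ_elem hz hι _) (fun i => sZ_elem hz hι _) (ε / 4) (by linarith)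
  have f3 := h.tail hz hS hι hXcl hX hC hnm hmn (ε / 4) (by linarith)
  have f4 := h.flip.tail hz hS hι hXcl hX hC hnm hmn (ε / 4) (by linarith)
  have hfin := ((f1.union f2).union f3).union f4
  refine Set.infinite_univ (hfin.subset ?_)
  intro i _
  by_contra hni
  simp only [Set.mem_union, Set.mem_ofPred_eq, not_or, not_le] at hni
  obtain ⟨⟨⟨g1, g2⟩, g3⟩, g4⟩ := hni
  have h1 := hcon i
  set y := c (sZ z (Finset.Ico (n i) (m i))) with hy
  set r := c (rZ z (m i)) with hr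
  have hrn : c (rZ z (n i)) = r + y := by
    rw [rZ_split z (hnm i).le, map_add]
  have hTn : T (c (rZ z (n i))) (c (rZ z (n i))) = T r r + T r y + T y r + T y y := by
    rw [hrn, (h.left (r + y)).add]
    have e1 : T (r + y) r = T r r + T y r := (h.right r).add r y
    have e2 : T (r + y) y = T r y + T y y := (h.right y).add r y
    rw [e1, e2]; abel
  have hdiff : (T r r + ∑ i ∈ Finset.range (m i), T (c (z i)) (c (z i))) -
      (T (c (rZ z (n i))) (c (rZ z (n i))) + ∑ i ∈ Finset.range (n i), T (c (z i)) (c (z i))) =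
      ∑ k ∈ Finset.Ico (n i) (m i), T (c (z k)) (c (z k)) - T y y - T y r - T r y := by
    rw [hTn, ← Finset.sum_range_add_sum_Ico (fun k => T (c (z k)) (c (z k))) (hnm i).le]
    abel
  rw [hdiff] at h1
  have h2 : ‖∑ k ∈ Finset.Ico (n i) (m i), T (c (z k)) (c (z k)) - T y y - T y r - T r y‖ ≤
      ‖∑ k ∈ Finset.Ico (n i) (m i), T (c (z k)) (c (z k))‖ + ‖T y y‖ + ‖T y r‖ + ‖T r y‖ := by
    refine (norm_sub_le _ _).trans (add_le_add_left ?_ _)
    refine (norm_sub_le _ _).trans (add_le_add_left ?_ _)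
    exact norm_sub_le _ _
  linarith

end conv

end Pool.Agent.HK
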