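import Pool.Agent.HK.Inf3

set_option autoImplicit false
set_option linter.unusedSectionVars false

namespace Pool.Agent.HK

open Filter Topology

section lim

variable {R B : Type} [NormedRing R] [NormedRing B] [NormedAlgebra ℂ R] [NormedAlgebra ℂ B]
  (ι : R →ₐ[ℂ] B)

theorem E_tendsto (l : List R) : ∀ (φ : ℕ → List R → B) (Ψ : List R → B),
    (∀ t, Tendsto (fun k => φ k t) atTop (𝓝 (Ψ t))) →
    Tendsto (fun k => E ι (φ k) l) atTop (𝓝 (E ι Ψ l)) := by
  induction l with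
  | nil => intro φ Ψ _; simp
  | cons a l ih =>
    intro φ Ψ h
    cases l with
    | nil => simpa using (h []).mul_const (ι a)
    | cons b t =>
      simp only [E_cons]
      exact (h _).sub (ih (fun k s => φ k (a :: s)) (fun s => Ψ (a :: s)) fun s => h (a :: s))

theorem D_tendsto (l : List R) (φ : ℕ → List R → B) (Ψ : List R → B)
    (h : ∀ t, Tendsto (fun k => φ k t) atTop (𝓝 (Ψ t))) :
    Tendsto (fun k => D ι (φ k) l) atTop (𝓝 (D ι Ψ l)) := by
  cases l with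
  | nil => simp
  | cons a l =>
    simp only [D_cons]
    exact ((h l).const_mul (ι a)).sub (E_tendsto ι _ φ Ψ h)

theorem Coch.lim {X : Submodule ℂ B} (hXcl : IsClosed (X : Set B)) {n : ℕ} {C : ℝ}
    {φ : ℕ → List R → B} {Φ : List R → B} (h : ∀ N, Coch X n C (φ N))
    (hl : ∀ l, Tendsto (fun N => φ N l) atTop (𝓝 (Φ l))) : Coch X n C Φ where
  supp l hl' := by
    have h1 : (fun N => φ N l) = fun _ => 0 := by funext N; exact (h N).supp l hl'
    have h2 := hl l
    rw [h1] at h2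
    exact tendsto_nhds_unique h2 tendsto_const_nhds
  lin p post x y c := by
    have h1 := ((hl (p ++ x :: post)).const_smul c).add (hl (p ++ y :: post))
    have h2 : (fun N => c • φ N (p ++ x :: post) + φ N (p ++ y :: post)) =
        fun N => φ N (p ++ (c • x + y) :: post) := by
      funext N; rw [(h N).lin]
    rw [h2] at h1
    exact tendsto_nhds_unique (hl _) h1
  val l := hXcl.mem_of_tendsto (hl l) (Eventually.of_forall fun N => (h N).val l)
  bd l := le_of_tendsto (hl l).norm (Eventually.of_forall fun N => (h N).bd l)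

end lim

variable {H : Type} [NormedAddCommGroup H] [InnerProductSpace ℂ H] [CompleteSpace H]
variable {Z R : Type} [NormedCommRing Z] [NormedAlgebra ℂ Z] [NormedRing R] [NormedAlgebra ℂ R]
  {c : Z →ₐ[ℂ] R} {ι : R →ₐ[ℂ] (H →L[ℂ] H)}

/-- initial segment of the family -/
def eN (z : ℕ → Z) (N : ℕ) : Fin N → Z := fun i => z i

section inf

variable {z : ℕ → Z} (hz : OrthSeq (ι.comp c) z)

theorem eN_idem {κ : Z →ₐ[ℂ] (H →L[ℂ] H)} (hz : OrthSeq κ z) (N : ℕ) (i : Fin N) :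
    eN z N i * eN z N i = eN z N i := (hz.pr i).1

theorem eN_orth {κ : Z →ₐ[ℂ] (H →L[ℂ] H)} (hz : OrthSeq κ z) (N : ℕ) (i j : Fin N) (h : i ≠ j) :
    eN z N i * eN z N j = 0 := hz.orth i j fun h' => h (Fin.ext h')

/-- sign group -/
noncomputable def uN (hz : OrthSeq (ι.comp c) z) (N : ℕ) : (Fin N → ℤˣ) →* R :=
  uR c (eN z N) (eN_idem hz N)

theorem uN_norm (hcn : ∀ z, ‖c z‖ = ‖z‖) (hι : ∀ a, ‖ι a‖ = ‖a‖) (N : ℕ) (s : Fin N → ℤˣ) :
    ‖uN hz N s‖ ≤ 1 := uR_norm hcn hι (eN z N) (fun i => hz.pr i) s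

theorem uN_mono {M N : ℕ} (h : M ≤ N) (s : Fin M → ℤˣ) : ∃ s' : Fin N → ℤˣ,
    uN hz M s = uN hz N s' := by
  let g : ℕ → ℤˣ := fun i => if h : i < M then s ⟨i, h⟩ else 1
  refine ⟨fun i => g i, ?_⟩
  show c (usign (eN z M) _ s) = c (usign (eN z N) _ fun i => g i)
  rw [usign_orth _ _ (eN_orth hz M), usign_orth _ _ (eN_orth hz N)]
  congr 1
  have e1 : ∀ K : ℕ, ∑ i, eN z K i = ∑ i ∈ Finset.range K, z i := fun K =>
    (Finset.sum_range (fun i => z i)).symm
  have e2 : ∑ i, (((g (i : Fin N) : ℤˣ) : ℤ) : Z) * eN z N i =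
      ∑ i ∈ Finset.range N, (((g i : ℤˣ) : ℤ) : Z) * z i :=
    (Finset.sum_range (fun i => (((g i : ℤˣ) : ℤ) : Z) * z i)).symm
  have e3 : ∑ i, (((s i : ℤˣ) : ℤ) : Z) * eN z M i =
      ∑ i ∈ Finset.range M, (((g i : ℤˣ) : ℤ) : Z) * z i := by
    rw [Finset.sum_range (fun i => (((g i : ℤˣ) : ℤ) : Z) * z i)]
    refine Finset.sum_congr rfl fun i _ => ?_
    simp [g, eN]
  rw [e1, e1, e2, e3, ← Finset.sum_range_add_sum_Ico (fun i => z i) h,
    ← Finset.sum_range_add_sum_Ico (fun i => (((g i : ℤˣ) : ℤ) : Z) * z i) h]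
  have e4 : ∑ i ∈ Finset.Ico M N, (((g i : ℤˣ) : ℤ) : Z) * z i = ∑ i ∈ Finset.Ico M N, z i := by
    refine Finset.sum_congr rfl fun i hi => ?_
    have : ¬ i < M := by rw [Finset.mem_Ico] at hi; omega
    simp [g, this]
  rw [e4]
  abel

theorem avgN {X : Submodule ℂ (H →L[ℂ] H)} {C : ℝ} {T : R → R → (H →L[ℂ] H)}
    (h : BT X C T) (N : ℕ) :
    avg (fun γ => T (uN hz N γ⁻¹) (uN hz N γ)) =
      T (c (rZ z N)) (c (rZ z N)) + ∑ i ∈ Finset.range N, T (c (z i)) (c (z i)) := by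
  have h1 := h.avg_formula (c := c) (eN z N) (eN_idem hz N) (eN_orth hz N)
  have e1 : 1 - ∑ i, eN z N i = rZ z N := by
    unfold rZ sZ
    rw [Finset.sum_range (fun i => z i)]
    rfl
  rw [e1] at h1
  rw [Finset.sum_range (fun i => T (c (z i)) (c (z i)))]
  exact h1

theorem S0_cauchy (hS : HasSums ι) (hι : ∀ a, ‖ι a‖ = ‖a‖)
    {X : Submodule ℂ (H →L[ℂ] H)} (hX : IsBimod ι X) (hXcl : IsClosed (X : Set (H →L[ℂ] H)))
    (hXc : ∀ x ∈ X, IsCompactOperator x) {n : ℕ} {C : ℝ} (hC : 0 ≤ C)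
    {φ : List R → (H →L[ℂ] H)} (h : Coch X (n + 1) C φ) (l : List R) :
    CauchySeq (fun N => S0 ι (uN hz N) φ l) := by
  have hT : BT X (C * nm l) (fun x y => ι x * φ (y :: l)) := by
    refine ⟨?_, ?_, ?_, ?_⟩
    · intro t x y w
      simp only [map_add, map_smul, add_mul, smul_mul_assoc]
    · intro t x y w
      rw [h.lin.head, mul_add, mul_smul_comm]
    · intro x y; exact hX.left _ _ (h.val _)
    · intro x y
      calc _ ≤ ‖ι x‖ * ‖φ (y :: l)‖ := norm_mul_le _ _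
        _ ≤ ‖x‖ * (C * (‖y‖ * nm l)) := by
            rw [hι]
            refine mul_le_mul_of_nonneg_left ?_ (norm_nonneg _)
            have := h.bd (y :: l)
            rwa [nm_cons] at this
        _ = _ := by ring
  have h1 := hT.cauchy hz hS hι hXcl hXc (mul_nonneg hC (nm_nonneg l))
  have h2 : (fun N => S0 ι (uN hz N) φ l) = fun N =>
      (fun x y => ι x * φ (y :: l)) (c (rZ z N)) (c (rZ z N)) +
      ∑ i ∈ Finset.range N, (fun x y => ι x * φ (y :: l)) (c (z i)) (c (z i)) := by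
    funext N
    exact avgN hz hT N
  rw [h2]
  exact h1

theorem SS_cauchy (hS : HasSums ι) (hι : ∀ a, ‖ι a‖ = ‖a‖)
    {X : Submodule ℂ (H →L[ℂ] H)} (hXcl : IsClosed (X : Set (H →L[ℂ] H)))
    (hXc : ∀ x ∈ X, IsCompactOperator x) {n : ℕ} {C : ℝ} (hC : 0 ≤ C)
    {φ : List R → (H →L[ℂ] H)} (h : Coch X (n + 1) C φ) (k : ℕ) (l : List R) :
    CauchySeq (fun N => SS (uN hz N) k φ l) := by
  unfold SS
  cases hd : l.drop k with
  | nil =>
    simp only [Sh, smul_zero]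
    exact cauchySeq_const 0
  | cons a t =>
    simp only [Sh]
    set p := l.take k with hp
    have hT : BT X (C * (nm p * (‖a‖ * nm t))) (fun x y => curs φ p (a * x :: y :: t)) := by
      refine ⟨?_, ?_, ?_, ?_⟩
      · intro s x y w
        have := h.lin p (w :: t) (a * x) (a * y) s
        simpa [curs, mul_add, mul_smul_comm] using this
      · intro s x y w
        have := h.lin (p ++ [a * w]) t x y s
        simpa [curs] using this
      · intro x y; exact h.val _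
      · intro x y
        refine (h.bd _).trans ?_
        rw [nm_append, nm_cons, nm_cons]
        have h1 : ‖a * x‖ ≤ ‖a‖ * ‖x‖ := norm_mul_le _ _
        have h2 := nm_nonneg p
        have h3 := nm_nonneg t
        calc C * (nm p * (‖a * x‖ * (‖y‖ * nm t))) ≤
              C * (nm p * ((‖a‖ * ‖x‖) * (‖y‖ * nm t))) := by gcongr
          _ = _ := by ring
    have h1 := hT.cauchy hz hS hι hXcl hXc (by
      have := nm_nonneg p
      have := nm_nonneg t
      positivity)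
    have h2 : (fun N => avg (fun γ => curs φ p (a * uN hz N γ⁻¹ :: uN hz N γ :: t))) = fun N =>
        (fun x y => curs φ p (a * x :: y :: t)) (c (rZ z N)) (c (rZ z N)) +
        ∑ i ∈ Finset.range N, (fun x y => curs φ p (a * x :: y :: t)) (c (z i)) (c (z i)) := by
      funext N
      exact avgN hz hT N
    have h3 : CauchySeq (fun N => avg (fun γ => curs φ p (a * uN hz N γ⁻¹ :: uN hz N γ :: t))) := by
      rw [h2]; exact h1
    obtain ⟨y, hy⟩ := cauchySeq_tendsto_of_complete h3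
    exact (hy.const_smul _).cauchySeq

theorem inf_step (hS : HasSums ι) (hcn : ∀ z, ‖c z‖ = ‖z‖) (hι : ∀ a, ‖ι a‖ = ‖a‖)
    {X : Submodule ℂ (H →L[ℂ] H)} (hX : IsBimod ι X) (hXcl : IsClosed (X : Set (H →L[ℂ] H)))
    (hXc : ∀ x ∈ X, IsCompactOperator x) {n : ℕ} {C : ℝ} (hC : 0 ≤ C)
    {φ : List R → (H →L[ℂ] H)} (h : Coch X (n + 1) C φ) (hcy : ∀ l, D ι φ l = 0) (k : ℕ)
    (hv : ∀ j, j < k → ∀ N, VanAt (uN hz N) j φ) :
    ∃ η : List R → (H →L[ℂ] H), Coch X n C η ∧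
      ∀ j, j < k + 1 → ∀ N, VanAt (uN hz N) j (fun l => φ l - D ι η l) := by
  have hιle : ∀ a, ‖ι a‖ ≤ ‖a‖ := fun a => (hι a).le
  obtain ⟨ηN, hη1, hη2, hη3⟩ : ∃ ηN : ℕ → List R → (H →L[ℂ] H), (∀ N, Coch X n C (ηN N)) ∧
      (∀ l, CauchySeq (fun N => ηN N l)) ∧
      ∀ N j, j < k + 1 → VanAt (uN hz N) j (fun l => φ l - D ι (ηN N) l) := by
    cases k with
    | zero =>
      refine ⟨fun N => S0 ι (uN hz N) φ, fun N => S0_coch ι _ hX hιle (uN_norm hz hcn hι N) hC h,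
        fun l => S0_cauchy hz hS hι hX hXcl hXc hC h l, ?_⟩
      intro N j hj
      have : j = 0 := by omega
      subst this
      exact vanAt_zero_step ι _ φ hcy
    | succ k =>
      refine ⟨fun N => SS (uN hz N) k φ, fun N => SS_coch _ (uN_norm hz hcn hι N) hC k h,
        fun l => SS_cauchy hz hS hι hXcl hXc hC h k l, ?_⟩
      intro N j hj
      exact vanAt_step ι _ φ hcy k (fun i hi => hv i (by omega) N) j (by omega)
  have hlim := fun l => cauchySeq_tendsto_of_complete (hη2 l)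
  choose η hη using hlim
  refine ⟨η, Coch.lim hXcl hη1 hη, ?_⟩
  intro j hj N q hq γ post
  have hD := D_tendsto ι (q ++ uN hz N γ :: post) ηN η hη
  have h1 : Tendsto (fun N' => φ (q ++ uN hz N γ :: post) - D ι (ηN N') (q ++ uN hz N γ :: post))
      atTop (𝓝 (φ (q ++ uN hz N γ :: post) - D ι η (q ++ uN hz N γ :: post))) :=
    tendsto_const_nhds.sub hD
  have h2 : Tendsto (fun N' => φ (q ++ uN hz N γ :: post) - D ι (ηN N') (q ++ uN hz N γ :: post))
      atTop (𝓝 0) := by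
    refine tendsto_const_nhds.congr' ?_
    filter_upwards [eventually_ge_atTop N] with N' hN'
    obtain ⟨γ', hγ'⟩ := uN_mono hz hN' γ
    rw [hγ']
    exact (hη3 N' j hj q hq γ' post).symm
  exact tendsto_nhds_unique h1 h2

theorem inf_iter (hS : HasSums ι) (hcn : ∀ z, ‖c z‖ = ‖z‖) (hι : ∀ a, ‖ι a‖ = ‖a‖)
    {X : Submodule ℂ (H →L[ℂ] H)} (hX : IsBimod ι X) (hXcl : IsClosed (X : Set (H →L[ℂ] H)))
    (hXc : ∀ x ∈ X, IsCompactOperator x) {n : ℕ} {C : ℝ} (hC : 0 ≤ C)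
    {φ : List R → (H →L[ℂ] H)} (h : Coch X (n + 1) C φ) (hcy : ∀ l, D ι φ l = 0) (k : ℕ) :
    ∃ ψ : List R → (H →L[ℂ] H), Coch X n (k * (n + 3) ^ k * C) ψ ∧
      Coch X (n + 1) ((n + 3) ^ k * C) (fun l => φ l - D ι ψ l) ∧
      ∀ j, j < k → ∀ N, VanAt (uN hz N) j (fun l => φ l - D ι ψ l) := by
  have hιle : ∀ a, ‖ι a‖ ≤ ‖a‖ := fun a => (hι a).le
  induction k with
  | zero =>
    refine ⟨fun _ => 0, ?_, ?_, ?_⟩
    · simpa using Coch.zero (R := R) X n
    · simpa [D_zero] using h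
    · intro j hj; omega
  | succ k ih =>
    obtain ⟨ψ, h1, h2, h3⟩ := ih
    set φ' : List R → (H →L[ℂ] H) := fun l => φ l - D ι ψ l with hφ'
    have hc' : ∀ l, D ι φ' l = 0 := cocycle_sub hcy
    have hC' : (0 : ℝ) ≤ (n + 3) ^ k * C := by positivity
    obtain ⟨η, hη, hηv⟩ := inf_step hz hS hcn hι hX hXcl hXc hC' h2 hc' k h3
    have hsum : ∀ l, φ' l - D ι η l = φ l - D ι (fun l => ψ l + η l) l := by
      intro l
      rw [D_add]
      simp only [hφ', sub_sub]
    refine ⟨fun l => ψ l + η l, ?_, ?_, ?_⟩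
    · refine (h1.add hη).mono ?_
      push_cast
      have e : (k * (n + 3) ^ k * C + (n + 3) ^ k * C : ℝ) = (k + 1) * (n + 3) ^ k * C := by ring
      rw [e]
      have : (1 : ℝ) ≤ n + 3 := by have := Nat.cast_nonneg (α := ℝ) n; linarith
      gcongr
      · omega
    · have := h2.sub (hη.D ι hX hιle hC')
      simp only [hsum] at this
      refine this.mono (le_of_eq ?_)
      ring
    · intro j hj N
      have := hηv j hj N
      simpa only [hsum] using this

include hz in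
theorem inf_normalised (hS : HasSums ι) (hcn : ∀ z, ‖c z‖ = ‖z‖) (hι : ∀ a, ‖ι a‖ = ‖a‖)
    {X : Submodule ℂ (H →L[ℂ] H)} (hX : IsBimod ι X) (hXcl : IsClosed (X : Set (H →L[ℂ] H)))
    (hXc : ∀ x ∈ X, IsCompactOperator x) (n : ℕ) {C : ℝ} (hC : 0 ≤ C)
    {φ : List R → (H →L[ℂ] H)} (h : Coch X (n + 1) C φ) (hcy : ∀ l, D ι φ l = 0) :
    ∃ ψ : List R → (H →L[ℂ] H), Coch X n (KN n * C) ψ ∧
      Van 1 (fun l => φ l - D ι ψ l) ∧ ∀ j, Van (c (z j)) (fun l => φ l - D ι ψ l) := by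
  have hιle : ∀ a, ‖ι a‖ ≤ ‖a‖ := fun a => (hι a).le
  obtain ⟨ψ, h1, h2, h3⟩ := inf_iter hz hS hcn hι hX hXcl hXc hC h hcy (n + 1)
  refine ⟨ψ, h1.mono (le_of_eq (by unfold KN; push_cast; ring)), ?_⟩
  have hall : ∀ N γ, Van (uN hz N γ) (fun l => φ l - D ι ψ l) := by
    intro N γ p post
    rcases Nat.lt_or_ge p.length (n + 1) with hj | hj
    · exact h3 p.length hj N p rfl γ post
    · apply h2.supp
      simp
      omega
  have hV1 : Van 1 (fun l => φ l - D ι ψ l) := by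
    have := hall 0 1
    rwa [map_one] at this
  refine ⟨hV1, fun j => ?_⟩
  apply van_of_refl h2.lin hV1
  have := hall (j + 1) (Pi.mulSingle (Fin.last j) (-1))
  unfold uN at this
  rw [uR_single] at this
  exact this

end inf

end Pool.Agent.HK
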