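import Pool.Agent.HK.Local

set_option autoImplicit false
set_option linter.unusedSectionVars false

namespace Pool.Agent.HK

section hilbert

variable {H : Type} [NormedAddCommGroup H] [InnerProductSpace ℂ H] [CompleteSpace H]
variable {Z : Type} [NormedCommRing Z] [NormedAlgebra ℂ Z] {κ : Z →ₐ[ℂ] (H →L[ℂ] H)}

/-- finite partition into good projections, from the existence at every character -/
theorem exists_partition [CompleteSpace Z] (G : Z → Prop)
    (hher : ∀ r r', Pr κ r → G r → Pr κ r' → r * r' = r' → G r')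
    (hchar : ∀ χ : Z →ₐ[ℂ] ℂ, ∃ r, Pr κ r ∧ χ r = 1 ∧ G r) :
    ∃ (N : ℕ) (e : Fin N → Z), (∀ i, Pr κ (e i) ∧ G (e i)) ∧
      (∀ i j, i ≠ j → e i * e j = 0) ∧ ∑ i, e i = 1 := by
  let I : Ideal Z :=
    { carrier := {x | ∃ L : List Z, (∀ r ∈ L, Pr κ r ∧ G r) ∧ x * (L.map (1 - ·)).prod = 0}
      zero_mem' := ⟨[], by simp, by simp⟩
      add_mem' := by
        rintro x y ⟨L, hL, hx⟩ ⟨L', hL', hy⟩
        refine ⟨L ++ L', ?_, ?_⟩
        · intro r hr
          rw [List.mem_append] at hr
          rcases hr with hr | hr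
          · exact hL r hr
          · exact hL' r hr
        · rw [List.map_append, List.prod_append, add_mul, ← mul_assoc x, hx, zero_mul, zero_add,
            mul_comm (L.map (1 - ·)).prod, ← mul_assoc y, hy, zero_mul]
      smul_mem' := by
        rintro c x ⟨L, hL, hx⟩
        refine ⟨L, hL, ?_⟩
        rw [smul_eq_mul, mul_assoc, hx, mul_zero] }
  have hI : I = ⊤ := by
    by_contra hne
    obtain ⟨M, hM, hIM⟩ := Ideal.exists_le_maximal I hne
    obtain ⟨r, hr, hχr, hG⟩ := hchar (WeakDual.CharacterSpace.toAlgHom (Ideal.toCharacterSpace M))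
    have hrI : r ∈ I := ⟨[r], by simp [hr, hG], by
      simp only [List.map_cons, List.map_nil, List.prod_singleton]
      rw [mul_sub, mul_one, hr.1, sub_self]⟩
    have h0 : Ideal.toCharacterSpace M r = 0 := Ideal.toCharacterSpace_apply_eq_zero_of_mem M (hIM hrI)
    have h1 : Ideal.toCharacterSpace M r = 1 := hχr
    rw [h0] at h1
    exact zero_ne_one h1
  have h1 : (1 : Z) ∈ I := hI ▸ Submodule.mem_top
  obtain ⟨L, hL, hL1⟩ := h1
  rw [one_mul] at hL1
  have key : ∀ L : List Z, (∀ r ∈ L, Pr κ r ∧ G r) → Pr κ (L.map (1 - ·)).prod ∧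
      ∃ (N : ℕ) (e : Fin N → Z), (∀ i, Pr κ (e i) ∧ G (e i)) ∧
      (∀ i j, i ≠ j → e i * e j = 0) ∧ ∑ i, e i = 1 - (L.map (1 - ·)).prod := by
    intro L
    induction L with
    | nil =>
      intro _
      refine ⟨by simpa using Pr.one, 0, Fin.elim0, fun i => i.elim0, fun i => i.elim0, by simp⟩
    | cons r L ih =>
      intro hrL
      obtain ⟨hpr, N, e, he1, he2, he3⟩ := ih fun s hs => hrL s (by simp [hs])
      obtain ⟨hr, hGr⟩ := hrL r (by simp)
      set pr := (L.map (1 - ·)).prod with hprdef
      have hprod : ((r :: L).map (1 - ·)).prod = (1 - r) * pr := by simp [hprdef]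
      have hepr : ∀ i, e i * pr = 0 := by
        intro i
        have h2 : pr = 1 - ∑ j, e j := by rw [he3]; ring
        rw [h2, mul_sub, mul_one, Finset.mul_sum, Finset.sum_eq_single i, (he1 i).1.1, sub_self]
        · intro j _ hj; exact he2 i j hj.symm
        · intro h; exact absurd (Finset.mem_univ i) h
      have hnew : Pr κ (r * pr) := hr.mul hpr
      refine ⟨by rw [hprod]; exact hr.one_sub.mul hpr, N + 1, Fin.cons (r * pr) e, ?_, ?_, ?_⟩
      · intro i
        refine Fin.cases ?_ (fun j => ?_) i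
        · rw [Fin.cons_zero]
          exact ⟨hnew, hher r _ hr hGr hnew (by rw [← mul_assoc, hr.1])⟩
        · rw [Fin.cons_succ]; exact he1 j
      · intro i j
        refine Fin.cases ?_ (fun i => ?_) i
        · refine Fin.cases ?_ (fun j => ?_) j
          · intro h; exact absurd rfl h
          · intro _
            rw [Fin.cons_zero, Fin.cons_succ, mul_comm, mul_comm r, ← mul_assoc, hepr, zero_mul]
        · refine Fin.cases ?_ (fun j => ?_) j
          · intro _
            rw [Fin.cons_zero, Fin.cons_succ, mul_comm r, ← mul_assoc, hepr, zero_mul]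
          · intro hij
            rw [Fin.cons_succ, Fin.cons_succ]
            exact he2 i j fun h => hij (by rw [h])
      · rw [Fin.sum_cons, he3, hprod]
        ring
  obtain ⟨_, N, e, h1, h2, h3⟩ := key L hL
  exact ⟨N, e, h1, h2, by rw [h3, hL1, sub_zero]⟩

end hilbert

end Pool.Agent.HK
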