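import Pool.Agent.HK.Fine
import Pool.Agent.HK.Part

set_option autoImplicit false
set_option linter.unusedSectionVars false

namespace Pool.Agent.HK

section gen

variable {R B : Type} [NormedRing R] [NormedAlgebra ℂ R] [NormedRing B] [NormedAlgebra ℂ B]

theorem shift_van (f g s : R → R) (hfg : ∀ a, f a = s a + g a) (l : List R) :
    ∀ (φ : List R → B), Lin φ → (∀ a, Van (s a) φ) → φ (l.map f) = φ (l.map g) := by
  induction l with
  | nil => intro φ _ _; simp
  | cons b t ih =>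
    intro φ hφ hv
    rw [List.map_cons, List.map_cons, hfg b, hφ.head_add]
    have h2 := hv b [] (t.map f)
    simp only [List.nil_append] at h2
    rw [h2, zero_add]
    exact ih (fun s => φ (g b :: s)) (hφ.cur _) (fun a => (hv a).cur _)

end gen

section central

variable {H : Type} [NormedAddCommGroup H] [InnerProductSpace ℂ H] [CompleteSpace H]
variable {Z R : Type} [NormedCommRing Z] [NormedAlgebra ℂ Z] [NormedRing R] [NormedAlgebra ℂ R]
  {c : Z →ₐ[ℂ] R} {ι : R →ₐ[ℂ] (H →L[ℂ] H)}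

theorem cmul (hc : ∀ z a, c z * a = a * c z) (x y : Z) (a b : R) :
    c x * a * (c y * b) = c (x * y) * (a * b) := by
  calc c x * a * (c y * b) = c x * (a * c y) * b := by simp only [mul_assoc]
    _ = c x * (c y * a) * b := by rw [hc y a]
    _ = _ := by rw [map_mul]; simp only [mul_assoc]

/-- the sign group of a family of central projections, in `R` -/
noncomputable def uR (c : Z →ₐ[ℂ] R) {N : ℕ} (e : Fin N → Z) (he : ∀ i, e i * e i = e i) :
    (Fin N → ℤˣ) →* R := (c : Z →* R).comp (usign e he)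

theorem uR_norm (hcn : ∀ z, ‖c z‖ = ‖z‖) (hι : ∀ a, ‖ι a‖ = ‖a‖) {N : ℕ} (e : Fin N → Z)
    (h : ∀ i, Pr (ι.comp c) (e i)) (s : Fin N → ℤˣ) :
    ‖uR c e (fun i => (h i).1) s‖ ≤ 1 := by
  show ‖c (usign e (fun i => (h i).1) s)‖ ≤ 1
  rw [hcn]
  exact usign_norm (κ := ι.comp c) (fun a => by
    show ‖ι (c a)‖ = _
    rw [hι, hcn]) e h s

theorem uR_single {N : ℕ} (e : Fin N → Z) (he : ∀ i, e i * e i = e i) (i : Fin N) :
    uR c e he (Pi.mulSingle i (-1)) = 1 - 2 * c (e i) := by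
  show c (usign e he (Pi.mulSingle i (-1))) = _
  rw [usign_single, map_sub, map_one, map_mul, map_ofNat]

theorem local_fine (hS : HasSums ι) (hc : ∀ z a, c z * a = a * c z) (hcn : ∀ z, ‖c z‖ = ‖z‖)
    (hι : ∀ a, ‖ι a‖ = ‖a‖) {X : Submodule ℂ (H →L[ℂ] H)}
    (hX : IsBimod ι X) (hXc : ∀ x ∈ X, IsCompactOperator x) (χ : Z →ₐ[ℂ] ℂ) (Q : R → Prop)
    (hQs : ∀ (t : ℂ) b, Q b → Q (t • b))
    (hP1 : ∀ b, Q b → ∀ ε : ℝ, 0 < ε → ∃ r, Pr (ι.comp c) r ∧ χ r = 1 ∧ ‖b * c r‖ ≤ ε)
    (σ : R → R) (hσl : ∀ (t : ℂ) x y, σ (t • x + y) = t • σ x + σ y)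
    (hσm : ∀ a b, σ (a * b) = σ a * σ b) (hσn : ∀ a, ‖σ a‖ ≤ ‖a‖)
    (z : Z) (hz : Pr (ι.comp c) z) (hχz : χ z = 1)
    (hσQ : ∀ r, Pr (ι.comp c) r → χ r = 1 → z * r = r → ∀ a, Q (c r * (a - σ a)))
    {n : ℕ} {C : ℝ} (hC : 0 ≤ C) {φ : List R → (H →L[ℂ] H)} (h : Coch X (n + 1) C φ)
    (hcy : ∀ l, D ι φ l = 0) (hv : ∀ a, Van (σ a) φ) (δ : ℝ) (hδ : 0 < δ) :
    ∃ r, Pr (ι.comp c) r ∧ χ r = 1 ∧ z * r = r ∧
      Fine ι X n ((1 + 2 ^ n) * (KN n * C)) δ φ (c r) := by
  obtain ⟨r, hr, hχr, hzr, hA⟩ := claimA hS hc hι hXc χ Q hP1 hC h z hz hχz (δ / 2 ^ (n + 1))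
    (by positivity)
  refine ⟨r, hr, hχr, hzr, ?_⟩
  have hrR : Pr ι (c r) := hr.toR
  have hKC : 0 ≤ KN n * C := mul_nonneg (KN_nonneg n) hC
  have hιle : ∀ a, ‖ι a‖ ≤ ‖a‖ := fun a => (hι a).le
  set f : R → R := fun a => c r * a + c (1 - r) * σ a with hf
  have hfl : ∀ (t : ℂ) x y, f (t • x + y) = t • f x + f y := by
    intro t x y
    simp only [hf, hσl, mul_add, mul_smul_comm, smul_add]
    abel
  have hrid : (1 - r) * (1 - r) = 1 - r := hr.one_sub.1
  have hr0 : r * (1 - r) = 0 := by rw [mul_sub, mul_one, hr.1, sub_self]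
  have hfmul : ∀ a b, f (a * b) = f a * f b := by
    intro a b
    simp only [hf, hσm]
    rw [add_mul, mul_add, mul_add, cmul hc, cmul hc, cmul hc, cmul hc, hr.1, hr0,
      mul_comm (1 - r) r, hr0, hrid]
    simp
  have hrf : ∀ a, c r * f a = c r * a := by
    intro a
    simp only [hf]
    rw [mul_add, ← mul_assoc, ← mul_assoc, ← map_mul, ← map_mul, hr.1, hr0]
    simp
  have hfr : ∀ a, f a * c r = c r * a := fun a => by rw [← hc, hrf]
  have hfn : ∀ a, ‖f a‖ ≤ 2 * ‖a‖ := by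
    intro a
    have h1 : ‖c r * a‖ ≤ 1 * ‖a‖ := (norm_mul_le _ _).trans
      (mul_le_mul_of_nonneg_right (hrR.norm_le hι) (norm_nonneg _))
    have h2 : ‖c (1 - r) * σ a‖ ≤ 1 * ‖a‖ := (norm_mul_le _ _).trans
      (mul_le_mul (hr.one_sub.toR.norm_le hι) (hσn a) (norm_nonneg _) zero_le_one)
    calc _ ≤ ‖c r * a‖ + ‖c (1 - r) * σ a‖ := norm_add_le _ _
      _ ≤ _ := by linarith
  -- normalise with respect to the sign group of `r`
  set e : Fin 1 → Z := fun _ => r with he
  have hePr : ∀ i, Pr (ι.comp c) (e i) := fun _ => hr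
  set u := uR c e (fun i => (hePr i).1) with hu
  obtain ⟨ψ, hψ, hψv⟩ := exists_normalised ι u hX hιle (uR_norm hcn hι e hePr) n hC h hcy
  set φB : List R → (H →L[ℂ] H) := fun l => φ l - D ι ψ l with hφB
  have hBc : ∀ l, D ι φB l = 0 := cocycle_sub hcy
  have hBC := h.sub (hψ.D ι hX hιle hKC)
  have hBv : ∀ γ, Van (u γ) φB := fun γ p post => hψv p.length p rfl γ post
  have hB1 : Van 1 φB := by have := hBv 1; rwa [map_one] at this
  have hBr : Van (c r) φB := by
    apply van_of_refl hBC.lin hB1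
    have := hBv (Pi.mulSingle 0 (-1))
    rwa [hu, uR_single] at this
  have hφnil : φB [] = 0 := hBC.supp [] (by simp)
  have hkey : ∀ l, P (ι (c r)) f φB l = P (ι (c r)) (c r * ·) φB l := by
    intro l
    by_cases hl : l = []
    · subst hl; simp [P, hφnil]
    · have h1 := block' ι hBc hrR.1 (hc r) hBr (l.map f) (by simpa using hl)
      have h2 : (l.map f).map (c r * ·) = l.map (c r * ·) := by
        rw [List.map_map]
        congr 1
        funext a
        exact hrf a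
      have h3 : P (ι (c r)) (c r * ·) φB (l.map f) = P (ι (c r)) (c r * ·) φB l := by
        simp only [P, h2]
      rw [← h3, ← h1]
      rfl
  have hDf : ∀ l, D ι (P (ι (c r)) f ψ) l = P (ι (c r)) f (D ι ψ) l := by
    intro l
    refine D_P ι (ι (c r)) f hfmul ?_ ?_ ψ l
    · intro a
      rw [← map_mul, ← map_mul, hfr]
    · intro a
      rw [← map_mul, ← map_mul, hrf, ← hc]
  refine ⟨fun l => P (ι (c r)) (c r * ·) ψ l - P (ι (c r)) f ψ l, ?_, ?_⟩
  · refine ((hψ.Q hX hι hKC hrR).sub (hψ.P hX hKC hrR f hfl 2 (by norm_num) hfn)).mono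
      (le_of_eq ?_)
    ring
  · have hid : (fun l => P (ι (c r)) (c r * ·) φ l -
        D ι (fun l => P (ι (c r)) (c r * ·) ψ l - P (ι (c r)) f ψ l) l) = P (ι (c r)) f φ := by
      funext l
      rw [D_sub, D_Q hrR (hc r), hDf]
      have e1 : P (ι (c r)) (c r * ·) φB l =
          P (ι (c r)) (c r * ·) φ l - P (ι (c r)) (c r * ·) (D ι ψ) l := by
        simp only [P, hφB, mul_sub, sub_mul]
      have e2 : P (ι (c r)) f φB l = P (ι (c r)) f φ l - P (ι (c r)) f (D ι ψ) l := by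
        simp only [P, hφB, mul_sub, sub_mul]
      have e3 := hkey l
      rw [e1, e2] at e3
      rw [sub_eq_sub_iff_add_eq_add] at e3
      have e4 : P (ι (c r)) (c r * ·) φ l -
          (P (ι (c r)) (c r * ·) (D ι ψ) l - P (ι (c r)) f (D ι ψ) l) =
          (P (ι (c r)) (c r * ·) φ l + P (ι (c r)) f (D ι ψ) l) -
            P (ι (c r)) (c r * ·) (D ι ψ) l := by abel
      rw [e4, ← e3]
      abel
    rw [hid]
    have hPC := h.P hX hC hrR f hfl 2 (by norm_num) hfn
    refine ⟨hPC.supp, hPC.lin, hPC.val, ?_⟩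
    intro l
    by_cases hl : l.length = n + 1
    · set g : R → R := fun a => c r * (a - σ a) with hg
      have h1 : φ (l.map f) = φ (l.map g) := by
        apply shift_van f g σ _ l φ h.lin hv
        intro a
        simp only [hf, hg, mul_sub, map_sub, map_one, sub_mul, one_mul]
        abel
      have hgn : ∀ a, ‖g a‖ ≤ 2 * ‖a‖ := by
        intro a
        calc ‖c r * (a - σ a)‖ ≤ ‖c r‖ * ‖a - σ a‖ := norm_mul_le _ _
          _ ≤ 1 * (‖a‖ + ‖a‖) := by
              refine mul_le_mul (hrR.norm_le hι) ?_ (norm_nonneg _) zero_le_one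
              exact (norm_sub_le _ _).trans (by linarith [hσn a])
          _ = _ := by ring
      have h2 := scale_bd h.lin h.bd (fun b => Q b ∧ c r * b = b) (by
        intro t b hb
        exact ⟨hQs t b hb.1, by rw [mul_smul_comm, hb.2]⟩)
        (δ / 2 ^ (n + 1)) hA (l.map g) (by
          intro b hb
          rw [List.mem_map] at hb
          obtain ⟨a, _, rfl⟩ := hb
          refine ⟨hσQ r hr hχr hzr a, ?_⟩
          simp only [hg]
          rw [← mul_assoc, hrR.1])
      have h3 : ‖ι (c r) * φ (l.map f) * ι (c r)‖ ≤ ‖φ (l.map f)‖ := by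
        calc _ ≤ ‖ι (c r) * φ (l.map f)‖ * ‖ι (c r)‖ := norm_mul_le _ _
          _ ≤ (‖ι (c r)‖ * ‖φ (l.map f)‖) * ‖ι (c r)‖ :=
              mul_le_mul_of_nonneg_right (norm_mul_le _ _) (norm_nonneg _)
          _ ≤ (1 * ‖φ (l.map f)‖) * 1 := by
              refine mul_le_mul ?_ hrR.norm_ι_le (norm_nonneg _) (by positivity)
              exact mul_le_mul_of_nonneg_right hrR.norm_ι_le (norm_nonneg _)
          _ = _ := by ring
      refine h3.trans ?_
      rw [h1]
      refine h2.trans ?_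
      have h4 := nm_map_le g 2 (by norm_num) hgn l
      rw [hl] at h4
      calc _ ≤ δ / 2 ^ (n + 1) * (2 ^ (n + 1) * nm l) :=
            mul_le_mul_of_nonneg_left h4 (by positivity)
        _ = _ := by field_simp
    · rw [hPC.supp l hl, norm_zero]
      have := nm_nonneg l
      positivity

theorem step [CompleteSpace Z] (hc : ∀ z a, c z * a = a * c z) (hcn : ∀ z, ‖c z‖ = ‖z‖)
    (hι : ∀ a, ‖ι a‖ = ‖a‖)
    {X : Submodule ℂ (H →L[ℂ] H)} (hX : IsBimod ι X)
    {n : ℕ} {C : ℝ} (hC : 0 ≤ C) {φ : List R → (H →L[ℂ] H)} (h : Coch X (n + 1) C φ)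
    (hcy : ∀ l, D ι φ l = 0) (δ : ℝ) (hδ : 0 < δ) (K : ℝ) (hK : 0 ≤ K)
    (hfine : ∀ χ : Z →ₐ[ℂ] ℂ, ∃ r, Pr (ι.comp c) r ∧ χ r = 1 ∧ Fine ι X n K δ φ (c r)) :
    ∃ ψ : List R → (H →L[ℂ] H), Coch X n (KN n * C + (K + KN n * C)) ψ ∧
      Coch X (n + 1) δ (fun l => φ l - D ι ψ l) := by
  have hιle : ∀ a, ‖ι a‖ ≤ ‖a‖ := fun a => (hι a).le
  have hKN := KN_nonneg n
  have hKC : 0 ≤ KN n * C := mul_nonneg hKN hC
  obtain ⟨N, e, he, horth, hsum⟩ := exists_partition (κ := ι.comp c)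
    (fun r => Fine ι X n K δ φ (c r))
    (fun r r' _ hG hr' hrr => hG.mono hX hι hK hδ.le hr'.toR (hc r') (by rw [← map_mul, hrr]))
    hfine
  have hePr : ∀ i, Pr (ι.comp c) (e i) := fun i => (he i).1
  have heR : ∀ i, Pr ι (c (e i)) := fun i => (hePr i).toR
  have horthR : ∀ i j, i ≠ j → c (e i) * c (e j) = 0 := fun i j hij => by
    rw [← map_mul, horth i j hij, map_zero]
  have hsumR : ∑ i, c (e i) = 1 := by rw [← map_sum, hsum, map_one]
  have hfine' : ∀ i, Fine ι X n K δ φ (c (e i)) := fun i => (he i).2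
  choose θ hθ1 hθ2 using hfine'
  -- normalise with respect to the sign group of the partition
  set u := uR c e (fun i => (hePr i).1) with hu
  obtain ⟨ψ, hψ, hψv⟩ := exists_normalised ι u hX hιle (uR_norm hcn hι e hePr) n hC h hcy
  set φB : List R → (H →L[ℂ] H) := fun l => φ l - D ι ψ l with hφB
  have hBc : ∀ l, D ι φB l = 0 := cocycle_sub hcy
  have hBC := h.sub (hψ.D ι hX hιle hKC)
  have hBv : ∀ γ, Van (u γ) φB := fun γ p post => hψv p.length p rfl γ post
  have hB1 : Van 1 φB := by have := hBv 1; rwa [map_one] at this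
  have hBr : ∀ i, Van (c (e i)) φB := by
    intro i
    apply van_of_refl hBC.lin hB1
    have := hBv (Pi.mulSingle i (-1))
    rwa [hu, uR_single] at this
  have hblock : ∀ l, φB l = ∑ i, P (ι (c (e i))) (c (e i) * ·) φB l := by
    intro l
    cases l with
    | nil =>
      have hφnil : φB [] = 0 := hBC.supp [] (by simp)
      simp [P, hφnil]
    | cons x t =>
      have e1 : φB (x :: t) = ∑ i, φB (c (e i) * x :: t) := by
        rw [← hBC.lin.head_sum Finset.univ (fun i => c (e i) * x) t, ← Finset.sum_mul, hsumR,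
          one_mul]
      rw [e1]
      exact Finset.sum_congr rfl fun i _ => block ι hBc (heR i).1 (hc (e i)) (hBr i) x t
  set err : Fin N → List R → (H →L[ℂ] H) :=
    fun i l => P (ι (c (e i))) (c (e i) * ·) φ l - D ι (θ i) l with herr
  set η : Fin N → List R → (H →L[ℂ] H) := fun i l => θ i l - ψ l with hη
  have hηC : ∀ i, Coch X n (K + KN n * C) (η i) := fun i => (hθ1 i).sub hψ
  have hΘ := block_coch hX hι (fun i => c (e i)) heR horthR hsumR (by positivity) η hηC
  have hErr := block_coch hX hι (fun i => c (e i)) heR horthR hsumR hδ.le err hθ2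
  refine ⟨fun l => ψ l + ∑ i, P (ι (c (e i))) (c (e i) * ·) (η i) l, hψ.add hΘ, ?_⟩
  have hid : (fun l => φ l - D ι (fun l => ψ l + ∑ i, P (ι (c (e i))) (c (e i) * ·) (η i) l) l)
      = fun l => ∑ i, P (ι (c (e i))) (c (e i) * ·) (err i) l := by
    funext l
    have e1 : ∀ i, P (ι (c (e i))) (c (e i) * ·) (err i) l =
        P (ι (c (e i))) (c (e i) * ·) φB l - D ι (P (ι (c (e i))) (c (e i) * ·) (η i)) l := by
      intro i
      have e2 : P (ι (c (e i))) (c (e i) * ·) (err i) l =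
          P (ι (c (e i))) (c (e i) * ·) (P (ι (c (e i))) (c (e i) * ·) φ) l -
            P (ι (c (e i))) (c (e i) * ·) (D ι (θ i)) l := by
        simp only [P, herr, mul_sub, sub_mul]
      rw [e2, Q_Q (heR i).1 (heR i).1, ← D_Q (heR i) (hc (e i))]
      have e3 : P (ι (c (e i))) (c (e i) * ·) φB l = P (ι (c (e i))) (c (e i) * ·) φ l -
          P (ι (c (e i))) (c (e i) * ·) (D ι ψ) l := by
        simp only [P, hφB, mul_sub, sub_mul]
      have e4 : (P (ι (c (e i))) (c (e i) * ·) (η i)) =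
          fun l => P (ι (c (e i))) (c (e i) * ·) (θ i) l -
          P (ι (c (e i))) (c (e i) * ·) ψ l := by
        funext l
        simp only [P, hη, mul_sub, sub_mul]
      rw [e3, e4, D_sub, ← D_Q (heR i) (hc (e i))]
      abel
    simp only [e1]
    rw [Finset.sum_sub_distrib, ← hblock l, D_add, D_sum]
    simp only [hφB]
    abel
  rw [hid]
  exact hErr

end central

end Pool.Agent.HK
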