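import Pool.Agent.HK.Small

set_option autoImplicit false
set_option linter.unusedSectionVars false

namespace Pool.Agent.HK

section general

variable {R B : Type} [NormedRing R] [NormedAlgebra ℂ R] [NormedRing B] [NormedAlgebra ℂ B]
  (ι : R →ₐ[ℂ] B)

/-- telescoping estimate -/
theorem tele (f : R → R) (ε C : ℝ) (hε : 0 ≤ ε) (hC : 0 ≤ C) (l : List R) :
    ∀ (φ : List R → B), Lin φ → (∀ l, ‖φ l‖ ≤ C * nm l) → (∀ b ∈ l, ‖b‖ ≤ 1) →
    (∀ b ∈ l, ‖f b‖ ≤ 1 ∧ ‖f b - b‖ ≤ ε) → ‖φ (l.map f) - φ l‖ ≤ l.length * C * ε := by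
  induction l with
  | nil => intro φ _ _ _ _; simp
  | cons b t ih =>
    intro φ hφ hbd h1 h2
    have hb := h2 b (by simp)
    have e1 : φ ((b :: t).map f) - φ (b :: t) =
        (φ (f b :: t.map f) - φ (f b :: t)) + φ ((f b - b) :: t) := by
      rw [hφ.head_sub, List.map_cons]; abel
    rw [e1]
    have i1 := ih (fun s => φ (f b :: s)) (hφ.cur _) (by
      intro s
      refine (hbd _).trans ?_
      refine mul_le_mul_of_nonneg_left ?_ hC
      rw [nm_cons]
      calc _ ≤ 1 * nm s := mul_le_mul_of_nonneg_right hb.1 (nm_nonneg _)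
        _ = _ := one_mul _) (fun c hc => h1 c (by simp [hc])) (fun c hc => h2 c (by simp [hc]))
    have i2 : ‖φ ((f b - b) :: t)‖ ≤ C * ε := by
      refine (hbd _).trans ?_
      refine mul_le_mul_of_nonneg_left ?_ hC
      rw [nm_cons]
      have h3 := nm_le_one t fun c hc => h1 c (by simp [hc])
      calc _ ≤ ε * 1 := mul_le_mul hb.2 h3 (nm_nonneg _) hε
        _ = _ := mul_one _
    refine (norm_add_le _ _).trans ?_
    refine (add_le_add i1 i2).trans (le_of_eq ?_)
    rw [List.length_cons]; push_cast; ring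

theorem Lin.smul_map (c : R → ℂ) (l : List R) : ∀ (φ : List R → B), Lin φ →
    φ (l.map (fun b => c b • b)) = (l.map c).prod • φ l := by
  induction l with
  | nil => intro φ _; simp
  | cons b t ih =>
    intro φ hφ
    have h1 : φ ((c b • b) :: t.map (fun b => c b • b)) =
        c b • φ (b :: t.map (fun b => c b • b)) := by
      have := hφ [] (t.map (fun b => c b • b)) b 0 (c b)
      simp only [List.nil_append, add_zero] at this
      rw [this, hφ.head_zero, add_zero]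
    simp only [List.map_cons, List.prod_cons]
    rw [h1, ih (fun s => φ (b :: s)) (hφ.cur b), smul_smul]

theorem scale_bd {C : ℝ} {φ : List R → B} (hφ : Lin φ) (hbd : ∀ l, ‖φ l‖ ≤ C * nm l)
    (Q : R → Prop) (hQ : ∀ (c : ℂ) b, Q b → Q (c • b)) (δ : ℝ)
    (h : ∀ l : List R, (∀ b ∈ l, Q b ∧ ‖b‖ ≤ 1) → ‖φ l‖ ≤ δ) (l : List R) (hl : ∀ b ∈ l, Q b) :
    ‖φ l‖ ≤ δ * nm l := by
  rcases eq_or_lt_of_le (nm_nonneg l) with h0 | h0
  · have := hbd l
    rw [← h0, mul_zero] at this ⊢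
    exact this
  · have h1 := h (l.map (fun b => ((‖b‖ : ℂ)⁻¹) • b)) (by
      intro b hb
      rw [List.mem_map] at hb
      obtain ⟨a, ha, rfl⟩ := hb
      refine ⟨hQ _ _ (hl a ha), ?_⟩
      rw [norm_smul, norm_inv, Complex.norm_real, norm_norm]
      exact inv_mul_le_one)
    rw [Lin.smul_map (fun b => ((‖b‖ : ℂ)⁻¹)) l φ hφ, norm_smul] at h1
    have h2 : ‖(l.map (fun b => ((‖b‖ : ℂ)⁻¹))).prod‖ = (nm l)⁻¹ := by
      clear h0 h1 hl
      induction l with
      | nil => simp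
      | cons b t ih =>
        rw [List.map_cons, List.prod_cons, norm_mul, ih, nm_cons, norm_inv, Complex.norm_real,
          norm_norm, mul_inv]
    rw [h2, inv_mul_le_iff₀ h0] at h1
    linarith

/-- vanishing of a cochain at a given element in every position -/
def Van (z : R) (φ : List R → B) : Prop := ∀ p post : List R, φ (p ++ z :: post) = 0

theorem Van.cur {z : R} {φ : List R → B} (h : Van z φ) (a : R) : Van z (fun t => φ (a :: t)) :=
  fun p post => h (a :: p) post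

theorem shift_one (f g : R → R) (c : R → ℂ) (hfg : ∀ a, f a = c a • 1 + g a) (l : List R) :
    ∀ (φ : List R → B), Lin φ → Van 1 φ → φ (l.map f) = φ (l.map g) := by
  induction l with
  | nil => intro φ _ _; simp
  | cons b t ih =>
    intro φ hφ hv
    rw [List.map_cons, List.map_cons, hfg b]
    have h1 := hφ [] (t.map f) 1 (g b) (c b)
    simp only [List.nil_append] at h1
    have h2 := hv [] (t.map f)
    simp only [List.nil_append] at h2
    rw [h1, h2, smul_zero, zero_add]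
    exact ih (fun s => φ (g b :: s)) (hφ.cur _) (hv.cur _)

theorem van_mod0 {φ : List R → B} (hc : ∀ l, D ι φ l = 0) {z : R} (h0 : Van z φ) (x : R)
    (t : List R) : φ (z * x :: t) = ι z * φ (x :: t) := by
  have h := hc (z :: x :: t)
  rw [D_cons, E_cons] at h
  have hz : (fun s => φ (z :: s)) = fun _ => 0 := by
    funext s; exact h0 [] s
  rw [hz, E_zero, sub_zero, sub_eq_zero] at h
  exact h.symm

theorem van_modAt {φ : List R → B} (hc : ∀ l, D ι φ l = 0) {z : R} (h0 : Van z φ)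
    (q : List R) (x y : R) (t : List R) : φ (q ++ x * z :: y :: t) = φ (q ++ x :: z * y :: t) := by
  have h := hc (q ++ x :: z :: y :: t)
  rw [D_append ι φ q x (z :: y :: t) (fun r _ => h0 r (y :: t))] at h
  rw [neg_eq_zero, smul_eq_zero] at h
  rcases h with h | h
  · exact absurd h (pow_ne_zero _ (by norm_num))
  · rw [E_cons, E_cons] at h
    have hz : (fun s => (fun s => curs φ q (x :: s)) (z :: s)) = fun _ => (0 : B) := by
      funext s
      have := h0 (q ++ [x]) s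
      simpa [curs] using this
    have h' : curs φ q (x * z :: y :: t) - (curs φ q (x :: z * y :: t) -
        E ι (fun s => (fun s => curs φ q (x :: s)) (z :: s)) (y :: t)) = 0 := h
    rw [hz, E_zero, sub_zero, sub_eq_zero] at h'
    exact h'

theorem van_modLast {φ : List R → B} (hc : ∀ l, D ι φ l = 0) {z : R} (h0 : Van z φ)
    (q : List R) (x : R) : φ (q ++ [x * z]) = φ (q ++ [x]) * ι z := by
  have h := hc (q ++ x :: [z])
  rw [D_append ι φ q x [z] (fun r _ => h0 r [])] at h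
  rw [neg_eq_zero, smul_eq_zero] at h
  rcases h with h | h
  · exact absurd h (pow_ne_zero _ (by norm_num))
  · rw [E_cons, E_one] at h
    exact sub_eq_zero.mp h

theorem push_right {φ : List R → B} (hc : ∀ l, D ι φ l = 0) {z : R} (hz : z * z = z)
    (hcen : ∀ a, z * a = a * z)
    (h0 : Van z φ) (t : List R) : ∀ (q : List R) (x : R),
    φ (q ++ (x * z) :: t) = φ (q ++ (x * z) :: t.map (z * ·)) * ι z := by
  induction t with
  | nil =>
    intro q x
    rw [List.map_nil, ← van_modLast ι hc h0 q (x * z), mul_assoc, hz]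
  | cons y t ih =>
    intro q x
    have e1 : φ (q ++ (x * z) :: y :: t) = φ (q ++ (x * z) :: (z * y) :: t) := by
      rw [← van_modAt ι hc h0 q (x * z) y t, mul_assoc, hz]
    have e2 := ih (q ++ [x * z]) y
    simp only [List.append_assoc, List.cons_append, List.nil_append] at e2
    rw [e1, hcen y, e2, List.map_cons, hcen y]

/-- block formula -/
theorem block {φ : List R → B} (hc : ∀ l, D ι φ l = 0) {z : R} (hz : z * z = z)
    (hcen : ∀ a, z * a = a * z) (h0 : Van z φ) (x : R) (t : List R) :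
    φ (z * x :: t) = P (ι z) (z * ·) φ (x :: t) := by
  have e1 : φ (z * x :: t) = ι z * φ (z * x :: t) := by
    rw [← van_mod0 ι hc h0 (z * x) t, ← mul_assoc, hz]
  have e2 := push_right ι hc hz hcen h0 t [] x
  simp only [List.nil_append] at e2
  rw [← hcen x] at e2
  rw [e1, e2]
  simp only [P, List.map_cons, mul_assoc]

theorem block' {φ : List R → B} (hc : ∀ l, D ι φ l = 0) {z : R} (hz : z * z = z)
    (hcen : ∀ a, z * a = a * z) (h0 : Van z φ) (l : List R) (hl : l ≠ []) :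
    ι z * φ l * ι z = P (ι z) (z * ·) φ l := by
  cases l with
  | nil => exact absurd rfl hl
  | cons x t =>
    rw [← van_mod0 ι hc h0 x t, block ι hc hz hcen h0 x t]
    simp only [P]
    rw [mul_assoc, ← map_mul, hz]

theorem Van.comb {φ : List R → B} (hφ : Lin φ) {x y : R} (hx : Van x φ) (hy : Van y φ) (c : ℂ) :
    Van (c • x + y) φ := by
  intro p post
  rw [hφ, hx, hy, smul_zero, add_zero]

theorem Van.zero {φ : List R → B} (hφ : Lin φ) : Van 0 φ := by
  intro p post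
  have := hφ p post 0 0 1
  simpa using this

theorem Van.smul {φ : List R → B} (hφ : Lin φ) {x : R} (hx : Van x φ) (c : ℂ) :
    Van (c • x) φ := by
  have := hx.comb hφ (Van.zero hφ) c
  rwa [add_zero] at this

theorem Van.add {φ : List R → B} (hφ : Lin φ) {x y : R} (hx : Van x φ) (hy : Van y φ) :
    Van (x + y) φ := by
  have := hx.comb hφ hy 1
  rwa [one_smul] at this

theorem Van.neg {φ : List R → B} (hφ : Lin φ) {x : R} (hx : Van x φ) : Van (-x) φ := by
  have := hx.smul hφ (-1)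
  rwa [neg_one_smul] at this

theorem Van.sub {φ : List R → B} (hφ : Lin φ) {x y : R} (hx : Van x φ) (hy : Van y φ) :
    Van (x - y) φ := by
  rw [sub_eq_add_neg]; exact hx.add hφ (hy.neg hφ)

theorem Van.sum {φ : List R → B} (hφ : Lin φ) {κ : Type} (s : Finset κ) (x : κ → R)
    (hx : ∀ i ∈ s, Van (x i) φ) : Van (∑ i ∈ s, x i) φ := by
  classical
  induction s using Finset.induction_on with
  | empty => simpa using Van.zero hφ
  | insert i s hi ih =>
    rw [Finset.sum_insert hi]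
    exact (hx i (Finset.mem_insert_self _ _)).add hφ
      (ih fun j hj => hx j (Finset.mem_insert_of_mem hj))

theorem van_of_refl {φ : List R → B} (hφ : Lin φ) {z : R} (h1 : Van 1 φ)
    (h2 : Van (1 - 2 * z) φ) : Van z φ := by
  intro p post
  have h3 := hφ p post z (1 - 2 * z) 2
  have e : (2 : ℂ) • z + (1 - 2 * z) = 1 := by
    rw [two_smul, two_mul]; abel
  rw [e, h1, h2, add_zero] at h3
  have := h3.symm
  rw [smul_eq_zero] at this
  rcases this with h | h
  · norm_num at h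
  · exact h

end general

section group

variable {R : Type} [NormedCommRing R]

/-- sign group of a projection -/
def vsign (e : R) (he : e * e = e) : ℤˣ →* R where
  toFun s := (1 - e) + (((s : ℤˣ) : ℤ) : R) * e
  map_one' := by simp
  map_mul' s t := by
    push_cast
    have h : (1 - e + ((s : ℤ) : R) * e) * (1 - e + ((t : ℤ) : R) * e) =
        (1 - 2 * e + e * e) + (((t : ℤ) : R) * (e - e * e) + ((s : ℤ) : R) * (e - e * e))
          + ((s : ℤ) : R) * ((t : ℤ) : R) * (e * e) := by ring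
    rw [h, he, sub_self]
    ring

theorem vsign_apply (e : R) (he : e * e = e) (s : ℤˣ) :
    vsign e he s = (1 - e) + (((s : ℤˣ) : ℤ) : R) * e := rfl

/-- sign group of a family of projections -/
noncomputable def usign {N : ℕ} (e : Fin N → R) (he : ∀ i, e i * e i = e i) :
    (Fin N → ℤˣ) →* R where
  toFun s := ∏ i, vsign (e i) (he i) (s i)
  map_one' := by simp
  map_mul' s t := by
    simp only [Pi.mul_apply, map_mul, Finset.prod_mul_distrib]

theorem usign_single {N : ℕ} (e : Fin N → R) (he : ∀ i, e i * e i = e i) (i : Fin N) :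
    usign e he (Pi.mulSingle i (-1)) = 1 - 2 * e i := by
  show ∏ j, vsign (e j) (he j) ((Pi.mulSingle i (-1) : Fin N → ℤˣ) j) = _
  rw [Finset.prod_eq_single i]
  · rw [Pi.mulSingle_eq_same, vsign_apply]
    push_cast
    ring
  · intro j _ hj
    rw [Pi.mulSingle_eq_of_ne hj, map_one]
  · intro h; exact absurd (Finset.mem_univ i) h

end group

section hilbert

variable {H : Type} [NormedAddCommGroup H] [InnerProductSpace ℂ H] [CompleteSpace H]

theorem norm_one_le : ‖(1 : H →L[ℂ] H)‖ ≤ 1 := by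
  refine ContinuousLinearMap.opNorm_le_bound _ zero_le_one fun x => ?_
  simp

section noncomm

variable {R : Type} [NormedRing R] [NormedAlgebra ℂ R] {ι : R →ₐ[ℂ] (H →L[ℂ] H)}

theorem Pr.norm_ι_le {r : R} (h : Pr ι r) : ‖ι r‖ ≤ 1 := by
  have h1 : ‖ι r‖ * ‖ι r‖ = ‖ι r‖ := by
    rw [← CStarRing.norm_star_mul_self, h.2.star_eq, ← map_mul, h.1]
  by_contra hcon
  push Not at hcon
  nlinarith

theorem Pr.norm_le (hι : ∀ a, ‖ι a‖ = ‖a‖) {r : R} (h : Pr ι r) : ‖r‖ ≤ 1 := by
  rw [← hι]; exact h.norm_ι_le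

theorem Pr.one : Pr ι (1 : R) := ⟨one_mul 1, by rw [map_one]; exact IsSelfAdjoint.one _⟩

theorem Pr.mul_of {r s : R} (h : Pr ι r) (h' : Pr ι s) (hrs : r * s = s * r) : Pr ι (r * s) := by
  refine ⟨?_, ?_⟩
  · calc r * s * (r * s) = r * (s * r) * s := by simp only [mul_assoc]
      _ = r * (r * s) * s := by rw [hrs]
      _ = (r * r) * (s * s) := by simp only [mul_assoc]
      _ = _ := by rw [h.1, h'.1]
  · rw [map_mul, IsSelfAdjoint, star_mul, h.2.star_eq, h'.2.star_eq, ← map_mul, ← map_mul, hrs]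

theorem Pr.one_sub {r : R} (h : Pr ι r) : Pr ι (1 - r) := by
  refine ⟨?_, ?_⟩
  · rw [sub_mul, one_mul, mul_sub, mul_one, h.1, sub_self, sub_zero]
  · rw [map_sub, map_one]
    exact (IsSelfAdjoint.one _).sub h.2

end noncomm

section comm

variable {Z : Type} [NormedCommRing Z] [NormedAlgebra ℂ Z] {κ : Z →ₐ[ℂ] (H →L[ℂ] H)}

theorem Pr.mul {r s : Z} (h : Pr κ r) (h' : Pr κ s) : Pr κ (r * s) :=
  h.mul_of h' (mul_comm r s)

theorem vsign_norm (hκ : ∀ a, ‖κ a‖ = ‖a‖) {e : Z} (h : Pr κ e) (s : ℤˣ) :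
    ‖vsign e h.1 s‖ ≤ 1 := by
  rcases Int.units_eq_one_or s with rfl | rfl
  · rw [map_one, ← hκ, map_one]; exact norm_one_le
  · rw [vsign_apply]
    push_cast
    have e1 : (1 - e + -1 * e) = 1 - 2 * e := by ring
    rw [e1]
    have hsa : IsSelfAdjoint (κ (1 - 2 * e)) := by
      rw [map_sub, map_one, map_mul]
      refine (IsSelfAdjoint.one _).sub ?_
      have : κ 2 * κ e = κ e + κ e := by rw [← map_mul, two_mul, map_add]
      rw [this]
      exact h.2.add h.2
    have h1 : ‖κ (1 - 2 * e)‖ * ‖κ (1 - 2 * e)‖ ≤ 1 := by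
      rw [← CStarRing.norm_star_mul_self, hsa.star_eq, ← map_mul]
      have : (1 - 2 * e) * (1 - 2 * e) = 1 - 4 * e + 4 * (e * e) := by ring
      rw [this, h.1]
      have : 1 - 4 * e + 4 * e = 1 := by ring
      rw [this, map_one]
      exact norm_one_le
    rw [← hκ]
    by_contra hcon
    push Not at hcon
    nlinarith

theorem usign_norm (hκ : ∀ a, ‖κ a‖ = ‖a‖) {N : ℕ} (e : Fin N → Z) (h : ∀ i, Pr κ (e i))
    (s : Fin N → ℤˣ) : ‖usign e (fun i => (h i).1) s‖ ≤ 1 := by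
  show ‖∏ i, vsign (e i) (h i).1 (s i)‖ ≤ 1
  have hall : ∀ S : Finset (Fin N), ‖∏ i ∈ S, vsign (e i) (h i).1 (s i)‖ ≤ 1 := by
    intro S
    induction S using Finset.induction_on with
    | empty => rw [Finset.prod_empty, ← hκ, map_one]; exact norm_one_le
    | insert a S ha ih =>
      rw [Finset.prod_insert ha]
      calc _ ≤ ‖vsign (e a) (h a).1 (s a)‖ * ‖∏ i ∈ S, vsign (e i) (h i).1 (s i)‖ :=
            norm_mul_le _ _
        _ ≤ 1 * 1 := mul_le_mul (vsign_norm hκ (h a) _) ih (norm_nonneg _) zero_le_one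
        _ = 1 := one_mul 1
  exact hall Finset.univ

end comm

section central

variable {Z R : Type} [NormedCommRing Z] [NormedAlgebra ℂ Z] [NormedRing R] [NormedAlgebra ℂ R]
  {c : Z →ₐ[ℂ] R} {ι : R →ₐ[ℂ] (H →L[ℂ] H)}

theorem Pr.toR {r : Z} (h : Pr (ι.comp c) r) : Pr ι (c r) := ⟨by rw [← map_mul, h.1], h.2⟩

/-- simultaneous small cut-off for finitely many elements of the kernel -/
theorem cutoff (hc : ∀ z a, c z * a = a * c z) (hι : ∀ a, ‖ι a‖ = ‖a‖) (χ : Z →ₐ[ℂ] ℂ)
    (Q : R → Prop)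
    (hP1 : ∀ b, Q b → ∀ ε : ℝ, 0 < ε → ∃ r, Pr (ι.comp c) r ∧ χ r = 1 ∧ ‖b * c r‖ ≤ ε)
    (ε : ℝ) (hε : 0 < ε) (L : List R) (hL : ∀ b ∈ L, Q b) :
    ∃ s, Pr (ι.comp c) s ∧ χ s = 1 ∧ ∀ b ∈ L, ‖b * c s‖ ≤ ε := by
  induction L with
  | nil => exact ⟨1, Pr.one, map_one χ, by simp⟩
  | cons a L ih =>
    obtain ⟨s, hs1, hs2, hs3⟩ := ih fun b hb => hL b (by simp [hb])
    obtain ⟨r, hr1, hr2, hr3⟩ := hP1 a (hL a (by simp)) ε hε
    refine ⟨r * s, hr1.mul hs1, by rw [map_mul, hr2, hs2, one_mul], ?_⟩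
    intro b hb
    rw [List.mem_cons] at hb
    rcases hb with rfl | hb
    · calc _ = ‖b * c r * c s‖ := by rw [map_mul, mul_assoc]
        _ ≤ ‖b * c r‖ * ‖c s‖ := norm_mul_le _ _
        _ ≤ ε * 1 := mul_le_mul hr3 (hs1.toR.norm_le hι) (norm_nonneg _) hε.le
        _ = ε := mul_one _
    · calc _ = ‖b * c s * c r‖ := by rw [map_mul, hc r (c s), mul_assoc]
        _ ≤ ‖b * c s‖ * ‖c r‖ := norm_mul_le _ _
        _ ≤ ε * 1 := mul_le_mul (hs3 b hb) (hr1.toR.norm_le hι) (norm_nonneg _) hε.le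
        _ = ε := mul_one _

theorem claimA (hS : HasSums ι) (hc : ∀ z a, c z * a = a * c z) (hι : ∀ a, ‖ι a‖ = ‖a‖)
    {X : Submodule ℂ (H →L[ℂ] H)}
    (hX : ∀ x ∈ X, IsCompactOperator x) (χ : Z →ₐ[ℂ] ℂ) (Q : R → Prop)
    (hP1 : ∀ b, Q b → ∀ ε : ℝ, 0 < ε → ∃ r, Pr (ι.comp c) r ∧ χ r = 1 ∧ ‖b * c r‖ ≤ ε)
    {n : ℕ} {C : ℝ} (hC : 0 ≤ C) {φ : List R → (H →L[ℂ] H)} (h : Coch X (n + 1) C φ)
    (z : Z) (hz : Pr (ι.comp c) z) (hχz : χ z = 1)
    (δ : ℝ) (hδ : 0 < δ) :
    ∃ r, Pr (ι.comp c) r ∧ χ r = 1 ∧ z * r = r ∧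
      ∀ l : List R, (∀ b ∈ l, (Q b ∧ c r * b = b) ∧ ‖b‖ ≤ 1) → ‖φ l‖ ≤ δ := by
  by_contra hcon
  push Not at hcon
  set ε : ℝ := δ / (2 * ((n + 1) * C + 1)) with hε
  have hε0 : 0 < ε := by positivity
  let T := {r : Z // Pr (ι.comp c) r ∧ χ r = 1 ∧ z * r = r}
  have hL : ∀ r : T, ∃ l : List R, (∀ b ∈ l, (Q b ∧ c (r : Z) * b = b) ∧ ‖b‖ ≤ 1) ∧
      δ < ‖φ l‖ := fun r => hcon r r.2.1 r.2.2.1 r.2.2.2
  choose L hL1 hL2 using hL
  have hs : ∀ r : T, ∃ s, Pr (ι.comp c) s ∧ χ s = 1 ∧ ∀ b ∈ L r, ‖b * c s‖ ≤ ε := fun r =>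
    cutoff hc hι χ Q hP1 ε hε0 (L r) fun b hb => (hL1 r b hb).1.1
  choose s hs1 hs2 hs3 using hs
  let next : T → T := fun r => ⟨r * s r, r.2.1.mul (hs1 r),
    by rw [map_mul, r.2.2.1, hs2, one_mul], by rw [← mul_assoc, r.2.2.2]⟩
  let r : ℕ → T := fun k => next^[k] ⟨z, hz, hχz, hz.1⟩
  have hr : ∀ k, (r (k + 1) : Z) = r k * s (r k) := by
    intro k
    show ((next^[k + 1] _ : T) : Z) = _
    rw [Function.iterate_succ_apply']
  have hrle : ∀ i k, (r i : Z) * r (i + k) = r (i + k) := by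
    intro i k
    induction k with
    | zero => exact (r i).2.1.1
    | succ k ih => rw [← add_assoc, hr, ← mul_assoc, ih]
  let p : ℕ → Z := fun k => r k * (1 - r (k + 1))
  let f : ℕ → R → R := fun k b => b * c (1 - r (k + 1))
  have hlen : ∀ k, (L (r k)).length = n + 1 := by
    intro k
    by_contra hne
    have := hL2 (r k)
    rw [h.supp _ hne, norm_zero] at this
    linarith
  have hpPr : ∀ k, Pr (ι.comp c) (p k) := fun k => (r k).2.1.mul (r (k + 1)).2.1.one_sub
  refine small_orth ι hS hX n C φ hC h (fun k => c (p k)) (fun k => (hpPr k).toR) ?_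
    (fun k => (L (r k)).map (f k)) (fun k => by rw [List.length_map, hlen]) ?_ (δ / 2)
    (by linarith) ?_
  · have key : ∀ i k, p i * p (i + 1 + k) = 0 := by
      intro i k
      have h1 := hrle (i + 1) k
      have : p i * p (i + 1 + k) = r i * (r (i + 1 + k) - r (i + 1) * r (i + 1 + k)) *
          (1 - r (i + 1 + k + 1)) := by
        simp only [p]; ring
      rw [this, h1, sub_self, mul_zero, zero_mul]
    intro i j hij
    rw [← map_mul]
    rcases lt_or_gt_of_ne hij with hlt | hlt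
    · obtain ⟨k, rfl⟩ := Nat.exists_eq_add_of_le (Nat.succ_le_of_lt hlt)
      rw [key i k, map_zero]
    · obtain ⟨k, rfl⟩ := Nat.exists_eq_add_of_le (Nat.succ_le_of_lt hlt)
      rw [mul_comm, key j k, map_zero]
  · intro k a ha
    rw [List.mem_map] at ha
    obtain ⟨b, hb, rfl⟩ := ha
    obtain ⟨⟨h1, h2⟩, h3⟩ := hL1 (r k) b hb
    have hid := (r (k + 1)).2.1.one_sub.1
    have h4 : c (p k) * f k b = f k b := by
      have e1 : c (p k) * f k b = (c (r k) * b) * c ((1 - r (k + 1)) * (1 - r (k + 1))) := by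
        simp only [p, f]
        rw [map_mul c (r k : Z), mul_assoc, ← mul_assoc (c (1 - (r (k + 1) : Z))) b,
          hc (1 - (r (k + 1) : Z)) b, map_mul c (1 - (r (k + 1) : Z))]
        simp only [mul_assoc]
      rw [e1, h2, hid]
    refine ⟨h4, by rw [← hc, h4], ?_⟩
    calc _ ≤ ‖b‖ * ‖c (1 - (r (k + 1) : Z))‖ := norm_mul_le _ _
      _ ≤ 1 * 1 := mul_le_mul h3 ((r (k + 1)).2.1.one_sub.toR.norm_le hι) (norm_nonneg _)
          zero_le_one
      _ = 1 := one_mul 1
  · intro k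
    have hb3 : ∀ b ∈ L (r k), ‖f k b‖ ≤ 1 ∧ ‖f k b - b‖ ≤ ε := by
      intro b hb
      obtain ⟨⟨h1, h2⟩, h3⟩ := hL1 (r k) b hb
      refine ⟨?_, ?_⟩
      · calc _ ≤ ‖b‖ * ‖c (1 - (r (k + 1) : Z))‖ := norm_mul_le _ _
          _ ≤ 1 * 1 := mul_le_mul h3 ((r (k + 1)).2.1.one_sub.toR.norm_le hι) (norm_nonneg _)
              zero_le_one
          _ = 1 := one_mul 1
      · have : f k b - b = - (b * c (s (r k))) := by
          simp only [f]
          rw [hr, map_sub, map_one, map_mul, mul_sub, mul_one, ← mul_assoc b, ← hc (r k : Z) b, h2]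
          abel
        rw [this, norm_neg]
        exact hs3 (r k) b hb
    have h4 := tele (f k) ε C hε0.le hC (L (r k)) φ h.lin h.bd
      (fun b hb => (hL1 (r k) b hb).2) hb3
    rw [hlen] at h4
    have h5 : ((n + 1 : ℕ) : ℝ) * C * ε ≤ δ / 2 := by
      rw [hε, mul_div_assoc', div_le_div_iff₀ (by positivity) (by norm_num)]
      push_cast
      nlinarith
    have h6 := hL2 (r k)
    have h7 : ‖φ (L (r k))‖ ≤ ‖φ ((L (r k)).map (f k))‖ +
        ‖φ ((L (r k)).map (f k)) - φ (L (r k))‖ := by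
      have := norm_sub_le (φ ((L (r k)).map (f k))) (φ ((L (r k)).map (f k)) - φ (L (r k)))
      rw [sub_sub_cancel] at this
      exact this
    linarith

end central

end hilbert

end Pool.Agent.HK
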