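import Pool.Agent.HK.VN1

set_option autoImplicit false

namespace Pool.Agent.HK

variable {H : Type} [NormedAddCommGroup H] [InnerProductSpace ℂ H] [CompleteSpace H]

theorem inner_star {e f : H →L[ℂ] H} (he : IsSelfAdjoint e) (hef : e * f = 0) (a b : H) :
    inner ℂ (e a) (f b) = (0 : ℂ) := by
  have h2 := ContinuousLinearMap.adjoint_inner_left e (f b) a
  have h3 : ContinuousLinearMap.adjoint e = e := he.star_eq
  rw [h3] at h2
  have h4 : e (f b) = (e * f) b := rfl
  rw [h2, h4, hef]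
  simp

theorem pyth_finset (F : Finset ℕ) (y : ℕ → H)
    (hy : ∀ i j, i ≠ j → inner ℂ (y i) (y j) = (0 : ℂ)) :
    ‖∑ i ∈ F, y i‖ ^ 2 = ∑ i ∈ F, ‖y i‖ ^ 2 := by
  induction F using Finset.induction_on with
  | empty => simp
  | insert a S ha ih =>
    rw [Finset.sum_insert ha, Finset.sum_insert ha, ← ih]
    have h0 : inner ℂ (y a) (∑ i ∈ S, y i) = (0 : ℂ) := by
      rw [inner_sum]
      apply Finset.sum_eq_zero
      intro i hi
      exact hy a i fun h => ha (h ▸ hi)
    have := norm_add_sq_eq_norm_sq_add_norm_sq_of_inner_eq_zero (𝕜 := ℂ) _ _ h0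
    simp only [sq]
    exact this

theorem sum_proj_le (p : ℕ → H →L[ℂ] H) (hp : ∀ j, IsStarProjection (p j))
    (horth : ∀ i j, i ≠ j → p i * p j = 0) (F : Finset ℕ) (x : H) :
    ∑ j ∈ F, ‖p j x‖ ^ 2 ≤ ‖x‖ ^ 2 := by
  have h1 := pyth_finset F (fun j => p j x)
    fun i j hij => inner_star (hp i).isSelfAdjoint (horth i j hij) x x
  have h2 : ∑ j ∈ F, ‖p j x‖ ^ 2 = (inner ℂ (∑ j ∈ F, p j x) x : ℂ).re := by
    rw [sum_inner, Complex.re_sum]
    apply Finset.sum_congr rfl
    intro j _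
    have h3 : inner ℂ (p j x) x = (inner ℂ (p j x) (p j x) : ℂ) := by
      have h4 := ContinuousLinearMap.adjoint_inner_left (p j) (p j x) x
      have h5 : ContinuousLinearMap.adjoint (p j) = p j := (hp j).isSelfAdjoint.star_eq
      rw [h5] at h4
      rw [h4]
      have h6 : p j (p j x) = (p j * p j) x := rfl
      rw [h6, (hp j).isIdempotentElem.eq]
      have h7 := ContinuousLinearMap.adjoint_inner_left (p j) x x
      rw [h5] at h7
      exact h7
    rw [h3, inner_self_eq_norm_sq_to_K]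
    have : ((‖p j x‖ : ℂ)) ^ 2 = ((‖p j x‖ ^ 2 : ℝ) : ℂ) := by push_cast; rfl
    exact (congrArg Complex.re this).symm ▸ (Complex.ofReal_re _).symm
  have h3 : (inner ℂ (∑ j ∈ F, p j x) x : ℂ).re ≤ ‖∑ j ∈ F, p j x‖ * ‖x‖ :=
    (Complex.re_le_norm _).trans (norm_inner_le_norm _ _)
  set s := ‖∑ j ∈ F, p j x‖ with hs
  have hs0 : 0 ≤ s := norm_nonneg _
  rw [← h2, ← h1] at h3
  have h4 : s ≤ ‖x‖ := by
    by_contra hcon
    push Not at hcon
    have := norm_nonneg x
    nlinarith
  rw [← h1]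
  exact pow_le_pow_left₀ hs0 h4 2

theorem exists_sum (p a : ℕ → H →L[ℂ] H) (hp : ∀ j, IsStarProjection (p j))
    (horth : ∀ i j, i ≠ j → p i * p j = 0) (hpa : ∀ j, p j * a j = a j)
    (hap : ∀ j, a j * p j = a j) (ha : ∀ j, ‖a j‖ ≤ 1) :
    ∃ T : H →L[ℂ] H, ‖T‖ ≤ 1 ∧ ∀ x, HasSum (fun j => a j x) (T x) := by
  have hle : ∀ j x, ‖a j x‖ ≤ ‖p j x‖ := by
    intro j x
    have : a j x = a j (p j x) := by
      conv_lhs => rw [← hap j]
      rfl
    rw [this]
    calc _ ≤ ‖a j‖ * ‖p j x‖ := (a j).le_opNorm _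
      _ ≤ 1 * ‖p j x‖ := by gcongr; exact ha j
      _ = _ := one_mul _
  have hpy : ∀ (F : Finset ℕ) x, ‖∑ j ∈ F, a j x‖ ^ 2 = ∑ j ∈ F, ‖a j x‖ ^ 2 := by
    intro F x
    refine pyth_finset F (fun j => a j x) fun i j hij => ?_
    have e1 : a i x = p i (a i x) := by
      conv_lhs => rw [← hpa i]
      rfl
    have e2 : a j x = p j (a j x) := by
      conv_lhs => rw [← hpa j]
      rfl
    show inner ℂ (a i x) (a j x) = (0 : ℂ)
    rw [e1, e2]
    exact inner_star (hp i).isSelfAdjoint (horth i j hij) _ _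
  have hF : ∀ (F : Finset ℕ) x, ‖∑ j ∈ F, a j x‖ ^ 2 ≤ ∑ j ∈ F, ‖p j x‖ ^ 2 := by
    intro F x
    rw [hpy]
    exact Finset.sum_le_sum fun j _ => pow_le_pow_left₀ (norm_nonneg _) (hle j x) 2
  have hsp : ∀ x, Summable (fun j => ‖p j x‖ ^ 2) := fun x =>
    summable_of_sum_le (fun j => by positivity) (fun F => sum_proj_le p hp horth F x)
  have hsum : ∀ x, Summable (fun j => a j x) := by
    intro x
    rw [summable_iff_vanishing_norm]
    intro ε hε
    obtain ⟨s, hs⟩ := (summable_iff_vanishing_norm.mp (hsp x)) (ε ^ 2) (by positivity)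
    refine ⟨s, fun t ht => ?_⟩
    have h1 := hs t ht
    have h2 := hF t x
    have h3 : ∑ j ∈ t, ‖p j x‖ ^ 2 < ε ^ 2 := (le_abs_self _).trans_lt h1
    have h4 : ‖∑ j ∈ t, a j x‖ ^ 2 < ε ^ 2 := lt_of_le_of_lt h2 h3
    exact (pow_lt_pow_iff_left₀ (norm_nonneg _) hε.le two_ne_zero).mp h4
  have hbd : ∀ x, ‖∑' j, a j x‖ ≤ 1 * ‖x‖ := by
    intro x
    rw [one_mul]
    refine le_of_tendsto (hsum x).hasSum.norm (Filter.Eventually.of_forall fun F => ?_)
    have h1 := (hF F x).trans (sum_proj_le p hp horth F x)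
    exact (pow_le_pow_iff_left₀ (norm_nonneg _) (norm_nonneg _) two_ne_zero).mp h1
  let T : H →ₗ[ℂ] H :=
    { toFun := fun x => ∑' j, a j x
      map_add' := by
        intro x y
        simp only [map_add]
        exact (hsum x).tsum_add (hsum y)
      map_smul' := by
        intro c x
        simp only [map_smul, RingHom.id_apply]
        exact (hsum x).tsum_const_smul c }
  refine ⟨T.mkContinuous 1 hbd, ?_, fun x => (hsum x).hasSum⟩
  exact T.mkContinuous_norm_le zero_le_one hbd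

theorem vn_sum (M : VonNeumannAlgebra H)
    (p a : ℕ → H →L[ℂ] H) (haM : ∀ j, a j ∈ M)
    (hp : ∀ j, IsStarProjection (p j))
    (horth : ∀ i j, i ≠ j → p i * p j = 0) (hpa : ∀ j, p j * a j = a j)
    (hap : ∀ j, a j * p j = a j) (ha : ∀ j, ‖a j‖ ≤ 1) :
    ∃ A : Set ℕ → (H →L[ℂ] H), (∀ S, A S ∈ M) ∧
      (∀ S T, Disjoint S T → A (S ∪ T) = A S + A T) ∧ (∀ j, A {j} = a j) ∧ ∀ S, ‖A S‖ ≤ 1 := by
  classical
  have hex : ∀ S : Set ℕ, ∃ T : H →L[ℂ] H, ‖T‖ ≤ 1 ∧
      ∀ x, HasSum (fun j => (S.indicator a j) x) (T x) := by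
    intro S
    refine exists_sum p (S.indicator a) hp horth ?_ ?_ ?_
    · intro j
      by_cases hj : j ∈ S
      · rw [Set.indicator_of_mem hj]; exact hpa j
      · rw [Set.indicator_of_notMem hj]; simp
    · intro j
      by_cases hj : j ∈ S
      · rw [Set.indicator_of_mem hj]; exact hap j
      · rw [Set.indicator_of_notMem hj]; simp
    · intro j
      by_cases hj : j ∈ S
      · rw [Set.indicator_of_mem hj]; exact ha j
      · rw [Set.indicator_of_notMem hj]; simp
  choose A hA1 hA2 using hex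
  refine ⟨A, ?_, ?_, ?_, hA1⟩
  · intro S
    rw [vn_mem_iff]
    intro y hy
    ext x
    show y (A S x) = A S (y x)
    have h1 := (hA2 S x).mapL y
    have h2 := hA2 S (y x)
    have h3 : (fun j => y ((S.indicator a j) x)) = fun j => (S.indicator a j) (y x) := by
      funext j
      by_cases hj : j ∈ S
      · rw [Set.indicator_of_mem hj]
        exact congrArg (fun T : H →L[ℂ] H => T x) (vn_commute (haM j) hy)
      · rw [Set.indicator_of_notMem hj]; simp
    rw [h3] at h1
    exact h1.unique h2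
  · intro S T hST
    ext x
    have h1 := (hA2 S x).add (hA2 T x)
    have h2 := hA2 (S ∪ T) x
    have h3 : (fun j => (S.indicator a j) x + (T.indicator a j) x) =
        fun j => ((S ∪ T).indicator a j) x := by
      funext j
      rw [Set.indicator_union_of_disjoint hST]
      rfl
    rw [h3] at h1
    exact h2.unique h1
  · intro j
    ext x
    have h2 := hA2 {j} x
    have h3 : HasSum (fun i => (({j} : Set ℕ).indicator a i) x) (a j x) := by
      have h4 := hasSum_single (f := fun i => (({j} : Set ℕ).indicator a i) x) j (by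
        intro i hi
        show (({j} : Set ℕ).indicator a i) x = 0
        rw [Set.indicator_of_notMem (by simpa using hi)]
        rfl)
      have h5 : (({j} : Set ℕ).indicator a j) x = a j x := by
        rw [Set.indicator_of_mem (by simp)]
      rw [h5] at h4
      exact h4
    exact h2.unique h3

end Pool.Agent.HK
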