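import Pool.Agent.HK.Inf4
import Pool.Agent.HK.VN2

set_option autoImplicit false
set_option linter.unusedSectionVars false

namespace Pool.Agent.HK

open Filter Topology

variable {H : Type} [NormedAddCommGroup H] [InnerProductSpace ℂ H] [CompleteSpace H]
variable {Z R : Type} [NormedCommRing Z] [NormedAlgebra ℂ Z] [NormedRing R] [NormedAlgebra ℂ R]
  {c : Z →ₐ[ℂ] R} {ι : R →ₐ[ℂ] (H →L[ℂ] H)}

theorem van_comm {φ : List R → (H →L[ℂ] H)} (hcy : ∀ l, D ι φ l = 0) (hφ : Lin φ)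
    (h1 : Van 1 φ) {w : R} (hw : Pr ι w) (hcw : ∀ a, w * a = a * w) (hv : Van w φ)
    (l : List R) (hl : l ≠ []) :
    ι w * φ l = P (ι w) (w * ·) φ l ∧ φ l * ι w = ι w * φ l := by
  have key : ∀ {w : R}, Pr ι w → (∀ a, w * a = a * w) → Van w φ →
      ι w * φ l = P (ι w) (w * ·) φ l ∧ ι w * φ l * ι w = ι w * φ l := by
    intro w hw hcw hv
    have e1 := block' ι hcy hw.1 hcw hv l hl
    have e2 : ι w * φ l = P (ι w) (w * ·) φ l := by
      cases l with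
      | nil => exact absurd rfl hl
      | cons x t => rw [← van_mod0 ι hcy hv x t, block ι hcy hw.1 hcw hv x t]
    exact ⟨e2, by rw [e1, e2]⟩
  obtain ⟨e1, e2⟩ := key hw hcw hv
  have hv' : Van (1 - w) φ := h1.sub hφ hv
  obtain ⟨_, e3⟩ := key hw.one_sub (fun a => by rw [sub_mul, mul_sub, hcw, one_mul, mul_one]) hv'
  refine ⟨e1, ?_⟩
  have e4 : ι (1 - w) * φ l * ι w = 0 := by
    rw [← e3, mul_assoc, ← map_mul, sub_mul, one_mul, hw.1, sub_self, map_zero, mul_zero]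
  rw [map_sub, map_one, sub_mul, one_mul, sub_mul, e2, sub_eq_zero] at e4
  exact e4

section tail

variable {z : ℕ → Z} (hz : OrthSeq (ι.comp c) z)

include hz

theorem tail_fine (hS : HasSums ι) (hc : ∀ z a, c z * a = a * c z) (hι : ∀ a, ‖ι a‖ = ‖a‖)
    {X : Submodule ℂ (H →L[ℂ] H)} (hX : IsBimod ι X) (hXc : ∀ x ∈ X, IsCompactOperator x)
    (hsum : ∀ x : H, HasSum (fun j => ι (c (z j)) x) x)
    {n : ℕ} {C : ℝ} (hC : 0 ≤ C)
    {φ : List R → (H →L[ℂ] H)} (h : Coch X (n + 1) C φ) (hcy : ∀ l, D ι φ l = 0)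
    (h1 : Van 1 φ) (hv : ∀ j, Van (c (z j)) φ) (δ : ℝ) (hδ : 0 < δ) :
    ∃ N, Fine ι X n 0 δ φ (c (rZ z N)) := by
  set G : Set ℕ := {j | ∃ l : List R, (∀ a ∈ l, True ∧ ‖a‖ ≤ 1) ∧
    δ < ‖φ (l.map (c (z j) * ·))‖} with hG
  have hGfin : G.Finite := by
    by_contra hinf
    have hinf' : G.Infinite := hinf
    have : Infinite G := hinf'.to_subtype
    let e : ℕ ↪ G := Infinite.natEmbedding G
    have hex : ∀ k, ∃ l : List R, (∀ a ∈ l, True ∧ ‖a‖ ≤ 1) ∧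
      δ < ‖φ (l.map (c (z (e k)) * ·))‖ := fun k => (e k).2
    choose l hl1 hl2 using hex
    have hlen : ∀ k, (l k).length = n + 1 := by
      intro k
      by_contra hne
      have h3 := hl2 k
      rw [h.supp _ (by simpa using hne), norm_zero] at h3
      linarith
    refine small_orth ι hS hXc n C φ hC h (fun k => c (z (e k))) (fun k => (hz.pr _).toR) ?_
      (fun k => (l k).map (c (z (e k)) * ·)) (fun k => by simpa using hlen k) ?_ δ hδ
      (fun k => (hl2 k).le)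
    · intro i j hij
      rw [← map_mul, hz.orth _ _ fun h' => hij (e.injective (Subtype.ext h')), map_zero]
    · intro k a ha
      rw [List.mem_map] at ha
      obtain ⟨b, hb, rfl⟩ := ha
      have hid : c (z (e k)) * c (z (e k)) = c (z (e k)) := (hz.pr (e k)).toR.1
      have e1 : c (z (e k)) * (c (z (e k)) * b) = c (z (e k)) * b := by rw [← mul_assoc, hid]
      refine ⟨e1, by rw [← hc, e1], ?_⟩
      calc _ ≤ ‖c (z (e k))‖ * ‖b‖ := norm_mul_le _ _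
        _ ≤ 1 * 1 := mul_le_mul ((hz.pr _).toR.norm_le hι) (hl1 k b hb).2 (norm_nonneg _)
            zero_le_one
        _ = 1 := one_mul 1
  obtain ⟨N, hN⟩ := hGfin.bddAbove
  refine ⟨N + 1, fun _ => 0, ?_, ?_⟩
  · exact Coch.zero (R := R) X n
  · have hrPr : Pr ι (c (rZ z (N + 1))) := (hz.rZ_pr _).toR
    have hQ := h.Q hX hι hC hrPr
    have hid : (fun l => P (ι (c (rZ z (N + 1)))) (c (rZ z (N + 1)) * ·) φ l -
        D ι (fun _ => 0) l) = P (ι (c (rZ z (N + 1)))) (c (rZ z (N + 1)) * ·) φ := by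
      funext l; rw [D_zero, sub_zero]
    rw [hid]
    refine ⟨hQ.supp, hQ.lin, hQ.val, ?_⟩
    intro l
    by_cases hl : l = []
    · subst hl
      rw [hQ.supp [] (by simp), norm_zero]
      simpa using hδ.le
    have hvr : Van (c (rZ z (N + 1))) φ := by
      unfold rZ sZ
      rw [map_sub, map_one, map_sum]
      exact h1.sub h.lin (Van.sum h.lin _ _ fun i _ => hv i)
    have hT := (van_comm hcy h.lin h1 hrPr (hc _) hvr l hl).1
    rw [← hT]
    -- the bound on the blocks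
    have hsc : ∀ j, N + 1 ≤ j → ‖φ (l.map (c (z j) * ·))‖ ≤ δ * nm l := by
      intro j hj
      have hjG : j ∉ G := fun h' => by have := hN h'; omega
      have hφ'' : Lin (fun l : List R => φ (l.map (c (z j) * ·))) := by
        intro p post x y t
        simp only [List.map_append, List.map_cons, mul_add, mul_smul_comm]
        exact h.lin _ _ _ _ _
      refine scale_bd (C := C) hφ'' (fun l => ?_) (fun _ => True) (fun _ _ _ => trivial) δ ?_ l
        (fun _ _ => trivial)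
      · refine (h.bd _).trans (mul_le_mul_of_nonneg_left ?_ hC)
        have := nm_map_le (c (z j) * ·) 1 zero_le_one (fun a => by
          calc _ ≤ ‖c (z j)‖ * ‖a‖ := norm_mul_le _ _
            _ ≤ _ := mul_le_mul_of_nonneg_right ((hz.pr _).toR.norm_le hι) (norm_nonneg _)) l
        simpa using this
      · intro l hl
        by_contra hcon
        push Not at hcon
        exact hjG ⟨l, hl, hcon⟩
    refine ContinuousLinearMap.opNorm_le_bound _ (mul_nonneg hδ.le (nm_nonneg _)) fun x => ?_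
    set y := (ι (c (rZ z (N + 1))) * φ l) x with hy
    have hzy : ∀ j, ‖ι (c (z j)) y‖ ≤ δ * nm l * ‖ι (c (z j)) x‖ := by
      intro j
      have e1 : ι (c (z j)) y = (ι (c (z j * rZ z (N + 1))) * φ l) x := by
        rw [hy, map_mul c, map_mul ι]; rfl
      rcases Nat.lt_or_ge j (N + 1) with hj | hj
      · have e2 : z j * rZ z (N + 1) = 0 := by
          unfold rZ
          rw [mul_sub, mul_one, hz.mul_sZ, if_pos (Finset.mem_range.mpr hj), sub_self]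
        rw [e1, e2, map_zero, map_zero, zero_mul]
        simp only [zero_apply, norm_zero]
        exact mul_nonneg (mul_nonneg hδ.le (nm_nonneg _)) (norm_nonneg _)
      · have e2 : z j * rZ z (N + 1) = z j := by
          unfold rZ
          rw [mul_sub, mul_one, hz.mul_sZ, if_neg (by rw [Finset.mem_range]; omega), sub_zero]
        have e3 := (van_comm hcy h.lin h1 (hz.pr j).toR (hc _) (hv j) l hl).1
        rw [e1, e2, e3]
        have e4 : (P (ι (c (z j))) (c (z j) * ·) φ l) x =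
            ι (c (z j)) (φ (l.map (c (z j) * ·)) (ι (c (z j)) x)) := rfl
        rw [e4]
        calc _ ≤ ‖ι (c (z j))‖ * ‖φ (l.map (c (z j) * ·)) (ι (c (z j)) x)‖ :=
              ContinuousLinearMap.le_opNorm _ _
          _ ≤ 1 * (‖φ (l.map (c (z j) * ·))‖ * ‖ι (c (z j)) x‖) :=
              mul_le_mul (hz.pr j).toR.norm_ι_le (ContinuousLinearMap.le_opNorm _ _)
                (norm_nonneg _) zero_le_one
          _ ≤ 1 * (δ * nm l * ‖ι (c (z j)) x‖) := by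
              gcongr
              exact hsc j hj
          _ = _ := one_mul _
    have hpy : ∀ (F : Finset ℕ) (x : H), ‖∑ j ∈ F, ι (c (z j)) x‖ ^ 2 =
        ∑ j ∈ F, ‖ι (c (z j)) x‖ ^ 2 := by
      intro F x
      refine pyth_finset F (fun j => ι (c (z j)) x) fun i j hij => ?_
      refine inner_star (hz.pr i).2 ?_ x x
      show ι (c (z i)) * ι (c (z j)) = 0
      rw [← map_mul, ← map_mul, hz.orth i j hij, map_zero, map_zero]
    have hbes : ∀ F : Finset ℕ, ‖∑ j ∈ F, ι (c (z j)) x‖ ≤ ‖x‖ := by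
      intro F
      have e1 : ∑ j ∈ F, ι (c (z j)) x = ι (c (sZ z F)) x := by
        unfold sZ
        rw [map_sum, map_sum]
        simp
      rw [e1]
      calc _ ≤ ‖ι (c (sZ z F))‖ * ‖x‖ := ContinuousLinearMap.le_opNorm _ _
        _ ≤ 1 * ‖x‖ := mul_le_mul_of_nonneg_right (hz.sZ_pr F).toR.norm_ι_le (norm_nonneg _)
        _ = _ := one_mul _
    have hK : 0 ≤ δ * nm l := mul_nonneg hδ.le (nm_nonneg _)
    refine le_of_tendsto (hsum y).norm (Eventually.of_forall fun F => ?_)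
    have h5 : ‖∑ j ∈ F, ι (c (z j)) y‖ ^ 2 ≤ (δ * nm l * ‖x‖) ^ 2 := by
      rw [hpy]
      calc ∑ j ∈ F, ‖ι (c (z j)) y‖ ^ 2 ≤ ∑ j ∈ F, (δ * nm l) ^ 2 * ‖ι (c (z j)) x‖ ^ 2 := by
            refine Finset.sum_le_sum fun j _ => ?_
            rw [← mul_pow]
            exact pow_le_pow_left₀ (norm_nonneg _) (hzy j) 2
        _ = (δ * nm l) ^ 2 * ‖∑ j ∈ F, ι (c (z j)) x‖ ^ 2 := by rw [← Finset.mul_sum, hpy]
        _ ≤ (δ * nm l) ^ 2 * ‖x‖ ^ 2 := by
            gcongr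
            exact hbes F
        _ = _ := by ring
    exact (pow_le_pow_iff_left₀ (norm_nonneg _) (by positivity) two_ne_zero).mp h5

end tail

/-- abstract data of a properly infinite piece -/
structure PInf (c : Z →ₐ[ℂ] R) (ι : R →ₐ[ℂ] (H →L[ℂ] H)) (z : Z) where
  v : ℕ → R
  w : ℕ → R
  wv : ∀ i, w i * v i = c z
  vz : ∀ i, v i * c z = v i
  zw : ∀ i, c z * w i = w i
  nv : ∀ i, ‖v i‖ ≤ 1
  nw : ∀ i, ‖w i‖ ≤ 1
  pr : ∀ i, Pr ι (v i * w i)
  orth : ∀ i j, i ≠ j → w i * v j = 0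

/-- final constant -/
noncomputable def KT (n : ℕ) : ℝ :=
  KN n + (KN n * C1 n + ((((n : ℝ) + 1) + KH n) * C1 n + KN n * C1 n))

theorem char_proj {κ : Z →ₐ[ℂ] (H →L[ℂ] H)} {r : Z} (hr : Pr κ r) (χ : Z →ₐ[ℂ] ℂ)
    (h : χ r ≠ 0) : χ r = 1 := by
  have h1 := congrArg χ hr.1
  rw [map_mul] at h1
  exact mul_right_cancel₀ h (by rw [h1, one_mul])

theorem main_step [CompleteSpace Z] (hS : HasSums ι) (hc : ∀ z a, c z * a = a * c z)
    (hcn : ∀ z, ‖c z‖ = ‖z‖) (hι : ∀ a, ‖ι a‖ = ‖a‖)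
    (hP1 : ∀ χ : Z →ₐ[ℂ] ℂ, ∀ b, χ b = 0 → ∀ ε : ℝ, 0 < ε →
      ∃ r, Pr (ι.comp c) r ∧ χ r = 1 ∧ ‖b * r‖ ≤ ε)
    {X : Submodule ℂ (H →L[ℂ] H)} (hX : IsBimod ι X) (hXcl : IsClosed (X : Set (H →L[ℂ] H)))
    (hXc : ∀ x ∈ X, IsCompactOperator x)
    {z : ℕ → Z} (hz : OrthSeq (ι.comp c) z) (hsum : ∀ x : H, HasSum (fun j => ι (c (z j)) x) x)
    (hpiece : ∀ j, Nonempty (PInf c ι (z j)) ∨ Nonempty (Homog c (H →L[ℂ] H) (z j)))
    {n : ℕ} {C : ℝ} (hC : 0 ≤ C) {φ : List R → (H →L[ℂ] H)} (h : Coch X (n + 1) C φ)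
    (hcy : ∀ l, D ι φ l = 0) (δ : ℝ) (hδ : 0 < δ) :
    ∃ ψ : List R → (H →L[ℂ] H), Coch X n (KT n * C) ψ ∧
      Coch X (n + 1) δ (fun l => φ l - D ι ψ l) := by
  have hιle : ∀ a, ‖ι a‖ ≤ ‖a‖ := fun a => (hι a).le
  have hKC : 0 ≤ KN n * C := mul_nonneg (KN_nonneg n) hC
  have hC1 : 0 ≤ C1 n * C := mul_nonneg (C1_nonneg n) hC
  have hKH := KH_nonneg n
  obtain ⟨ψ₀, hψ₀, hv1, hvz⟩ := inf_normalised hz hS hcn hι hX hXcl hXc n hC h hcy
  set φ₁ : List R → (H →L[ℂ] H) := fun l => φ l - D ι ψ₀ l with hφ₁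
  have hc1 : ∀ l, D ι φ₁ l = 0 := cocycle_sub hcy
  have h1 : Coch X (n + 1) (C1 n * C) φ₁ :=
    (h.sub (hψ₀.D ι hX hιle hKC)).mono (le_of_eq (by unfold C1; ring))
  have hn1 : (0 : ℝ) ≤ (n : ℝ) + 1 := by positivity
  obtain ⟨ψ', hψ', herr⟩ := step hc hcn hι hX hC1 h1 hc1 δ hδ
    ((((n : ℝ) + 1) + KH n) * (C1 n * C)) (by positivity) (by
      intro χ
      by_cases hex : ∃ j, χ (z j) ≠ 0
      · obtain ⟨j, hj⟩ := hex
        have hj1 : χ (z j) = 1 := char_proj (hz.pr j) χ hj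
        rcases hpiece j with ⟨⟨S⟩⟩ | ⟨⟨S⟩⟩
        · refine ⟨z j, hz.pr j, hj1, ?_⟩
          refine (prism_fine hS hι hX hXc hC1 h1 hc1 (c (z j)) (hz.pr j).toR (hc _) S.v S.w S.wv
            S.vz S.zw S.nv S.nw S.pr S.orth δ hδ).weak ?_
          have : 0 ≤ KH n * (C1 n * C) := mul_nonneg hKH hC1
          linarith [add_mul ((n : ℝ) + 1) (KH n) (C1 n * C)]
        · obtain ⟨r, hr, hχr, hf⟩ := homog_fine hS hc hcn hι hP1 hX hXc (hz.pr j) S χ hj1 hC1 h1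
            hc1 δ hδ
          refine ⟨r, hr, hχr, hf.weak ?_⟩
          have : 0 ≤ ((n : ℝ) + 1) * (C1 n * C) := mul_nonneg hn1 hC1
          linarith [add_mul ((n : ℝ) + 1) (KH n) (C1 n * C)]
      · push Not at hex
        obtain ⟨N, hN⟩ := tail_fine hz hS hc hι hX hXc hsum hC1 h1 hc1 hv1 hvz δ hδ
        refine ⟨rZ z N, hz.rZ_pr N, ?_, hN.weak (by positivity)⟩
        unfold rZ sZ
        rw [map_sub, map_one, map_sum]
        simp [hex])
  refine ⟨fun l => ψ₀ l + ψ' l, (hψ₀.add hψ').mono (le_of_eq (by unfold KT; ring)), ?_⟩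
  have hid : (fun l => φ l - D ι (fun l => ψ₀ l + ψ' l) l) = fun l => φ₁ l - D ι ψ' l := by
    funext l
    rw [D_add]
    simp only [hφ₁]
    abel
  rw [hid]
  exact herr

theorem main_vanish [CompleteSpace Z] (hS : HasSums ι) (hc : ∀ z a, c z * a = a * c z)
    (hcn : ∀ z, ‖c z‖ = ‖z‖) (hι : ∀ a, ‖ι a‖ = ‖a‖)
    (hP1 : ∀ χ : Z →ₐ[ℂ] ℂ, ∀ b, χ b = 0 → ∀ ε : ℝ, 0 < ε →
      ∃ r, Pr (ι.comp c) r ∧ χ r = 1 ∧ ‖b * r‖ ≤ ε)
    {X : Submodule ℂ (H →L[ℂ] H)} (hX : IsBimod ι X) (hXcl : IsClosed (X : Set (H →L[ℂ] H)))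
    (hXc : ∀ x ∈ X, IsCompactOperator x)
    {z : ℕ → Z} (hz : OrthSeq (ι.comp c) z) (hsum : ∀ x : H, HasSum (fun j => ι (c (z j)) x) x)
    (hpiece : ∀ j, Nonempty (PInf c ι (z j)) ∨ Nonempty (Homog c (H →L[ℂ] H) (z j)))
    {n : ℕ} {C : ℝ} (hC : 0 ≤ C) {φ : List R → (H →L[ℂ] H)} (h : Coch X (n + 1) C φ)
    (hcy : ∀ l, D ι φ l = 0) :
    ∃ ψ : List R → (H →L[ℂ] H), Coch X n (KT n * C * 2) ψ ∧ ∀ l, D ι ψ l = φ l :=
  vanish hXcl (KT n) (fun _ _ hC h hcy δ hδ =>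
    main_step hS hc hcn hι hP1 hX hXcl hXc hz hsum hpiece hC h hcy δ hδ) hC h hcy

end Pool.Agent.HK
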