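import Pool.Agent.HK.Alg

set_option autoImplicit false
set_option linter.unusedSectionVars false

namespace Pool.Agent.HK

section algebraic

variable {R B : Type} [Ring R] [Ring B] [Algebra ℂ R] [Algebra ℂ B] (ι : R →ₐ[ℂ] B)
variable {Γ : Type} [Group Γ] [Fintype Γ] (u : Γ →* R)

/-- Average over the finite group. -/
noncomputable def avg (f : Γ → B) : B := (Fintype.card Γ : ℂ)⁻¹ • ∑ γ, f γ

theorem avg_const (b : B) : avg (fun _ : Γ => b) = b := by
  unfold avg
  rw [Finset.sum_const, Finset.card_univ, ← Nat.cast_smul_eq_nsmul ℂ, smul_smul, inv_mul_cancel₀,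
    one_smul]
  exact_mod_cast Fintype.card_ne_zero

theorem avg_shift (f : Γ → B) (γ₀ : Γ) : avg (fun γ => f (γ * γ₀)) = avg f := by
  unfold avg
  congr 1
  exact Fintype.sum_equiv (Equiv.mulRight γ₀) _ _ (fun _ => rfl)

theorem avg_add (f g : Γ → B) : avg (fun γ => f γ + g γ) = avg f + avg g := by
  simp only [avg, Finset.sum_add_distrib, smul_add]

theorem avg_sub (f g : Γ → B) : avg (fun γ => f γ - g γ) = avg f - avg g := by
  simp only [avg, Finset.sum_sub_distrib, smul_sub]

theorem avg_smul (c : ℂ) (f : Γ → B) : avg (fun γ => c • f γ) = c • avg f := by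
  simp only [avg, ← Finset.smul_sum, smul_comm c]

theorem avg_mul_left (b : B) (f : Γ → B) : avg (fun γ => b * f γ) = b * avg f := by
  simp only [avg, ← Finset.mul_sum, mul_smul_comm]

theorem avg_zero : avg (fun _ : Γ => (0 : B)) = 0 := by simp [avg]

theorem E_avg (φ : Γ → List R → B) (l : List R) :
    E ι (fun t => avg (fun γ => φ γ t)) l = avg (fun γ => E ι (φ γ) l) := by
  unfold avg
  rw [E_smul, E_sum]

/-- Homotopy in position `0`. -/
noncomputable def S0 (φ : List R → B) : List R → B :=
  fun l => avg (fun γ => ι (u γ⁻¹) * φ (u γ :: l))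

/-- Unsigned homotopy acting on the head. -/
noncomputable def Sh (ψ : List R → B) : List R → B
  | [] => 0
  | a :: t => avg (fun γ => ψ (a * u γ⁻¹ :: u γ :: t))

/-- Homotopy in position `k+1`. -/
noncomputable def SS (k : ℕ) (φ : List R → B) : List R → B :=
  fun l => (-1 : ℂ) ^ (k + 1) • Sh u (curs φ (l.take k)) (l.drop k)

theorem SS_append (φ : List R → B) (p : List R) (l : List R) :
    SS u p.length φ (p ++ l) = (-1 : ℂ) ^ (p.length + 1) • Sh u (curs φ p) l := by
  simp [SS]

theorem SS_short (φ : List R → B) (k : ℕ) (l : List R) (h : l.length ≤ k) :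
    SS u k φ l = 0 := by
  simp [SS, List.drop_eq_nil_of_le h, Sh]

/-- `φ` vanishes when the argument in position `j` is in the group. -/
def VanAt (j : ℕ) (φ : List R → B) : Prop :=
  ∀ q : List R, q.length = j → ∀ (γ : Γ) (post : List R), φ (q ++ u γ :: post) = 0

/-- modularity in position `j ≥ 1`. -/
def ModAt (j : ℕ) (φ : List R → B) : Prop :=
  ∀ q : List R, q.length + 1 = j → ∀ (x : R) (γ : Γ) (y : R) (t : List R),
    φ (q ++ x * u γ :: y :: t) = φ (q ++ x :: u γ * y :: t)

/-- modularity in position `0`. -/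
def Mod0 (φ : List R → B) : Prop :=
  ∀ (γ : Γ) (x : R) (t : List R), φ (u γ * x :: t) = ι (u γ) * φ (x :: t)

theorem u_inv_mul (γ γ₀ : Γ) : u (γ * γ₀)⁻¹ = u γ₀⁻¹ * u γ⁻¹ := by
  rw [mul_inv_rev, map_mul]

theorem u_mul_inv_cancel (γ : Γ) : u γ * u γ⁻¹ = 1 := by
  rw [← map_mul, mul_inv_cancel, map_one]

theorem u_inv_mul_cancel (γ : Γ) : u γ⁻¹ * u γ = 1 := by
  rw [← map_mul, inv_mul_cancel, map_one]

theorem vanAt_zero_step (φ : List R → B) (hc : ∀ l, D ι φ l = 0) :
    VanAt u 0 (fun l => φ l - D ι (S0 ι u φ) l) := by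
  intro q hq γ₀ l
  rw [List.length_eq_zero_iff] at hq
  subst hq
  simp only [List.nil_append]
  have hE : E ι (S0 ι u φ) (u γ₀ :: l) =
      ι (u γ₀) * S0 ι u φ l - φ (u γ₀ :: l) := by
    have h1 : E ι (S0 ι u φ) (u γ₀ :: l) =
        avg (fun γ => ι (u γ⁻¹) * E ι (fun t => φ (u γ :: t)) (u γ₀ :: l)) := by
      unfold S0
      rw [E_avg]
      congr 1
      funext γ
      rw [E_mul_left]
    have h2 : ∀ γ : Γ, ι (u γ⁻¹) * E ι (fun t => φ (u γ :: t)) (u γ₀ :: l) =
        ι (u γ₀) * (ι (u (γ * γ₀)⁻¹) * φ (u (γ * γ₀) :: l)) - φ (u γ₀ :: l) := by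
      intro γ
      have h3 := hc (u γ :: u γ₀ :: l)
      rw [D_cons, E_cons] at h3
      have h4 : E ι (fun t => φ (u γ :: t)) (u γ₀ :: l) =
          φ (u γ * u γ₀ :: l) - ι (u γ) * φ (u γ₀ :: l) := by
        rw [eq_sub_iff_add_eq, ← sub_eq_zero, ← h3]; abel
      have e1 : ι (u γ⁻¹) * ι (u γ) = 1 := by rw [← map_mul, u_inv_mul_cancel, map_one]
      have e2 : ι (u γ₀) * ι (u (γ * γ₀)⁻¹) = ι (u γ⁻¹) := by
        rw [← map_mul, u_inv_mul, ← mul_assoc, u_mul_inv_cancel, one_mul]
      rw [h4, mul_sub, ← mul_assoc (ι (u γ⁻¹)) (ι (u γ)), e1, one_mul,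
        ← mul_assoc (ι (u γ₀)), e2, map_mul u]
    rw [h1]
    simp only [h2]
    rw [avg_sub, avg_const, avg_mul_left, avg_shift (fun γ => ι (u γ⁻¹) * φ (u γ :: l))]
    rfl
  rw [D_cons, hE]
  abel

theorem E_Sh (ψ : List R → B) (hH : ∀ a γ t, E ι ψ (a :: u γ :: t) = 0) (a : R) (γ₀ : Γ)
    (l : List R) : E ι (Sh u ψ) (a :: u γ₀ :: l) = ψ (a :: u γ₀ :: l) := by
  rw [E_cons]
  have h1 : E ι (fun t => Sh u ψ (a :: t)) (u γ₀ :: l) =
      avg (fun γ => E ι (fun t => ψ (a * u γ⁻¹ :: u γ :: t)) (u γ₀ :: l)) := by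
    simp only [Sh]
    rw [E_avg]
  have h2 : ∀ γ : Γ, E ι (fun t => ψ (a * u γ⁻¹ :: u γ :: t)) (u γ₀ :: l) =
      ψ (a * u γ₀ * u (γ * γ₀)⁻¹ :: u (γ * γ₀) :: l) - ψ (a :: u γ₀ :: l) := by
    intro γ
    have h3 := hH (a * u γ⁻¹) γ (u γ₀ :: l)
    rw [E_cons, E_cons] at h3
    have e1 : a * u γ⁻¹ * u γ = a := by rw [mul_assoc, u_inv_mul_cancel, mul_one]
    have e2 : a * u γ₀ * u (γ * γ₀)⁻¹ = a * u γ⁻¹ := by
      rw [u_inv_mul, ← mul_assoc, mul_assoc a, u_mul_inv_cancel, mul_one]
    rw [e1] at h3
    rw [e2, map_mul u, eq_sub_iff_add_eq, ← sub_eq_zero, ← h3]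
    abel
  rw [h1]
  simp only [h2]
  rw [avg_sub, avg_const, avg_shift (fun γ => ψ (a * u γ₀ * u γ⁻¹ :: u γ :: l))]
  simp only [Sh]
  abel

/-- modularity of a cocycle from vanishing. -/
theorem mod0_of (φ : List R → B) (hc : ∀ l, D ι φ l = 0) (h0 : VanAt u 0 φ) : Mod0 ι u φ := by
  intro γ x t
  have h := hc (u γ :: x :: t)
  rw [D_cons, E_cons] at h
  have hz : (fun s => φ (u γ :: s)) = fun _ => 0 := by
    funext s; exact h0 [] rfl γ s
  rw [hz, E_zero, sub_zero, sub_eq_zero] at h
  exact h.symm

theorem modAt_of (φ : List R → B) (hc : ∀ l, D ι φ l = 0) (j : ℕ) (hj : VanAt u j φ)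
    (hj1 : VanAt u (j + 1) φ) : ModAt u (j + 1) φ := by
  intro q hq x γ y t
  have hq' : q.length = j := by omega
  have h := hc (q ++ x :: u γ :: y :: t)
  rw [D_append ι φ q x (u γ :: y :: t)
    (fun r hr => hj r (hr.trans hq') γ (y :: t))] at h
  rw [neg_eq_zero, smul_eq_zero] at h
  rcases h with h | h
  · exact absurd h (pow_ne_zero _ (by norm_num))
  · rw [E_cons, E_cons] at h
    have hz : (fun s => (fun s => curs φ q (x :: s)) (u γ :: s)) = fun _ => (0 : B) := by
      funext s
      have := hj1 (q ++ [x]) (by simp [hq']) γ s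
      simpa [curs] using this
    have h' : curs φ q (x * u γ :: y :: t) - (curs φ q (x :: u γ * y :: t) -
        E ι (fun s => (fun s => curs φ q (x :: s)) (u γ :: s)) (y :: t)) = 0 := h
    rw [hz, E_zero, sub_zero, sub_eq_zero] at h'
    exact h'

/-- modularity at the end -/
theorem modLast_of (φ : List R → B) (hc : ∀ l, D ι φ l = 0) (j : ℕ) (hj : VanAt u j φ)
    (q : List R) (hq : q.length = j) (x : R) (γ : Γ) :
    φ (q ++ [x * u γ]) = φ (q ++ [x]) * ι (u γ) := by
  have h := hc (q ++ x :: [u γ])
  rw [D_append ι φ q x [u γ] (fun r hr => hj r (hr.trans hq) γ [])] at h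
  rw [neg_eq_zero, smul_eq_zero] at h
  rcases h with h | h
  · exact absurd h (pow_ne_zero _ (by norm_num))
  · rw [E_cons, E_one] at h
    exact sub_eq_zero.mp h

theorem SS_vanAt (φ : List R → B) (k : ℕ) (hv : ∀ j, j ≤ k → VanAt u j φ) (j : ℕ) (hj : j ≤ k) :
    VanAt u j (SS u k φ) := by
  intro q hq γ post
  rcases Nat.lt_or_ge k (q ++ u γ :: post).length with hlen | hlen
  · rcases Nat.lt_or_ge j k with hjk | hjk
    · -- `u γ` is in the prefix
      obtain ⟨p', s, hps, hp'⟩ : ∃ p' s, post = p' ++ s ∧ q.length + 1 + p'.length = k := by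
        refine ⟨post.take (k - j - 1), post.drop (k - j - 1), (List.take_append_drop _ _).symm, ?_⟩
        simp only [List.length_append, List.length_cons] at hlen
        rw [List.length_take, min_eq_left (by omega)]
        omega
      subst hps
      have e1 : q ++ u γ :: (p' ++ s) = (q ++ u γ :: p') ++ s := by simp
      have e2 : k = (q ++ u γ :: p').length := by simp; omega
      rw [e1, e2, SS_append]
      have hz : Sh u (curs φ (q ++ u γ :: p')) s = 0 := by
        cases s with
        | nil => rfl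
        | cons a t =>
          simp only [Sh]
          have : ∀ δ : Γ, curs φ (q ++ u γ :: p') (a * u δ⁻¹ :: u δ :: t) = 0 := by
            intro δ
            have := hv j hj q hq γ (p' ++ (a * u δ⁻¹ :: u δ :: t))
            simpa [curs] using this
          simp only [this, avg_zero]
      rw [hz, smul_zero]
    · have e2 : k = q.length := by omega
      rw [e2, SS_append]
      simp only [Sh]
      have : ∀ δ : Γ, curs φ q (u γ * u δ⁻¹ :: u δ :: post) = 0 := by
        intro δ
        rw [curs_apply, ← map_mul]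
        exact hv j hj q hq (γ * δ⁻¹) _
      simp only [this, avg_zero, smul_zero]
  · exact SS_short u φ k _ hlen

theorem SS_mod0 (φ : List R → B) (k : ℕ) (hm : Mod0 ι u φ) : Mod0 ι u (SS u k φ) := by
  intro γ x t
  cases k with
  | zero =>
    have h1 := SS_append u φ [] (u γ * x :: t)
    have h2 := SS_append u φ [] (x :: t)
    simp only [List.length_nil, List.nil_append, curs_nil] at h1 h2
    rw [h1, h2]
    simp only [Sh]
    rw [mul_smul_comm, ← avg_mul_left]
    congr 2
    funext δ
    rw [mul_assoc, hm]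
  | succ k =>
    simp only [SS, List.take_succ_cons, List.drop_succ_cons]
    rw [mul_smul_comm]
    congr 1
    cases t.drop k with
    | nil => simp [Sh]
    | cons a s =>
      simp only [Sh]
      rw [← avg_mul_left]
      congr 1
      funext δ
      simp only [curs_apply, List.cons_append]
      exact hm _ _ _

theorem SS_modAt (φ : List R → B) (k : ℕ) (j : ℕ) (hj : j ≤ k) (hm : ModAt u j φ) :
    ModAt u j (SS u k φ) := by
  intro q hq x γ y t
  rcases Nat.lt_or_ge k (q ++ x :: y :: t).length with hlen | hlen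
  · rcases Nat.lt_or_ge j k with hjk | hjk
    · obtain ⟨p', s, hps, hp'⟩ : ∃ p' s, t = p' ++ s ∧ q.length + 2 + p'.length = k := by
        refine ⟨t.take (k - j - 1), t.drop (k - j - 1), (List.take_append_drop _ _).symm, ?_⟩
        simp only [List.length_append, List.length_cons] at hlen
        rw [List.length_take, min_eq_left (by omega)]
        omega
      subst hps
      have e1 : ∀ a b : R, q ++ a :: b :: (p' ++ s) = (q ++ a :: b :: p') ++ s := by simp
      have e2 : ∀ a b : R, SS u k φ ((q ++ a :: b :: p') ++ s) =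
          (-1 : ℂ) ^ (k + 1) • Sh u (curs φ (q ++ a :: b :: p')) s := by
        intro a b
        have : k = (q ++ a :: b :: p').length := by simp; omega
        rw [this, SS_append]
      rw [e1, e1, e2, e2]
      congr 1
      cases s with
      | nil => rfl
      | cons a r =>
        simp only [Sh]
        congr 1
        funext δ
        have := hm q hq x γ y (p' ++ (a * u δ⁻¹ :: u δ :: r))
        simpa [curs] using this
    · have hjk' : j = k := by omega
      subst hjk'
      have e1 : ∀ a b : R, q ++ a :: b :: t = (q ++ [a]) ++ b :: t := by simp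
      have e2 : ∀ a b : R, SS u j φ ((q ++ [a]) ++ b :: t) =
          (-1 : ℂ) ^ (j + 1) • Sh u (curs φ (q ++ [a])) (b :: t) := by
        intro a b
        have : j = (q ++ [a]).length := by simp; omega
        rw [this, SS_append]
      rw [e1, e1, e2, e2]
      congr 1
      simp only [Sh]
      congr 1
      funext δ
      have := hm q hq x γ (y * u δ⁻¹) (u δ :: t)
      simpa [curs, mul_assoc] using this
  · rw [SS_short u φ k _ (by simpa using hlen), SS_short u φ k _ (by simpa using hlen)]

theorem vanAt_step (φ : List R → B) (hc : ∀ l, D ι φ l = 0) (k : ℕ)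
    (hv : ∀ j, j ≤ k → VanAt u j φ) (j : ℕ) (hj : j ≤ k + 1) :
    VanAt u j (fun l => φ l - D ι (SS u k φ) l) := by
  have hV := SS_vanAt u φ k hv
  rcases Nat.lt_or_ge k j with hkj | hkj
  · -- j = k + 1
    have : j = k + 1 := by omega
    subst this
    intro q hq γ post
    obtain ⟨p, a, rfl⟩ : ∃ p a, q = p ++ [a] := by
      rcases List.eq_nil_or_concat q with h | ⟨p, a, h⟩
      · subst h; simp at hq
      · exact ⟨p, a, by simpa using h⟩
    have hp : p.length = k := by simpa using hq
    have e1 : (p ++ [a]) ++ u γ :: post = p ++ a :: u γ :: post := by simp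
    simp only [e1]
    have h1 : D ι (SS u k φ) (p ++ a :: u γ :: post) = φ (p ++ a :: u γ :: post) := by
      rw [D_append ι (SS u k φ) p a (u γ :: post)
        (fun r hr => hV k le_rfl r (hr.trans hp) γ post)]
      have h2 : E ι (curs (SS u k φ) p) (a :: u γ :: post) =
          (-1 : ℂ) ^ (k + 1) • φ (p ++ a :: u γ :: post) := by
        have h3 : E ι (curs (SS u k φ) p) (a :: u γ :: post) =
            E ι (fun t => (-1 : ℂ) ^ (k + 1) • Sh u (curs φ p) t) (a :: u γ :: post) := by
          apply E_congr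
          intro t _
          rw [curs_apply]
          have := SS_append u φ p t
          rw [hp] at this
          exact this
        rw [h3, E_smul, E_Sh]
        · rfl
        · intro b δ t
          have h4 := hc (p ++ b :: u δ :: t)
          rw [D_append ι φ p b (u δ :: t) (fun r hr => hv k le_rfl r (hr.trans hp) δ t)] at h4
          rw [neg_eq_zero, smul_eq_zero] at h4
          rcases h4 with h4 | h4
          · exact absurd h4 (pow_ne_zero _ (by norm_num))
          · exact h4
      rw [h2, hp, smul_smul, ← pow_add, ← neg_smul]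
      have : -(-1 : ℂ) ^ (k + (k + 1)) = 1 := by
        rw [show k + (k + 1) = 2 * k + 1 by ring, pow_succ, pow_mul]
        simp
      rw [this, one_smul]
    rw [h1, sub_self]
  · -- j ≤ k
    intro q hq γ post
    have hφ := hv j hkj q hq γ post
    show φ (q ++ u γ :: post) - D ι (SS u k φ) (q ++ u γ :: post) = 0
    rw [hφ, zero_sub, neg_eq_zero]
    cases j with
    | zero =>
      rw [List.length_eq_zero_iff] at hq
      subst hq
      simp only [List.nil_append]
      have hm0 : Mod0 ι u (SS u k φ) := SS_mod0 ι u φ k (mod0_of ι u φ hc (hv 0 (Nat.zero_le _)))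
      cases post with
      | nil =>
        rw [D_cons, E_one, SS_short u φ k [] (by simp)]
        simp
      | cons b t =>
        rw [D_cons, E_cons]
        have hz : (fun s => SS u k φ (u γ :: s)) = fun _ => 0 := by
          funext s; exact hV 0 (Nat.zero_le _) [] rfl γ s
        rw [hz, E_zero, sub_zero, hm0, sub_self]
    | succ j =>
      obtain ⟨p, a, rfl⟩ : ∃ p a, q = p ++ [a] := by
        rcases List.eq_nil_or_concat q with h | ⟨p, a, h⟩
        · subst h; simp at hq
        · exact ⟨p, a, by simpa using h⟩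
      have hp : p.length = j := by simpa using hq
      have e1 : (p ++ [a]) ++ u γ :: post = p ++ a :: u γ :: post := by simp
      rw [e1, D_append ι (SS u k φ) p a (u γ :: post)
        (fun r hr => hV j (by omega) r (hr.trans hp) γ post)]
      have hE : E ι (curs (SS u k φ) p) (a :: u γ :: post) = 0 := by
        rw [E_cons]
        cases post with
        | nil =>
          rw [E_one]
          have h1 : curs (SS u k φ) p [a * u γ] = 0 := by
            rw [curs_apply]; exact SS_short u φ k _ (by simp; omega)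
          have h2 : curs (SS u k φ) p [a] = 0 := by
            rw [curs_apply]; exact SS_short u φ k _ (by simp; omega)
          rw [h1, h2]; simp
        | cons b t =>
          rw [E_cons]
          have hz : (fun s => (fun s => curs (SS u k φ) p (a :: s)) (u γ :: s)) =
              fun _ => (0 : B) := by
            funext s
            have := hV (j + 1) hkj (p ++ [a]) (by simp [hp]) γ s
            simpa [curs] using this
          have hm := SS_modAt u φ k (j + 1) hkj
            (modAt_of ι u φ hc j (hv j (by omega)) (hv (j + 1) hkj)) p (by omega) a γ b t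
          show curs (SS u k φ) p (a * u γ :: b :: t) - (curs (SS u k φ) p (a :: u γ * b :: t) -
            E ι (fun s => (fun s => curs (SS u k φ) p (a :: s)) (u γ :: s)) (b :: t)) = 0
          rw [hz, E_zero, sub_zero, curs_apply, curs_apply, hm, sub_self]
      rw [hE, smul_zero, neg_zero]

end algebraic

end Pool.Agent.HK
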