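import Mathlib

set_option autoImplicit false

/-! Rosenthal's lemma and auxiliary Hilbert space facts. -/

namespace Pool.Agent.HK

open Set

theorem rosenthal_aux (ν : ℕ → Set ℕ → ℝ) (hmono : ∀ j S T, S ⊆ T → ν j S ≤ ν j T)
    (hsup : ∀ j S T, Disjoint S T → ν j S + ν j T ≤ ν j (S ∪ T)) (ε : ℝ) (hε : 0 < ε) (k : ℕ) :
    ∀ N : Set ℕ, N.Infinite → (∀ j ∈ N, ν j N ≤ k * ε) →
      ∃ J : Set ℕ, J ⊆ N ∧ J.Infinite ∧ ∀ j ∈ J, ν j (J \ {j}) < ε := by
  induction k with
  | zero =>
    intro N hN h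
    refine ⟨N, subset_rfl, hN, fun j hj => ?_⟩
    have h1 := h j hj
    have h2 := hmono j (N \ {j}) N sdiff_subset
    simp only [Nat.cast_zero, zero_mul] at h1
    linarith
  | succ k ih =>
    intro N hN h
    let e : ℕ ↪ N := hN.natEmbedding N
    let M : ℕ → Set ℕ := fun p => Set.range (fun m => (e (Nat.pair p m) : ℕ))
    have hinj : ∀ x y, (e x : ℕ) = e y → x = y := fun x y hxy => e.injective (Subtype.ext hxy)
    have hMN : ∀ p, M p ⊆ N := by
      rintro p _ ⟨m, rfl⟩
      exact (e _).2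
    have hMinf : ∀ p, (M p).Infinite := by
      intro p
      apply Set.infinite_range_of_injective
      intro x y hxy
      have := hinj _ _ hxy
      simpa using this
    have hMdis : ∀ p q x, x ∈ M p → x ∈ M q → p = q := by
      rintro p q x ⟨m, rfl⟩ ⟨m', hm'⟩
      have := hinj _ _ hm'
      rw [Nat.pair_eq_pair] at this
      exact this.1.symm
    by_cases hex : ∃ p, ∀ j ∈ M p, ν j (M p \ {j}) < ε
    · obtain ⟨p, hp⟩ := hex
      exact ⟨M p, hMN p, hMinf p, hp⟩
    · push Not at hex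
      choose f hf hfε using hex
      have hfinj : Function.Injective f := by
        intro p q hpq
        exact hMdis p q (f p) (hf p) (hpq ▸ hf q)
      have hN' : (Set.range f).Infinite := Set.infinite_range_of_injective hfinj
      have hsubN : Set.range f ⊆ N := by
        rintro _ ⟨p, rfl⟩
        exact hMN p (hf p)
      obtain ⟨J, hJ, hJinf, hJε⟩ := ih (Set.range f) hN' (by
        rintro _ ⟨p, rfl⟩
        have hdis : Disjoint (Set.range f) (M p \ {f p}) := by
          rw [Set.disjoint_left]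
          rintro _ ⟨q, rfl⟩ ⟨h1, h2⟩
          have := hMdis q p (f q) (hf q) h1
          subst this
          exact h2 rfl
        have h1 := hsup (f p) _ _ hdis
        have h2 := hmono (f p) (Set.range f ∪ (M p \ {f p})) N
          (Set.union_subset hsubN (sdiff_subset.trans (hMN p)))
        have h3 := h (f p) (hMN p (hf p))
        have h4 := hfε p
        push_cast at h3
        linarith)
      exact ⟨J, hJ.trans hsubN, hJinf, hJε⟩

theorem rosenthal (ν : ℕ → Set ℕ → ℝ) (hmono : ∀ j S T, S ⊆ T → ν j S ≤ ν j T)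
    (hsup : ∀ j S T, Disjoint S T → ν j S + ν j T ≤ ν j (S ∪ T)) (C : ℝ)
    (hC : ∀ j S, ν j S ≤ C) (ε : ℝ) (hε : 0 < ε) :
    ∃ J : Set ℕ, J.Infinite ∧ ∀ j ∈ J, ν j (J \ {j}) < ε := by
  obtain ⟨k, hk⟩ := exists_nat_ge (C / ε)
  obtain ⟨J, _, h2, h3⟩ := rosenthal_aux ν hmono hsup ε hε k Set.univ Set.infinite_univ (by
    intro j _
    rw [div_le_iff₀ hε] at hk
    exact (hC _ _).trans hk)
  exact ⟨J, h2, h3⟩

/-- supremum of a set function over subsets -/
noncomputable def upv (m : Set ℕ → ℝ) (S : Set ℕ) : ℝ := sSup (m '' {T | T ⊆ S})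

theorem upv_bdd {m : Set ℕ → ℝ} {C : ℝ} (hC : ∀ T, |m T| ≤ C) (S : Set ℕ) :
    BddAbove (m '' {T | T ⊆ S}) := by
  refine ⟨C, ?_⟩
  rintro _ ⟨T, _, rfl⟩
  exact (le_abs_self _).trans (hC T)

theorem le_upv {m : Set ℕ → ℝ} {C : ℝ} (hC : ∀ T, |m T| ≤ C) {S T : Set ℕ} (h : T ⊆ S) :
    m T ≤ upv m S := le_csSup (upv_bdd hC S) ⟨T, h, rfl⟩

theorem upv_le {m : Set ℕ → ℝ} {C : ℝ} (S : Set ℕ) (h : ∀ T, T ⊆ S → m T ≤ C) :
    upv m S ≤ C := by
  apply csSup_le
  · exact ⟨_, ∅, by simp, rfl⟩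
  · rintro _ ⟨T, hT, rfl⟩
    exact h T hT

theorem upv_sup {m : Set ℕ → ℝ} {C : ℝ} (hC : ∀ T, |m T| ≤ C)
    (hadd : ∀ S T, Disjoint S T → m (S ∪ T) = m S + m T) (S T : Set ℕ) (h : Disjoint S T) :
    upv m S + upv m T ≤ upv m (S ∪ T) := by
  have h1 : upv m S ≤ upv m (S ∪ T) - upv m T := by
    apply upv_le
    intro S' hS'
    have h2 : upv m T ≤ upv m (S ∪ T) - m S' := by
      apply upv_le
      intro T' hT'
      have h3 : m (S' ∪ T') ≤ upv m (S ∪ T) := le_upv hC (Set.union_subset_union hS' hT')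
      rw [hadd S' T' (h.mono hS' hT')] at h3
      linarith
    linarith
  linarith

/-- Rosenthal's lemma for bounded finitely additive real set functions. -/
theorem rosenthal_real (m : ℕ → Set ℕ → ℝ) (C : ℝ) (hC : ∀ j T, |m j T| ≤ C)
    (hadd : ∀ j S T, Disjoint S T → m j (S ∪ T) = m j S + m j T) (ε : ℝ) (hε : 0 < ε) :
    ∃ J : Set ℕ, J.Infinite ∧ ∀ j ∈ J, m j {j} - ε < m j J := by
  have hC' : ∀ j T, |(fun T => - m j T) T| ≤ C := by
    intro j T; rw [abs_neg]; exact hC j T
  have hadd' : ∀ j S T, Disjoint S T →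
      (fun T => - m j T) (S ∪ T) = (fun T => - m j T) S + (fun T => - m j T) T := by
    intro j S T h
    simp only [hadd j S T h]
    ring
  obtain ⟨J, hJ, hJε⟩ := rosenthal (fun j S => upv (fun T => - m j T) S)
    (fun j S T h => upv_le _ fun T' hT' => le_upv (hC' j) (hT'.trans h))
    (fun j S T h => upv_sup (hC' j) (hadd' j) S T h)
    C (fun j S => upv_le _ fun T _ => (le_abs_self _).trans (hC' j T)) ε hε
  refine ⟨J, hJ, fun j hj => ?_⟩
  have h1 := hJε j hj
  have h2 : - m j (J \ {j}) ≤ upv (fun T => - m j T) (J \ {j}) := le_upv (hC' j) subset_rfl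
  have h3 : m j J = m j {j} + m j (J \ {j}) := by
    rw [← hadd j _ _ Set.disjoint_sdiff_right, Set.union_sdiff_cancel (by simpa using hj)]
  linarith

section hilbert

variable {H : Type} [NormedAddCommGroup H] [InnerProductSpace ℂ H]

theorem exists_signs (F : Finset ℕ) (v : ℕ → H) :
    ∃ S : Finset ℕ, S ⊆ F ∧
      ∑ j ∈ F, ‖v j‖ ^ 2 ≤ ‖∑ j ∈ S, v j - ∑ j ∈ F \ S, v j‖ ^ 2 := by
  classical
  induction F using Finset.induction_on with
  | empty => exact ⟨∅, by simp⟩
  | insert a F ha ih =>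
    obtain ⟨S, hS, h⟩ := ih
    set w := ∑ j ∈ S, v j - ∑ j ∈ F \ S, v j with hw
    have haS : a ∉ S := fun h => ha (hS h)
    have hpar := parallelogram_law_with_norm ℂ w (v a)
    rw [Finset.sum_insert ha]
    by_cases hcase : ‖w‖ ^ 2 + ‖v a‖ ^ 2 ≤ ‖w + v a‖ ^ 2
    · refine ⟨insert a S, Finset.insert_subset_insert _ hS, ?_⟩
      have e1 : insert a F \ insert a S = F \ S := by
        ext x; simp only [Finset.mem_sdiff, Finset.mem_insert, not_or]
        constructor
        · rintro ⟨h1 | h1, h2, h3⟩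
          · exact absurd h1 h2
          · exact ⟨h1, h3⟩
        · rintro ⟨h1, h2⟩
          exact ⟨Or.inr h1, fun h => ha (h ▸ h1), h2⟩
      rw [e1, Finset.sum_insert haS]
      have e2 : v a + ∑ j ∈ S, v j - ∑ j ∈ F \ S, v j = w + v a := by rw [hw]; abel
      rw [e2]
      linarith
    · refine ⟨S, hS.trans (Finset.subset_insert _ _), ?_⟩
      have e1 : insert a F \ S = insert a (F \ S) := by
        rw [Finset.insert_sdiff_of_notMem _ haS]
      have ha2 : a ∉ F \ S := fun h => ha (Finset.mem_sdiff.mp h).1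
      rw [e1, Finset.sum_insert ha2]
      have e2 : ∑ j ∈ S, v j - (v a + ∑ j ∈ F \ S, v j) = w - v a := by rw [hw]; abel
      rw [e2]
      linarith

theorem compact_orthonormal [CompleteSpace H] (K : H →L[ℂ] H) (hK : IsCompactOperator K)
    (h : ℕ → H) (hh : Orthonormal ℂ h) (c : ℝ) (hc : 0 < c) (J : Set ℕ) (hJ : J.Infinite) :
    ¬ ∀ i ∈ J, c ≤ ‖K (h i)‖ := by
  intro hcon
  classical
  have : Infinite J := hJ.to_subtype
  let g : ℕ ↪o ℕ := Nat.orderEmbeddingOfSet J
  have hgJ : ∀ n, g n ∈ J := fun n => by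
    have h1 := Nat.orderEmbeddingOfSet_range J
    have h2 : g n ∈ Set.range (Nat.orderEmbeddingOfSet J) := ⟨n, rfl⟩
    rwa [h1] at h2
  have hcpt := IsCompactOperator.isCompact_closure_image_closedBall (f := (K : H →ₗ[ℂ] H)) hK 1
  have hmem : ∀ n, K (h (g n)) ∈ closure ((K : H → H) '' Metric.closedBall 0 1) := by
    intro n
    apply subset_closure
    refine ⟨h (g n), ?_, rfl⟩
    simp [hh.1]
  obtain ⟨y, _, φ, hφ, hy⟩ := hcpt.tendsto_subseq hmem
  -- the inner products tend to zero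
  have h1 : Filter.Tendsto (fun n => inner ℂ y (K (h (g (φ n))))) Filter.atTop (nhds 0) := by
    have h2 : ∀ n, inner ℂ y (K (h (g (φ n)))) =
        inner ℂ (ContinuousLinearMap.adjoint K y) (h (g (φ n))) := by
      intro n; rw [ContinuousLinearMap.adjoint_inner_left]
    simp only [h2]
    set z := ContinuousLinearMap.adjoint K y
    have h3 : Summable (fun i => ‖inner ℂ (h i) z‖ ^ 2) := hh.inner_products_summable z
    have h4 := h3.tendsto_atTop_zero
    have h5 : Filter.Tendsto (fun n => g (φ n)) Filter.atTop Filter.atTop :=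
      (g.strictMono.comp hφ).tendsto_atTop
    have h6 := h4.comp h5
    rw [tendsto_zero_iff_norm_tendsto_zero]
    have h7 : Filter.Tendsto (fun n => Real.sqrt (‖inner ℂ (h (g (φ n))) z‖ ^ 2))
        Filter.atTop (nhds 0) := by
      have := (Real.continuous_sqrt.tendsto 0).comp h6
      rw [Real.sqrt_zero] at this
      exact this
    refine h7.congr fun n => ?_
    rw [Real.sqrt_sq (norm_nonneg _), ← inner_conj_symm, RCLike.norm_conj]
  have h8 : Filter.Tendsto (fun n => inner ℂ y (K (h (g (φ n))))) Filter.atTop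
      (nhds (inner ℂ y y)) := by
    exact (tendsto_const_nhds (x := y)).inner hy
  have h9 : inner ℂ y y = (0 : ℂ) := tendsto_nhds_unique h8 h1
  rw [inner_self_eq_zero] at h9
  subst h9
  have h10 : Filter.Tendsto (fun n => ‖K (h (g (φ n)))‖) Filter.atTop (nhds 0) := by
    have := hy.norm
    simpa using this
  have h11 : c ≤ 0 := ge_of_tendsto' h10 fun n => hcon _ (hgJ _)
  linarith

end hilbert

end Pool.Agent.HK
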