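import Pool.Agent.HK.Coch
import Pool.Agent.HK.Ros

set_option autoImplicit false
set_option linter.unusedSectionVars false

namespace Pool.Agent.HK

variable {H : Type} [NormedAddCommGroup H] [InnerProductSpace ℂ H] [CompleteSpace H]

theorem select_step (K : ℕ → H →L[ℂ] H) (ε : ℝ) (hε : 0 < ε) (hK : ∀ j, ε ≤ ‖K j‖)
    (hfin : ∀ h η, 0 < η → {j | η ≤ ‖K j h‖}.Finite) (F : Finset H) (N : Finset ℕ) :
    ∃ j ∉ N, ∃ h : H, ‖h‖ = 1 ∧ (∀ x ∈ F, inner ℂ x h = 0) ∧ ε / 2 ≤ ‖K j h‖ := by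
  classical
  let V : Submodule ℂ H := Submodule.span ℂ (F : Set H)
  have : FiniteDimensional ℂ V := FiniteDimensional.span_finset ℂ F
  let b := stdOrthonormalBasis ℂ V
  set m := Module.finrank ℂ V with hm
  set η : ℝ := ε / (4 * (m + 1)) with hη
  have hη0 : 0 < η := by positivity
  have hbad : (⋃ l : Fin m, {j | η ≤ ‖K j (b l : H)‖}).Finite :=
    Set.finite_iUnion fun l => hfin _ _ hη0
  obtain ⟨j, hj⟩ := (hbad.union N.finite_toSet).infinite_compl.nonempty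
  simp only [Set.mem_compl_iff, Set.mem_union, not_or, Set.mem_iUnion, Set.mem_ofPred_eq,
    not_exists, not_le, Finset.mem_coe] at hj
  obtain ⟨hj1, hj2⟩ := hj
  refine ⟨j, hj2, ?_⟩
  obtain ⟨x, hx1, hx2⟩ := (K j).exists_lt_apply_of_lt_opNorm (r := 3 * ε / 4)
    (by have := hK j; linarith)
  set y : V := V.orthogonalProjectionOnto x with hy
  set x' : H := x - y with hx'
  have hyn : ‖(y : H)‖ ≤ 1 := by
    have := V.orthogonalProjectionOnto_norm_le
    have h1 : ‖V.orthogonalProjectionOnto x‖ ≤ ‖x‖ := by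
      calc _ ≤ ‖V.orthogonalProjectionOnto‖ * ‖x‖ := ContinuousLinearMap.le_opNorm _ _
        _ ≤ 1 * ‖x‖ := by gcongr
        _ = _ := one_mul _
    calc ‖(y : H)‖ = ‖y‖ := rfl
      _ ≤ ‖x‖ := h1
      _ ≤ 1 := hx1.le
  have hKy : ‖K j (y : H)‖ ≤ ε / 4 := by
    have h1 : (y : H) = ∑ l, (inner ℂ (b l) y) • (b l : H) := by
      conv_lhs => rw [← b.sum_repr' y]
      simp
    rw [h1, map_sum]
    refine (norm_sum_le _ _).trans ?_
    have h2 : ∀ l : Fin m, ‖K j ((inner ℂ (b l) y) • (b l : H))‖ ≤ η := by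
      intro l
      rw [map_smul, norm_smul]
      have h3 : ‖inner ℂ (b l) y‖ ≤ 1 := by
        calc _ ≤ ‖b l‖ * ‖y‖ := norm_inner_le_norm _ _
          _ ≤ 1 * 1 := by
              refine mul_le_mul ?_ hyn (norm_nonneg _) zero_le_one
              exact (b.orthonormal.1 l).le
          _ = 1 := one_mul _
      calc _ ≤ 1 * ‖K j (b l : H)‖ := by gcongr
        _ ≤ η := by rw [one_mul]; exact (hj1 l).le
    refine (Finset.sum_le_sum fun l _ => h2 l).trans ?_
    rw [Finset.sum_const, Finset.card_univ, Fintype.card_fin, nsmul_eq_mul, hη]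
    rw [mul_div_assoc', div_le_div_iff₀ (by positivity) (by norm_num)]
    nlinarith
  have hKx' : ε / 2 < ‖K j x'‖ := by
    have h1 : K j x = K j x' + K j (y : H) := by rw [← map_add, hx', sub_add_cancel]
    have h2 : ‖K j x‖ ≤ ‖K j x'‖ + ‖K j (y : H)‖ := by rw [h1]; exact norm_add_le _ _
    linarith
  have hx'0 : x' ≠ 0 := by
    intro h0
    rw [h0, map_zero, norm_zero] at hKx'
    linarith
  have horth : ∀ z ∈ V, inner ℂ z x' = 0 := by
    intro z hz
    have := V.sub_starProjection_mem_orthogonal x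
    exact (Submodule.mem_orthogonal V x').mp this z hz
  have hx'n : ‖x'‖ ≤ 1 := by
    have h1 : ‖x‖ * ‖x‖ = ‖(y : H)‖ * ‖(y : H)‖ + ‖x'‖ * ‖x'‖ := by
      have h2 : x = y + x' := by rw [hx']; abel
      conv_lhs => rw [h2]
      exact norm_add_sq_eq_norm_sq_add_norm_sq_of_inner_eq_zero (𝕜 := ℂ) _ _ (horth y y.2)
    have h3 : ‖x'‖ * ‖x'‖ ≤ 1 := by nlinarith [norm_nonneg x, norm_nonneg (y : H)]
    nlinarith [norm_nonneg x']
  have hpos : 0 < ‖x'‖ := norm_pos_iff.mpr hx'0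
  refine ⟨((‖x'‖ : ℂ)⁻¹) • x', ?_, ?_, ?_⟩
  · rw [norm_smul, norm_inv, Complex.norm_real, norm_norm, inv_mul_cancel₀ hpos.ne']
  · intro z hz
    rw [inner_smul_right, horth z (Submodule.subset_span hz), mul_zero]
  · rw [map_smul, norm_smul, norm_inv, Complex.norm_real, norm_norm]
    have : (1 : ℝ) ≤ ‖x'‖⁻¹ := (one_le_inv₀ hpos).mpr hx'n
    nlinarith [norm_nonneg (K j x')]

theorem select (K : ℕ → H →L[ℂ] H) (ε : ℝ) (hε : 0 < ε) (hK : ∀ j, ε ≤ ‖K j‖)
    (hfin : ∀ h η, 0 < η → {j | η ≤ ‖K j h‖}.Finite) :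
    ∃ (f : ℕ → ℕ) (h : ℕ → H), Function.Injective f ∧ Orthonormal ℂ h ∧
      ∀ i, ε / 2 ≤ ‖K (f i) (h i)‖ := by
  classical
  obtain ⟨g, hg1, hg2⟩ := exists_seq_of_forall_finset_exists
    (fun x : ℕ × H => ‖x.2‖ = 1 ∧ ε / 2 ≤ ‖K x.1 x.2‖)
    (fun x y => x.1 ≠ y.1 ∧ inner ℂ x.2 y.2 = (0 : ℂ)) (by
      intro s _
      obtain ⟨j, hj, h, hh1, hh2, hh3⟩ := select_step K ε hε hK hfin
        (s.image Prod.snd) (s.image Prod.fst)
      refine ⟨(j, h), ⟨hh1, hh3⟩, fun x hx => ⟨?_, ?_⟩⟩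
      · intro h1
        have h1' : x.1 = j := h1
        exact hj (h1' ▸ Finset.mem_image_of_mem _ hx)
      · exact hh2 _ (Finset.mem_image_of_mem _ hx))
  refine ⟨fun i => (g i).1, fun i => (g i).2, ?_, ?_, fun i => (hg1 i).2⟩
  · intro i j hij
    rcases lt_trichotomy i j with h | h | h
    · exact absurd hij (hg2 i j h).1
    · exact h
    · exact absurd hij.symm (hg2 j i h).1
  · refine ⟨fun i => (hg1 i).1, fun i j hij => ?_⟩
    rcases lt_or_gt_of_ne hij with h | h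
    · exact (hg2 i j h).2
    · have := (hg2 j i h).2
      rw [← inner_conj_symm, this, map_zero]

end Pool.Agent.HK
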