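import Pool.Agent.HK.Vanish

set_option autoImplicit false
set_option linter.unusedSectionVars false

/-! The prism homotopy for a (non-unital) inner endomorphism `a ↦ v a w`. -/

namespace Pool.Agent.HK

section alg

variable {R B : Type} [Ring R] [Ring B] [Algebra ℂ R] [Algebra ℂ B] (ι : R →ₐ[ℂ] B)

/-- the prism operator -/
def Hm (v : R) (g : R → R) : (List R → B) → List R → B
  | φ, [] => φ [v]
  | φ, a :: t => φ (v :: a :: t) - Hm v g (fun s => φ (g a :: s)) t

theorem Hm_nil (v : R) (g : R → R) (φ : List R → B) : Hm v g φ [] = φ [v] := by simp [Hm]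

theorem Hm_cons (v : R) (g : R → R) (φ : List R → B) (a : R) (t : List R) :
    Hm v g φ (a :: t) = φ (v :: a :: t) - Hm v g (fun s => φ (g a :: s)) t := by simp [Hm]

theorem Hm_linear (v : R) (g : R → R) (l : List R) : ∀ (c : ℂ) (φ ψ : List R → B),
    Hm v g (fun t => c • φ t + ψ t) l = c • Hm v g φ l + Hm v g ψ l := by
  induction l with
  | nil => intro c φ ψ; simp only [Hm_nil]
  | cons a t ih =>
    intro c φ ψ
    simp only [Hm_cons]
    rw [ih c (fun s => φ (g a :: s)) (fun s => ψ (g a :: s)), smul_sub]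
    abel

theorem Hm_sub (v : R) (g : R → R) (l : List R) (φ ψ : List R → B) :
    Hm v g (fun t => φ t - ψ t) l = Hm v g φ l - Hm v g ψ l := by
  have := Hm_linear v g l (-1) ψ φ
  simp only [neg_smul, one_smul] at this
  have e : (fun t => φ t - ψ t) = fun t => - ψ t + φ t := by funext t; abel
  rw [e, this]; abel

theorem Hm_mul_left (v : R) (g : R → R) (b : B) (l : List R) : ∀ (φ : List R → B),
    Hm v g (fun t => b * φ t) l = b * Hm v g φ l := by
  induction l with
  | nil => intro φ; simp only [Hm_nil]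
  | cons a t ih =>
    intro φ
    simp only [Hm_cons]
    rw [ih (fun s => φ (g a :: s)), mul_sub]

theorem Hm_zero_of (v : R) (g : R → R) (l : List R) : ∀ (φ : List R → B),
    (∀ s : List R, s.length = l.length + 1 → φ s = 0) → Hm v g φ l = 0 := by
  induction l with
  | nil => intro φ h; rw [Hm_nil]; exact h _ (by simp)
  | cons a t ih =>
    intro φ h
    rw [Hm_cons, h _ (by simp), ih (fun s => φ (g a :: s)) fun s hs => h _ (by simp [hs]),
      sub_zero]

theorem Hm_key (v : R) (g : R → R) (hg : ∀ a b, g (a * b) = g a * g b)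
    (hv : ∀ a, v * a = g a * v) (l : List R) : ∀ (φ : List R → B) (a : R),
    E ι (Hm v g φ) (a :: l) + E ι φ (v :: a :: l) - Hm v g (fun s => E ι φ (g a :: s)) l =
      φ (g a :: l.map g) * ι v := by
  induction l with
  | nil =>
    intro φ a
    rw [E_one, Hm_nil, Hm_nil, E_cons, E_one, E_cons, E_one, List.map_nil, hv]
    abel
  | cons b t ih =>
    intro φ a
    have h1 : E ι (Hm v g φ) (a :: b :: t) = φ (v :: a * b :: t) -
        Hm v g (fun s => φ (g a * g b :: s)) t - (E ι (fun s => φ (v :: a :: s)) (b :: t) -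
        E ι (Hm v g (fun s => φ (g a :: s))) (b :: t)) := by
      rw [E_cons, Hm_cons, hg]
      have : (fun s => Hm v g φ (a :: s)) = fun s => φ (v :: a :: s) -
          Hm v g (fun s => φ (g a :: s)) s := by
        funext s; rw [Hm_cons]
      rw [this, E_sub]
    have h2 : E ι φ (v :: a :: b :: t) = φ (v * a :: b :: t) - (φ (v :: a * b :: t) -
        E ι (fun s => φ (v :: a :: s)) (b :: t)) := by
      rw [E_cons, E_cons]
    have h3 : Hm v g (fun s => E ι φ (g a :: s)) (b :: t) =
        φ (g a * v :: b :: t) - E ι (fun s => φ (g a :: s)) (v :: b :: t) -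
        (Hm v g (fun s => φ (g a * g b :: s)) t -
          Hm v g (fun s => E ι (fun s => φ (g a :: s)) (g b :: s)) t) := by
      rw [Hm_cons, E_cons]
      have : (fun s => E ι φ (g a :: g b :: s)) = fun s => φ (g a * g b :: s) -
          E ι (fun s => φ (g a :: s)) (g b :: s) := by
        funext s; rw [E_cons]
      rw [this, Hm_sub]
    have h4 := ih (fun s => φ (g a :: s)) b
    rw [h1, h2, h3, List.map_cons, ← h4, hv]
    abel

/-- the prism identity -/
theorem prism (v w : R) (g : R → R) (hg : ∀ a b, g (a * b) = g a * g b)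
    (hv : ∀ a, v * a = g a * v) (hw : ∀ a, a * w = w * g a) (φ : List R → B)
    (hcy : ∀ l, D ι φ l = 0) (a : R) (l : List R) :
    D ι (fun t => ι w * Hm v g φ t) (a :: l) =
      ι (w * v) * φ (a :: l) - ι w * φ ((a :: l).map g) * ι v := by
  have hE : ∀ x t, E ι φ (x :: t) = ι x * φ t := by
    intro x t
    have := hcy (x :: t)
    rw [D_cons, sub_eq_zero] at this
    exact this.symm
  have hk := Hm_key ι v g hg hv l φ a
  have h1 : (fun s => E ι φ (g a :: s)) = fun s => ι (g a) * φ s := by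
    funext s; exact hE _ _
  rw [h1, Hm_mul_left, hE] at hk
  have h2 : E ι (Hm v g φ) (a :: l) = φ (g a :: l.map g) * ι v - ι v * φ (a :: l) +
      ι (g a) * Hm v g φ l := by rw [← hk]; abel
  rw [D_cons, E_mul_left, h2, ← mul_assoc, ← map_mul, hw, map_mul, map_mul, List.map_cons]
  noncomm_ring

end alg

section norm

variable {R B : Type} [NormedRing R] [NormedRing B] [NormedAlgebra ℂ R] [NormedAlgebra ℂ B]

theorem Hm_lin (v : R) (g : R → R) (hgl : ∀ (t : ℂ) x y, g (t • x + y) = t • g x + g y)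
    (p : List R) : ∀ (φ : List R → B), Lin φ → ∀ (post : List R) (x y : R) (c : ℂ),
    Hm v g φ (p ++ (c • x + y) :: post) =
      c • Hm v g φ (p ++ x :: post) + Hm v g φ (p ++ y :: post) := by
  induction p with
  | nil =>
    intro φ h post x y c
    simp only [List.nil_append, Hm_cons]
    have h1 : (fun s => φ (g (c • x + y) :: s)) = fun s => c • φ (g x :: s) + φ (g y :: s) := by
      funext s
      rw [hgl]; exact h.head s _ _ c
    have h2 := h [v] post x y c
    simp only [List.cons_append, List.nil_append] at h2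
    rw [h1, Hm_linear, h2, smul_sub]
    abel
  | cons a p ih =>
    intro φ h post x y c
    simp only [List.cons_append, Hm_cons]
    rw [ih (fun s => φ (g a :: s)) (h.cur _)]
    have h2 := h (v :: a :: p) post x y c
    simp only [List.cons_append] at h2
    rw [h2, smul_sub]
    abel

theorem Hm_val (v : R) (g : R → R) (X : Submodule ℂ B) (l : List R) :
    ∀ (φ : List R → B), (∀ l, φ l ∈ X) → Hm v g φ l ∈ X := by
  induction l with
  | nil => intro φ h; rw [Hm_nil]; exact h _
  | cons a t ih => intro φ h; rw [Hm_cons]; exact X.sub_mem (h _) (ih _ fun s => h _)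

theorem Hm_bd (v : R) (g : R → R) (hv : ‖v‖ ≤ 1) (hg : ∀ a, ‖g a‖ ≤ ‖a‖) (l : List R) :
    ∀ (φ : List R → B) (C : ℝ), 0 ≤ C → (∀ l, ‖φ l‖ ≤ C * nm l) →
    ‖Hm v g φ l‖ ≤ (l.length + 1) * C * nm l := by
  induction l with
  | nil =>
    intro φ C hC h
    rw [Hm_nil]
    refine (h _).trans ?_
    rw [nm_cons, nm_nil]
    simp only [List.length_nil, Nat.cast_zero, zero_add, one_mul, mul_one]
    calc C * ‖v‖ ≤ C * 1 := mul_le_mul_of_nonneg_left hv hC
      _ = C := mul_one _
  | cons a t ih =>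
    intro φ C hC h
    rw [Hm_cons]
    have h1 : ‖φ (v :: a :: t)‖ ≤ C * nm (a :: t) := by
      refine (h _).trans (mul_le_mul_of_nonneg_left ?_ hC)
      rw [nm_cons v]
      calc _ ≤ 1 * nm (a :: t) := mul_le_mul_of_nonneg_right hv (nm_nonneg _)
        _ = _ := one_mul _
    have h2 := ih (fun s => φ (g a :: s)) (C * ‖a‖) (by positivity) (by
      intro s
      refine (h _).trans ?_
      rw [nm_cons, mul_assoc]
      refine mul_le_mul_of_nonneg_left ?_ hC
      exact mul_le_mul_of_nonneg_right (hg a) (nm_nonneg _))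
    refine (norm_sub_le _ _).trans ((add_le_add h1 h2).trans (le_of_eq ?_))
    simp only [nm_cons, List.length_cons]
    push_cast
    ring

theorem Hm_coch {X : Submodule ℂ B} {n : ℕ} {C : ℝ} (hC : 0 ≤ C) {φ : List R → B}
    (h : Coch X (n + 1) C φ) (v : R) (g : R → R) (hv : ‖v‖ ≤ 1) (hg : ∀ a, ‖g a‖ ≤ ‖a‖)
    (hgl : ∀ (t : ℂ) x y, g (t • x + y) = t • g x + g y) :
    Coch X n ((n + 1) * C) (Hm v g φ) where
  supp l hl := Hm_zero_of v g l φ fun s hs => h.supp s (by omega)
  lin p post x y c := Hm_lin v g hgl p φ h.lin post x y c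
  val l := Hm_val v g X l φ h.val
  bd l := by
    by_cases hl : l.length = n
    · have := Hm_bd v g hv hg l φ C hC h.bd
      rwa [hl] at this
    · rw [Hm_zero_of v g l φ fun s hs => h.supp s (by omega), norm_zero]
      have := nm_nonneg l
      positivity

theorem Coch.left {X : Submodule ℂ B} {n : ℕ} {C : ℝ} {φ : List R → B}
    (h : Coch X n C φ) (b : B) (hb : ‖b‖ ≤ 1) (hX : ∀ x ∈ X, b * x ∈ X) :
    Coch X n C (fun l => b * φ l) where
  supp l hl := by
    show b * φ l = 0
    rw [h.supp l hl, mul_zero]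
  lin p post x y c := by
    show b * φ _ = c • (b * φ _) + b * φ _
    rw [h.lin, mul_add, mul_smul_comm]
  val l := hX _ (h.val l)
  bd l := by
    calc _ ≤ ‖b‖ * ‖φ l‖ := norm_mul_le _ _
      _ ≤ 1 * (C * nm l) := mul_le_mul hb (h.bd l) (norm_nonneg _) zero_le_one
      _ = _ := one_mul _

end norm

section hilbert

variable {H : Type} [NormedAddCommGroup H] [InnerProductSpace ℂ H] [CompleteSpace H]
variable {R : Type} [NormedRing R] [NormedAlgebra ℂ R] {ι : R →ₐ[ℂ] (H →L[ℂ] H)}

theorem prism_fine (hS : HasSums ι) (hι : ∀ a, ‖ι a‖ = ‖a‖) {X : Submodule ℂ (H →L[ℂ] H)}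
    (hX : IsBimod ι X) (hXc : ∀ x ∈ X, IsCompactOperator x)
    {n : ℕ} {C : ℝ} (hC : 0 ≤ C) {φ : List R → (H →L[ℂ] H)} (h : Coch X (n + 1) C φ)
    (hcy : ∀ l, D ι φ l = 0) (z : R) (hz : Pr ι z) (hcz : ∀ a, z * a = a * z)
    (v w : ℕ → R) (hwv : ∀ i, w i * v i = z) (hvz : ∀ i, v i * z = v i) (hzw : ∀ i, z * w i = w i)
    (hv : ∀ i, ‖v i‖ ≤ 1) (hw : ∀ i, ‖w i‖ ≤ 1) (hp : ∀ i, Pr ι (v i * w i))
    (horth : ∀ i j, i ≠ j → w i * v j = 0) (δ : ℝ) (hδ : 0 < δ) :
    Fine ι X n ((n + 1) * C) δ φ z := by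
  set φ' : List R → (H →L[ℂ] H) := P (ι z) (z * ·) φ with hφ'
  have h' : Coch X (n + 1) C φ' := h.Q hX hι hC hz
  have hcy' : ∀ l, D ι φ' l = 0 := by
    intro l
    rw [hφ', D_Q hz hcz]
    simp only [P]
    rw [hcy]; simp
  have hzφ : ∀ l, ι z * φ' l = φ' l := by
    intro l
    simp only [hφ', P]
    rw [← mul_assoc, ← mul_assoc, ← map_mul, hz.1]
  let g : ℕ → R → R := fun i a => v i * a * w i
  have hgl : ∀ i (t : ℂ) x y, g i (t • x + y) = t • g i x + g i y := by
    intro i t x y
    simp only [g, mul_add, add_mul, mul_smul_comm, smul_mul_assoc]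
  have hgm : ∀ i a b, g i (a * b) = g i a * g i b := by
    intro i a b
    calc v i * (a * b) * w i = v i * a * (b * (z * w i)) := by rw [hzw]; simp only [mul_assoc]
      _ = v i * a * (z * b * w i) := by rw [hcz b]; simp only [mul_assoc]
      _ = v i * a * (w i * v i * b * w i) := by rw [hwv]
      _ = _ := by simp only [g, mul_assoc]
  have hgv : ∀ i a, v i * a = g i a * v i := by
    intro i a
    calc v i * a = v i * z * a := by rw [hvz]
      _ = v i * (a * z) := by rw [mul_assoc, hcz a]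
      _ = v i * (a * (w i * v i)) := by rw [hwv]
      _ = _ := by simp only [g, mul_assoc]
  have hgw : ∀ i a, a * w i = w i * g i a := by
    intro i a
    calc a * w i = a * (z * w i) := by rw [hzw]
      _ = z * a * w i := by rw [← mul_assoc, ← hcz a]
      _ = w i * v i * a * w i := by rw [hwv]
      _ = _ := by simp only [g, mul_assoc]
  have hgn : ∀ i a, ‖g i a‖ ≤ ‖a‖ := by
    intro i a
    calc _ ≤ ‖v i * a‖ * ‖w i‖ := norm_mul_le _ _
      _ ≤ (‖v i‖ * ‖a‖) * ‖w i‖ := mul_le_mul_of_nonneg_right (norm_mul_le _ _) (norm_nonneg _)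
      _ ≤ (1 * ‖a‖) * 1 := by
          refine mul_le_mul ?_ (hw i) (norm_nonneg _) (by positivity)
          exact mul_le_mul_of_nonneg_right (hv i) (norm_nonneg _)
      _ = _ := by ring
  -- smallness on one of the corners
  have hsmall : ∃ i, ∀ l : List R, (∀ b ∈ l, True ∧ ‖b‖ ≤ 1) → ‖φ' (l.map (g i))‖ ≤ δ := by
    by_contra hcon
    push Not at hcon
    choose L hL1 hL2 using hcon
    have hlen : ∀ i, (L i).length = n + 1 := by
      intro i
      by_contra hne
      have h3 := hL2 i
      rw [h'.supp _ (by simpa using hne), norm_zero] at h3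
      linarith
    refine small_orth ι hS hXc n C φ' hC h' (fun i => v i * w i) hp ?_
      (fun i => (L i).map (g i)) (fun i => by simpa using hlen i) ?_ δ hδ
      (fun i => (hL2 i).le)
    · intro i j hij
      calc v i * w i * (v j * w j) = v i * (w i * v j) * w j := by simp only [mul_assoc]
        _ = 0 := by rw [horth i j hij]; simp
    · intro i a ha
      rw [List.mem_map] at ha
      obtain ⟨b, hb, rfl⟩ := ha
      refine ⟨?_, ?_, (hgn i b).trans (hL1 i b hb).2⟩
      · calc v i * w i * (v i * b * w i) = v i * (w i * v i) * b * w i := by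
              simp only [mul_assoc]
          _ = _ := by rw [hwv, hvz]
      · calc v i * b * w i * (v i * w i) = v i * b * (w i * v i * w i) := by
              simp only [mul_assoc]
          _ = _ := by rw [hwv, hzw]
  obtain ⟨i, hi⟩ := hsmall
  have hHC : 0 ≤ ((n : ℝ) + 1) * C := by positivity
  have hs := (Hm_coch hC h' (v i) (g i) (hv i) (hgn i) (hgl i)).left (ι (w i))
    ((hι _).le.trans (hw i)) (fun x hx => hX.left _ x hx)
  refine ⟨fun t => ι (w i) * Hm (v i) (g i) φ' t, hs, ?_⟩
  have hid : (fun l => φ' l - D ι (fun t => ι (w i) * Hm (v i) (g i) φ' t) l) =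
      fun l => ι (w i) * φ' (l.map (g i)) * ι (v i) := by
    funext l
    cases l with
    | nil =>
      rw [D_nil, h'.supp [] (by simp)]
      simp [h'.supp [] (by simp)]
    | cons a t =>
      rw [prism ι (v i) (w i) (g i) (hgm i) (hgv i) (hgw i) φ' hcy', hwv, hzφ]
      abel
  have hfull := h'.sub (hs.D ι hX (fun a => (hι a).le) hHC)
  refine ⟨hfull.supp, hfull.lin, hfull.val, ?_⟩
  intro l
  have e1 : P (ι z) (z * ·) φ l - D ι (fun t => ι (w i) * Hm (v i) (g i) φ' t) l =
      ι (w i) * φ' (l.map (g i)) * ι (v i) := congrFun hid l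
  rw [e1]
  have hφ'' : Lin (fun l : List R => φ' (l.map (g i))) := by
    intro p post x y t
    simp only [List.map_append, List.map_cons, hgl]
    exact h'.lin _ _ _ _ _
  have h2 := scale_bd (C := C) hφ'' (fun l => by
    refine (h'.bd _).trans (mul_le_mul_of_nonneg_left ?_ hC)
    have := nm_map_le (g i) 1 zero_le_one (fun a => by rw [one_mul]; exact hgn i a) l
    simpa using this) (fun _ => True) (fun _ _ _ => trivial) δ hi l (fun _ _ => trivial)
  calc _ ≤ ‖ι (w i) * φ' (l.map (g i))‖ * ‖ι (v i)‖ := norm_mul_le _ _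
    _ ≤ (‖ι (w i)‖ * ‖φ' (l.map (g i))‖) * ‖ι (v i)‖ :=
        mul_le_mul_of_nonneg_right (norm_mul_le _ _) (norm_nonneg _)
    _ ≤ (1 * ‖φ' (l.map (g i))‖) * 1 := by
        refine mul_le_mul ?_ ((hι _).le.trans (hv i)) (norm_nonneg _) (by positivity)
        exact mul_le_mul_of_nonneg_right ((hι _).le.trans (hw i)) (norm_nonneg _)
    _ = ‖φ' (l.map (g i))‖ := by ring
    _ ≤ _ := h2

end hilbert

end Pool.Agent.HK
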