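import Pool.Agent.HK.Phil

set_option autoImplicit false
set_option linter.unusedSectionVars false

namespace Pool.Agent.HK

variable {H : Type} [NormedAddCommGroup H] [InnerProductSpace ℂ H] [CompleteSpace H]
variable {R : Type} [NormedRing R] [NormedAlgebra ℂ R] (ι : R →ₐ[ℂ] (H →L[ℂ] H))

/-- projections of `R` -/
def Pr (r : R) : Prop := r * r = r ∧ IsSelfAdjoint (ι r)

/-- existence of strong sums of orthogonal pieces -/
def HasSums : Prop := ∀ p : ℕ → R, (∀ j, Pr ι (p j)) → (∀ i j, i ≠ j → p i * p j = 0) →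
  ∀ a : ℕ → R, (∀ j, p j * a j = a j) → (∀ j, a j * p j = a j) → (∀ j, ‖a j‖ ≤ 1) →
    ∃ A : Set ℕ → R, (∀ S T, Disjoint S T → A (S ∪ T) = A S + A T) ∧
      (∀ j, A {j} = a j) ∧ ∀ S, ‖A S‖ ≤ 1

theorem add_empty {G : Type} [AddCommGroup G] (A : Set ℕ → G)
    (hadd : ∀ S T, Disjoint S T → A (S ∪ T) = A S + A T) : A ∅ = 0 := by
  have := hadd ∅ ∅ (by simp)
  rw [Set.union_empty] at this
  simpa using this

theorem add_finset {G : Type} [AddCommGroup G] (A : Set ℕ → G)
    (hadd : ∀ S T, Disjoint S T → A (S ∪ T) = A S + A T) (S : Finset ℕ) :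
    A (S : Set ℕ) = ∑ j ∈ S, A {j} := by
  classical
  induction S using Finset.induction_on with
  | empty => simpa using add_empty A hadd
  | insert a S ha ih =>
    rw [Finset.sum_insert ha, ← ih, ← hadd, Finset.coe_insert, Set.singleton_union]
    simpa using ha

theorem Lin.one_add {B : Type} [NormedRing B] [NormedAlgebra ℂ B] {φ : List R → B} (h : Lin φ)
    (x y : R) : φ [x + y] = φ [x] + φ [y] := by
  have := h [] [] x y 1
  simpa using this

theorem Lin.head_add {B : Type} [NormedRing B] [NormedAlgebra ℂ B] {φ : List R → B} (h : Lin φ)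
    (x y : R) (t : List R) : φ ((x + y) :: t) = φ (x :: t) + φ (y :: t) := by
  have := h [] t x y 1
  simpa using this

theorem Lin.head_zero {B : Type} [NormedRing B] [NormedAlgebra ℂ B] {φ : List R → B} (h : Lin φ)
    (t : List R) : φ (0 :: t) = 0 := by
  have := h.head_add 0 0 t
  simpa using this

theorem Lin.head_sum {B : Type} [NormedRing B] [NormedAlgebra ℂ B] {φ : List R → B} (h : Lin φ)
    {κ : Type} (s : Finset κ) (x : κ → R) (t : List R) :
    φ ((∑ i ∈ s, x i) :: t) = ∑ i ∈ s, φ (x i :: t) := by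
  classical
  induction s using Finset.induction_on with
  | empty => simpa using h.head_zero t
  | insert i s hi ih => rw [Finset.sum_insert hi, Finset.sum_insert hi, h.head_add, ih]

theorem Lin.head_neg {B : Type} [NormedRing B] [NormedAlgebra ℂ B] {φ : List R → B} (h : Lin φ)
    (x : R) (t : List R) : φ ((-x) :: t) = - φ (x :: t) := by
  have := h.head_add x (-x) t
  rw [add_neg_cancel, h.head_zero] at this
  exact (neg_eq_of_add_eq_zero_right this.symm).symm

theorem Lin.head_sub {B : Type} [NormedRing B] [NormedAlgebra ℂ B] {φ : List R → B} (h : Lin φ)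
    (x y : R) (t : List R) : φ ((x - y) :: t) = φ (x :: t) - φ (y :: t) := by
  rw [sub_eq_add_neg, h.head_add, h.head_neg, ← sub_eq_add_neg]

theorem finite_large {X : Submodule ℂ (H →L[ℂ] H)} {C : ℝ} {φ : List R → (H →L[ℂ] H)}
    (h : Coch X 1 C φ) (hC : 0 ≤ C) (A : Set ℕ → R)
    (hadd : ∀ S T, Disjoint S T → A (S ∪ T) = A S + A T) (hA : ∀ S, ‖A S‖ ≤ 1) (x : H) (η : ℝ)
    (hη : 0 < η) : {j | η ≤ ‖φ [A {j}] x‖}.Finite := by
  classical
  by_contra hinf
  have hinf' : {j | η ≤ ‖φ [A {j}] x‖}.Infinite := hinf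
  obtain ⟨N, hN⟩ := exists_nat_gt ((C * 2 * ‖x‖) ^ 2 / η ^ 2)
  obtain ⟨F, hF, hcard⟩ := hinf'.exists_subset_card_eq N
  obtain ⟨S, hS, hsgn⟩ := exists_signs F (fun j => φ [A {j}] x)
  have e1 : ∀ T : Finset ℕ, ∑ j ∈ T, φ [A {j}] x = φ [A (T : Set ℕ)] x := by
    intro T
    rw [add_finset A hadd T, h.lin.head_sum T (fun j => A {j}) []]
    simp
  rw [e1, e1, ← sub_apply, ← h.lin.head_sub] at hsgn
  have h1 : ‖A (S : Set ℕ) - A ((F \ S : Finset ℕ) : Set ℕ)‖ ≤ 2 := by
    refine (norm_sub_le _ _).trans ?_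
    have := hA (S : Set ℕ)
    have := hA ((F \ S : Finset ℕ) : Set ℕ)
    linarith
  have h2 : ‖φ [A (S : Set ℕ) - A ((F \ S : Finset ℕ) : Set ℕ)] x‖ ≤ C * 2 * ‖x‖ := by
    refine (ContinuousLinearMap.le_opNorm _ _).trans ?_
    refine mul_le_mul_of_nonneg_right ?_ (norm_nonneg _)
    refine (h.bd _).trans ?_
    rw [nm_cons, nm_nil, mul_one]
    exact mul_le_mul_of_nonneg_left h1 hC
  have h3 : ∑ j ∈ F, ‖φ [A {j}] x‖ ^ 2 ≥ N * η ^ 2 := by
    rw [← hcard, ← nsmul_eq_mul, ← Finset.sum_const]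
    apply Finset.sum_le_sum
    intro j hj
    have := hF hj
    have h4 : η ≤ ‖φ [A {j}] x‖ := this
    gcongr
  have h4 : ‖φ [A (S : Set ℕ) - A ((F \ S : Finset ℕ) : Set ℕ)] x‖ ^ 2 ≤ (C * 2 * ‖x‖) ^ 2 := by
    gcongr
  rw [div_lt_iff₀ (by positivity)] at hN
  linarith

theorem exists_dual_vec (K : H →L[ℂ] H) (x : H) (c : ℝ) (hc : c ≤ ‖K x‖) (hc0 : 0 < c) :
    ∃ g : H, ‖g‖ = 1 ∧ c ≤ (inner ℂ g (K x)).re := by
  have hpos : 0 < ‖K x‖ := lt_of_lt_of_le hc0 hc
  refine ⟨((‖K x‖ : ℂ)⁻¹) • K x, ?_, ?_⟩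
  · rw [norm_smul, norm_inv, Complex.norm_real, norm_norm, inv_mul_cancel₀ hpos.ne']
  · rw [inner_smul_left, inner_self_eq_norm_sq_to_K]
    have : (starRingEnd ℂ) ((‖K x‖ : ℂ)⁻¹) * ((‖K x‖ : ℂ)) ^ 2 = (‖K x‖ : ℂ) := by
      rw [map_inv₀, Complex.conj_ofReal, sq, ← mul_assoc, inv_mul_cancel₀, one_mul]
      exact_mod_cast hpos.ne'
    have h2 : ((starRingEnd ℂ) ((‖K x‖ : ℂ)⁻¹) * ((RCLike.ofReal ‖K x‖ : ℂ)) ^ 2).re = ‖K x‖ := by
      have h3 : ((RCLike.ofReal ‖K x‖ : ℂ)) = (‖K x‖ : ℂ) := rfl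
      rw [h3, this, Complex.ofReal_re]
    rw [h2]
    exact hc

theorem small_one {X : Submodule ℂ (H →L[ℂ] H)} (hX : ∀ x ∈ X, IsCompactOperator x)
    {C : ℝ} {φ : List R → (H →L[ℂ] H)}
    (h : Coch X 1 C φ) (hC : 0 ≤ C) (A : Set ℕ → R)
    (hadd : ∀ S T, Disjoint S T → A (S ∪ T) = A S + A T) (hA : ∀ S, ‖A S‖ ≤ 1) (ε : ℝ)
    (hε : 0 < ε) : ¬ ∀ j, ε ≤ ‖φ [A {j}]‖ := by
  intro hcon
  obtain ⟨f, x, hf, hx, hfx⟩ := select (fun j => φ [A {j}]) ε hε hcon
    (fun y η hη => finite_large h hC A hadd hA y η hη)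
  have hg := fun i => exists_dual_vec (φ [A {f i}]) (x i) (ε / 2) (hfx i) (by linarith)
  choose g hg1 hg2 using hg
  have hbd : ∀ (i : ℕ) (S : Set ℕ), ‖inner ℂ (g i) (φ [A S] (x i))‖ ≤ C := by
    intro i S
    calc _ ≤ ‖g i‖ * ‖φ [A S] (x i)‖ := norm_inner_le_norm _ _
      _ ≤ 1 * (C * 1 * 1) := by
          refine mul_le_mul (hg1 i).le ?_ (norm_nonneg _) zero_le_one
          refine (ContinuousLinearMap.le_opNorm _ _).trans ?_
          rw [hx.1 i]
          refine mul_le_mul_of_nonneg_right ?_ zero_le_one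
          refine (h.bd _).trans ?_
          rw [nm_cons, nm_nil, mul_one]
          exact mul_le_mul_of_nonneg_left (hA S) hC
      _ = C := by ring
  obtain ⟨J, hJ, hJm⟩ := rosenthal_real
    (fun i T => (inner ℂ (g i) (φ [A (f '' T)] (x i))).re) C
    (fun i T => (Complex.abs_re_le_norm _).trans (hbd i _))
    (by
      intro i S T hST
      show (inner ℂ (g i) (φ [A (f '' (S ∪ T))] (x i))).re = _
      rw [Set.image_union, hadd _ _ ((Set.disjoint_image_iff hf).mpr hST), h.lin.head_add,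
        add_apply, inner_add_right, Complex.add_re])
    (ε / 4) (by linarith)
  refine compact_orthonormal (φ [A (f '' J)]) (hX _ (h.val _)) x hx (ε / 4) (by linarith) J hJ ?_
  intro i hi
  have h1 := hJm i hi
  simp only [Set.image_singleton] at h1
  have h2 := hg2 i
  have h3 : (inner ℂ (g i) (φ [A (f '' J)] (x i))).re ≤ ‖φ [A (f '' J)] (x i)‖ := by
    calc _ ≤ ‖inner ℂ (g i) (φ [A (f '' J)] (x i))‖ := Complex.re_le_norm _
      _ ≤ ‖g i‖ * ‖φ [A (f '' J)] (x i)‖ := norm_inner_le_norm _ _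
      _ = _ := by rw [hg1, one_mul]
  linarith

theorem nm_le_one (l : List R) (h : ∀ a ∈ l, ‖a‖ ≤ 1) : nm l ≤ 1 := by
  induction l with
  | nil => simp
  | cons a l ih =>
    rw [nm_cons]
    have h1 := h a (by simp)
    have h2 := ih fun b hb => h b (by simp [hb])
    have h3 := nm_nonneg l
    have h4 := norm_nonneg a
    nlinarith

theorem Coch.cur {X : Submodule ℂ (H →L[ℂ] H)} {C : ℝ} {n : ℕ} {φ : List R → (H →L[ℂ] H)}
    (h : Coch X (n + 1) C φ) (a : R) : Coch X n (C * ‖a‖) (fun t => φ (a :: t)) where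
  supp l hl := h.supp _ (by simpa using hl)
  lin := h.lin.cur a
  val l := h.val _
  bd l := by
    have := h.bd (a :: l)
    rw [nm_cons] at this
    linarith

theorem small_orth (hι : HasSums ι) {X : Submodule ℂ (H →L[ℂ] H)}
    (hX : ∀ x ∈ X, IsCompactOperator x) (n : ℕ) :
    ∀ (C : ℝ) (φ : List R → (H →L[ℂ] H)), 0 ≤ C → Coch X (n + 1) C φ →
    ∀ p : ℕ → R, (∀ j, Pr ι (p j)) → (∀ i j, i ≠ j → p i * p j = 0) →
    ∀ l : ℕ → List R, (∀ j, (l j).length = n + 1) →
    (∀ j, ∀ a ∈ l j, p j * a = a ∧ a * p j = a ∧ ‖a‖ ≤ 1) →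
    ∀ ε : ℝ, 0 < ε → ¬ ∀ j, ε ≤ ‖φ (l j)‖ := by
  induction n with
  | zero =>
    intro C φ hC h p hp hpo l hl hla ε hε hcon
    have hex : ∀ j, ∃ a, l j = [a] := fun j => List.length_eq_one_iff.mp (by simpa using hl j)
    choose a ha using hex
    obtain ⟨A, hA1, hA2, hA3⟩ := hι p hp hpo a
      (fun j => (hla j (a j) (by rw [ha]; simp)).1)
      (fun j => (hla j (a j) (by rw [ha]; simp)).2.1)
      (fun j => (hla j (a j) (by rw [ha]; simp)).2.2)
    refine small_one hX h hC A hA1 hA3 ε hε ?_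
    intro j
    rw [hA2, ← ha]
    exact hcon j
  | succ n ih =>
    intro C φ hC h p hp hpo l hl hla ε hε hcon
    have hex : ∀ j, ∃ a t, l j = a :: t := fun j => by
      cases hlj : l j with
      | nil => have := hl j; rw [hlj] at this; simp at this
      | cons a t => exact ⟨a, t, rfl⟩
    choose a t hat using hex
    obtain ⟨A, hA1, hA2, hA3⟩ := hι p hp hpo a
      (fun j => (hla j (a j) (by rw [hat]; simp)).1)
      (fun j => (hla j (a j) (by rw [hat]; simp)).2.1)
      (fun j => (hla j (a j) (by rw [hat]; simp)).2.2)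
    have hvec : ∀ j, ∃ x : H, ‖x‖ < 1 ∧ ε / 2 ≤ ‖φ (l j) x‖ := by
      intro j
      obtain ⟨x, hx1, hx2⟩ := (φ (l j)).exists_lt_apply_of_lt_opNorm (r := ε / 2)
        (by have := hcon j; linarith)
      exact ⟨x, hx1, hx2.le⟩
    choose x hx1 hx2 using hvec
    have hg := fun i => exists_dual_vec (φ (l i)) (x i) (ε / 2) (hx2 i) (by linarith)
    choose g hg1 hg2 using hg
    have htn : ∀ j, nm (t j) ≤ 1 := fun j => nm_le_one _ fun b hb =>
      (hla j b (by rw [hat]; simp [hb])).2.2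
    have hopn : ∀ (j : ℕ) (S : Set ℕ), ‖φ (A S :: t j)‖ ≤ C := by
      intro j S
      refine (h.bd _).trans ?_
      rw [nm_cons]
      have := hA3 S
      have := htn j
      have h3 : ‖A S‖ * nm (t j) ≤ 1 := by
        have := norm_nonneg (A S)
        have := nm_nonneg (t j)
        nlinarith
      calc C * (‖A S‖ * nm (t j)) ≤ C * 1 := by gcongr
        _ = C := mul_one _
    have hbd : ∀ (i : ℕ) (S : Set ℕ), ‖inner ℂ (g i) (φ (A S :: t i) (x i))‖ ≤ C := by
      intro i S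
      calc _ ≤ ‖g i‖ * ‖φ (A S :: t i) (x i)‖ := norm_inner_le_norm _ _
        _ ≤ 1 * (C * 1) := by
            refine mul_le_mul (hg1 i).le ?_ (norm_nonneg _) zero_le_one
            refine (ContinuousLinearMap.le_opNorm _ _).trans ?_
            exact mul_le_mul (hopn i S) (hx1 i).le (norm_nonneg _) hC
        _ = C := by ring
    obtain ⟨J, hJ, hJm⟩ := rosenthal_real
      (fun i T => (inner ℂ (g i) (φ (A T :: t i) (x i))).re) C
      (fun i T => (Complex.abs_re_le_norm _).trans (hbd i _))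
      (by
        intro i S T hST
        show (inner ℂ (g i) (φ (A (S ∪ T) :: t i) (x i))).re = _
        rw [hA1 _ _ hST, h.lin.head_add, add_apply, inner_add_right,
          Complex.add_re])
      (ε / 4) (by linarith)
    have : Infinite J := hJ.to_subtype
    let e : ℕ ↪ J := Infinite.natEmbedding J
    refine ih (C * ‖A J‖) (fun s => φ (A J :: s)) (by positivity) (h.cur (A J))
      (fun k => p (e k)) (fun k => hp _) (fun i j hij => hpo _ _ ?_)
      (fun k => t (e k)) ?_ ?_ (ε / 4) (by linarith) ?_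
    · intro h1
      exact hij (e.injective (Subtype.ext h1))
    · intro k
      have := hl (e k)
      rw [hat] at this
      simpa using this
    · intro k b hb
      exact hla _ b (by rw [hat]; simp [hb])
    · intro k
      have h1 := hJm (e k) (e k).2
      simp only [hA2] at h1
      rw [← hat] at h1
      have h2 := hg2 (e k)
      set j : ℕ := (e k : ℕ) with hj
      have h3 : (inner ℂ (g j) (φ (A J :: t j) (x j))).re ≤ ‖φ (A J :: t j)‖ := by
        calc _ ≤ ‖inner ℂ (g j) (φ (A J :: t j) (x j))‖ := Complex.re_le_norm _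
          _ ≤ ‖g j‖ * ‖φ (A J :: t j) (x j)‖ := norm_inner_le_norm _ _
          _ ≤ 1 * (‖φ (A J :: t j)‖ * 1) := by
              refine mul_le_mul (hg1 j).le ?_ (norm_nonneg _) zero_le_one
              refine (ContinuousLinearMap.le_opNorm _ _).trans ?_
              exact mul_le_mul_of_nonneg_left (hx1 j).le (norm_nonneg _)
          _ = _ := by ring
      linarith

end Pool.Agent.HK
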