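import Pool.Agent.HK.VN7

set_option autoImplicit false
set_option linter.unusedSectionVars false

namespace Pool.Agent.HK

section gen

variable {R B : Type} [Ring R] [Ring B] [Algebra ℂ R] [Algebra ℂ B] (ι : R →ₐ[ℂ] B)

/-- the `i`-th inner face -/
def contr {k : ℕ} {S : Type} [Mul S] (a : Fin (k + 1) → S) (i : Fin k) : Fin k → S :=
  fun j => if (j : ℕ) < (i : ℕ) then a (Fin.castSucc j)
    else if j = i then a (Fin.castSucc j) * a (Fin.succ j) else a (Fin.succ j)

theorem contr_zero {k : ℕ} {S : Type} [Mul S] (a : Fin (k + 2) → S) :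
    contr a 0 = Fin.cons (a 0 * a 1) (Fin.tail (Fin.tail a)) := by
  funext j
  refine Fin.cases ?_ (fun j => ?_) j
  · simp [contr]
  · simp [contr, Fin.tail]

theorem contr_succ {k : ℕ} {S : Type} [Mul S] (a : Fin (k + 2) → S) (i : Fin k) :
    contr a i.succ = Fin.cons (a 0) (contr (Fin.tail a) i) := by
  funext j
  refine Fin.cases ?_ (fun j => ?_) j
  · simp [contr]
  · simp only [contr, Fin.cons_succ, Fin.val_succ, Fin.tail, Fin.succ_inj, 
      Fin.castSucc_succ, add_lt_add_iff_right]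

theorem E_ofFn (k : ℕ) : ∀ (a : Fin (k + 1) → R) (Φ : List R → B),
    E ι Φ (List.ofFn a) = ∑ i : Fin k, ((-1 : ℂ) ^ (i : ℕ)) • Φ (List.ofFn (contr a i)) +
      ((-1 : ℂ) ^ k) • (Φ (List.ofFn (Fin.init a)) * ι (a (Fin.last k))) := by
  induction k with
  | zero =>
    intro a Φ
    simp
  | succ k ih =>
    intro a Φ
    have e0 : List.ofFn a = a 0 :: a 1 :: List.ofFn (Fin.tail (Fin.tail a)) := by
      rw [List.ofFn_succ, List.ofFn_succ]; rfl
    have e1 : a 1 :: List.ofFn (Fin.tail (Fin.tail a)) = List.ofFn (Fin.tail a) := by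
      rw [List.ofFn_succ (f := Fin.tail a)]; rfl
    rw [e0, E_cons, e1, ih (Fin.tail a) (fun t => Φ (a 0 :: t)), Fin.sum_univ_succ]
    have e2 : List.ofFn (contr a 0) = a 0 * a 1 :: List.ofFn (Fin.tail (Fin.tail a)) := by
      rw [contr_zero, List.ofFn_succ]; simp
    have e3 : ∀ i : Fin k, List.ofFn (contr a i.succ) =
        a 0 :: List.ofFn (contr (Fin.tail a) i) := by
      intro i
      rw [contr_succ, List.ofFn_succ]; simp
    have e4 : List.ofFn (Fin.init a) = a 0 :: List.ofFn (Fin.init (Fin.tail a)) := by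
      rw [List.ofFn_succ]; rfl
    have e5 : Fin.tail a (Fin.last k) = a (Fin.last (k + 1)) := rfl
    rw [e2, e4, e5]
    simp only [e3, Fin.val_zero, pow_zero, one_smul, Fin.val_succ, pow_succ, mul_neg, mul_one,
      neg_smul, Finset.sum_neg_distrib]
    abel

theorem D_ofFn (k : ℕ) (a : Fin (k + 1) → R) (Φ : List R → B) :
    D ι Φ (List.ofFn a) = ι (a 0) * Φ (List.ofFn (Fin.tail a)) +
      ∑ i : Fin k, ((-1 : ℂ) ^ ((i : ℕ) + 1)) • Φ (List.ofFn (contr a i)) +
      ((-1 : ℂ) ^ (k + 1)) • (Φ (List.ofFn (Fin.init a)) * ι (a (Fin.last k))) := by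
  have e0 : List.ofFn a = a 0 :: List.ofFn (Fin.tail a) := by
    rw [List.ofFn_succ]; rfl
  have h := E_ofFn ι k a Φ
  rw [e0] at h ⊢
  rw [D_cons, h]
  simp only [pow_succ, mul_neg, mul_one, neg_smul, Finset.sum_neg_distrib]
  abel

theorem ofFn_update {k : ℕ} {S : Type} (a : Fin k → S) (i : Fin k) (z : S) :
    List.ofFn (Function.update a i z) =
      (List.ofFn a).take i ++ z :: (List.ofFn a).drop (i + 1) := by
  have h1 : List.ofFn (Function.update a i z) = (List.ofFn a).set i z := by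
    apply List.ext_getElem
    · simp
    · intro n h1 h2
      rw [List.getElem_set]
      simp only [List.getElem_ofFn]
      by_cases h : (i : ℕ) = n
      · have : (⟨n, by simpa using h1⟩ : Fin k) = i := Fin.ext h.symm
        rw [if_pos h, this, Function.update_self]
      · have : (⟨n, by simpa using h1⟩ : Fin k) ≠ i := fun h' => h (by rw [← h'])
        rw [if_neg h, Function.update_of_ne this]
  rw [h1, List.set_eq_take_append_cons_drop, if_pos (by simp)]

theorem exists_ofFn {S : Type} (l : List S) (k : ℕ) (h : l.length = k) :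
    ∃ a : Fin k → S, l = List.ofFn a := by
  subst h
  exact ⟨l.get, (List.ofFn_get l).symm⟩

end gen

theorem nm_ofFn {R : Type} [NormedRing R] {k : ℕ} (a : Fin k → R) :
    nm (List.ofFn a) = ∏ i, ‖a i‖ := by
  unfold nm
  rw [List.map_ofFn, List.prod_ofFn]
  rfl

end Pool.Agent.HK
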