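import Mathlib

set_option autoImplicit false

/-! von Neumann algebra facts: spectral cut-off and strong sums. -/

namespace Pool.Agent.HK

variable {H : Type} [NormedAddCommGroup H] [InnerProductSpace ℂ H] [CompleteSpace H]

theorem vn_mem_iff (M : VonNeumannAlgebra H) (x : H →L[ℂ] H) :
    x ∈ M ↔ ∀ y ∈ M.commutant, y * x = x * y := by
  conv_lhs => rw [← VonNeumannAlgebra.commutant_commutant M]
  exact VonNeumannAlgebra.mem_commutant_iff

theorem vn_commute {M : VonNeumannAlgebra H} {x y : H →L[ℂ] H} (hx : x ∈ M)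
    (hy : y ∈ M.commutant) : y * x = x * y := (vn_mem_iff M x).mp hx y hy

theorem vn_closed (M : VonNeumannAlgebra H) : IsClosed (M : Set (H →L[ℂ] H)) := by
  rw [← VonNeumannAlgebra.centralizer_centralizer M]
  exact Set.isClosed_centralizer _

theorem vn_cfc_mem (M : VonNeumannAlgebra H) (h : H →L[ℂ] H) (hh : h ∈ M) (f : ℝ → ℝ) :
    cfc f h ∈ M := by
  rw [vn_mem_iff]
  intro y hy
  have h1 : Commute h y := (vn_commute hh hy).symm
  exact (h1.cfc_real f).symm

theorem vn_range_proj (M : VonNeumannAlgebra H) (e : H →L[ℂ] H) (he : e ∈ M) :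
    ∃ r : H →L[ℂ] H, r ∈ M ∧ IsStarProjection r ∧ r * e = e ∧
      ∀ x, r x ∈ closure (Set.range e) := by
  let K : Submodule ℂ H := (LinearMap.range (e : H →ₗ[ℂ] H)).topologicalClosure
  have hKc : IsClosed (K : Set H) := Submodule.isClosed_topologicalClosure _
  have : CompleteSpace K := hKc.completeSpace_coe
  have hK : (K : Set H) = closure (Set.range e) := by
    rw [Submodule.topologicalClosure_coe]
    congr 1
  have hr : IsStarProjection K.starProjection := isStarProjection_starProjection
  refine ⟨K.starProjection, ?_, hr, ?_, ?_⟩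
  · rw [VonNeumannAlgebra.IsStarProjection.mem_iff hr M]
    intro y hy
    have hrange : (K.starProjection).range = K := by
      exact Submodule.range_starProjection K
    rw [hrange, Module.End.mem_invtSubmodule]
    intro x hx
    have hx' : x ∈ closure (Set.range e) := hK ▸ hx
    show y x ∈ K
    have hcl : IsClosed {x | y x ∈ (K : Set H)} := hKc.preimage y.continuous
    refine closure_minimal (?_ : Set.range e ⊆ {x | y x ∈ (K : Set H)}) hcl hx'
    rintro _ ⟨z, rfl⟩
    show y (e z) ∈ (K : Set H)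
    have : y (e z) = e (y z) := by
      have := vn_commute he hy
      exact congrArg (fun T : H →L[ℂ] H => T z) this
    rw [this, hK]
    exact subset_closure ⟨_, rfl⟩
  · ext x
    show K.starProjection (e x) = e x
    rw [Submodule.starProjection_eq_self_iff]
    show e x ∈ (K : Set H)
    rw [hK]
    exact subset_closure ⟨x, rfl⟩
  · intro x
    rw [← hK]
    exact Submodule.starProjection_apply_mem K x

theorem vn_cutoff (M : VonNeumannAlgebra H) (b : H →L[ℂ] H) (hb : b ∈ M) (ε : ℝ) (hε : 0 < ε) :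
    ∃ r ∈ M, IsStarProjection r ∧ ∃ e ∈ M, ∃ k ∈ M, r * e = e ∧
      (e + star b * b) * k = 1 ∧ ‖b * r‖ ≤ ε := by
  set h : H →L[ℂ] H := star b * b with hdef
  have hM : h ∈ M := mul_mem (star_mem hb) hb
  have hpos : 0 ≤ h := star_mul_self_nonneg b
  have hsa : IsSelfAdjoint h := IsSelfAdjoint.of_nonneg hpos
  have hspec : ∀ t ∈ spectrum ℝ h, 0 ≤ t := fun t ht => spectrum_nonneg_of_nonneg hpos ht
  let f : ℝ → ℝ := fun t => max 0 (1 - t / ε ^ 2)
  have hfc : Continuous f := by fun_prop
  have hft : ∀ t, 0 ≤ t → 0 < f t + t := by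
    intro t ht
    by_cases h0 : t = 0
    · subst h0; simp [f]
    · have : 0 < t := lt_of_le_of_ne ht (Ne.symm h0)
      have h1 : 0 ≤ f t := le_max_left _ _
      linarith
  set e := cfc f h with hedef
  have heM : e ∈ M := vn_cfc_mem M h hM f
  have hesa : IsSelfAdjoint e := cfc_predicate f h
  obtain ⟨r, hrM, hr, hre, hrcl⟩ := vn_range_proj M e heM
  let g : ℝ → ℝ := fun t => (f t + t)⁻¹
  have hgc : ContinuousOn g (spectrum ℝ h) := by
    apply ContinuousOn.inv₀
    · exact (hfc.add continuous_id).continuousOn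
    · intro t ht
      exact (hft t (hspec t ht)).ne'
  refine ⟨r, hrM, hr, e, heM, cfc g h, vn_cfc_mem M h hM g, hre, ?_, ?_⟩
  · have e1 : e + h = cfc (fun t => f t + t) h := by
      rw [cfc_add h f (fun t => t) hfc.continuousOn continuous_id.continuousOn]
      congr 1
      exact (cfc_id ℝ h).symm
    rw [e1, ← cfc_mul (fun t => f t + t) g h (hfc.add continuous_id).continuousOn hgc]
    have e2 : cfc (fun t => (f t + t) * g t) h = cfc (fun _ => (1 : ℝ)) h := by
      apply cfc_congr
      intro t ht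
      exact mul_inv_cancel₀ (hft t (hspec t ht)).ne'
    rw [e2, cfc_const_one ℝ h]
  · -- the norm estimate
    have hT : 0 ≤ cfc (fun t => (ε ^ 2 - t) * (f t * f t)) h := by
      apply cfc_nonneg
      intro t ht
      rcases le_or_gt t (ε ^ 2) with h1 | h1
      · have := mul_self_nonneg (f t)
        exact mul_nonneg (by linarith) this
      · have h2 : f t = 0 := by
          simp only [f]
          apply max_eq_left
          have : 1 < t / ε ^ 2 := by
            rw [one_lt_div (by positivity)]; exact h1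
          linarith
        rw [h2]; simp
    have hTeq : cfc (fun t => (ε ^ 2 - t) * (f t * f t)) h =
        (ε ^ 2 : ℝ) • (e * e) - h * (e * e) := by
      have e1 : cfc (fun t => (ε ^ 2 - t) * (f t * f t)) h =
          cfc (fun t => ε ^ 2 - t) h * cfc (fun t => f t * f t) h :=
        cfc_mul (fun t => ε ^ 2 - t) (fun t => f t * f t) h (by fun_prop)
          (hfc.mul hfc).continuousOn
      have e2 : cfc (fun t => f t * f t) h = e * e :=
        cfc_mul f f h hfc.continuousOn hfc.continuousOn
      have e3 : cfc (fun t => ε ^ 2 - t) h = algebraMap ℝ _ (ε ^ 2) - h := by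
        rw [cfc_sub (fun _ => ε ^ 2) (fun t => t) h continuous_const.continuousOn
          continuous_id.continuousOn, cfc_const (ε ^ 2) h]
        congr 1
        exact cfc_id ℝ h
      rw [e1, e2, e3, sub_mul, Algebra.smul_def]
    rw [hTeq] at hT
    have hcomm : Commute h e := by
      have : Commute e h := (Commute.refl h).cfc_real f
      exact this.symm
    have hbe : ∀ x, ‖b (e x)‖ ≤ ε * ‖e x‖ := by
      intro x
      have h1 := (ContinuousLinearMap.nonneg_iff_isPositive _).mp hT
      have h2 := h1.re_inner_nonneg_left x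
      have h3 : ((ε ^ 2 : ℝ) • (e * e) - h * (e * e)) x =
          ((ε ^ 2 : ℝ) : ℂ) • e (e x) - h (e (e x)) := rfl
      have hadj : ∀ y z, inner ℂ (e y) z = inner ℂ y (e z) := by
        intro y z
        have h2 := ContinuousLinearMap.adjoint_inner_left e z y
        have h3 : ContinuousLinearMap.adjoint e = e := hesa.star_eq
        rw [h3] at h2
        exact h2
      have hhe : h (e (e x)) = e (h (e x)) := by
        have := congrArg (fun T : H →L[ℂ] H => T (e x)) hcomm.eq
        exact this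
      have hh : inner ℂ (h (e x)) (e x) = ((‖b (e x)‖ : ℂ)) ^ 2 := by
        have e4 : h (e x) = ContinuousLinearMap.adjoint b (b (e x)) := rfl
        rw [e4, ContinuousLinearMap.adjoint_inner_left, inner_self_eq_norm_sq_to_K]
        rfl
      rw [h3, hhe, inner_sub_left, inner_smul_left, hadj (e x) x, hadj (h (e x)) x, hh,
        inner_self_eq_norm_sq_to_K] at h2
      have h4 : (0 : ℝ) ≤ ε ^ 2 * ‖e x‖ ^ 2 - ‖b (e x)‖ ^ 2 := by
        have h5 : RCLike.re ((starRingEnd ℂ) ((ε ^ 2 : ℝ) : ℂ) * ((‖e x‖ : ℂ)) ^ 2 -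
            ((‖b (e x)‖ : ℂ)) ^ 2) = ε ^ 2 * ‖e x‖ ^ 2 - ‖b (e x)‖ ^ 2 := by
          rw [Complex.conj_ofReal]
          have : (((ε ^ 2 : ℝ) : ℂ) * ((‖e x‖ : ℂ)) ^ 2 - ((‖b (e x)‖ : ℂ)) ^ 2) =
              ((ε ^ 2 * ‖e x‖ ^ 2 - ‖b (e x)‖ ^ 2 : ℝ) : ℂ) := by push_cast; ring
          rw [this]
          exact Complex.ofReal_re _
        rw [← h5]
        exact h2
      have h5 : ‖b (e x)‖ ^ 2 ≤ (ε * ‖e x‖) ^ 2 := by rw [mul_pow]; linarith
      exact (pow_le_pow_iff_left₀ (norm_nonneg _) (by positivity) two_ne_zero).mp h5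
    refine ContinuousLinearMap.opNorm_le_bound _ hε.le fun x => ?_
    have hcl : IsClosed {z : H | ‖b z‖ ≤ ε * ‖z‖} :=
      isClosed_le (b.continuous.norm) (continuous_const.mul continuous_norm)
    have h1 : r x ∈ {z : H | ‖b z‖ ≤ ε * ‖z‖} := by
      refine closure_minimal (?_ : Set.range e ⊆ _) hcl (hrcl x)
      rintro _ ⟨z, rfl⟩
      exact hbe z
    have h2 : ‖b (r x)‖ ≤ ε * ‖r x‖ := h1
    have h3 : ‖r‖ ≤ 1 := by
      have h1 : ‖r‖ * ‖r‖ = ‖r‖ := by
        rw [← CStarRing.norm_star_mul_self, hr.isSelfAdjoint.star_eq, hr.isIdempotentElem.eq]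
      by_contra hcon
      push Not at hcon
      nlinarith
    calc ‖(b * r) x‖ = ‖b (r x)‖ := rfl
      _ ≤ ε * ‖r x‖ := h2
      _ ≤ ε * (‖r‖ * ‖x‖) := by gcongr; exact r.le_opNorm x
      _ ≤ ε * (1 * ‖x‖) := by gcongr
      _ = ε * ‖x‖ := by ring

end Pool.Agent.HK
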