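import Pool.Agent.HK.Main

set_option autoImplicit false
set_option linter.unusedSectionVars false

namespace Pool.Agent.HK

variable {H : Type} [NormedAddCommGroup H] [InnerProductSpace ℂ H] [CompleteSpace H]

/-- The centre of a von Neumann algebra. -/
noncomputable def cen (M : VonNeumannAlgebra H) : VonNeumannAlgebra H where
  toStarSubalgebra := StarSubalgebra.centralizer ℂ ((M : Set (H →L[ℂ] H)) ∪ M.commutant)
  centralizer_centralizer' := by simp

theorem mem_cen {M : VonNeumannAlgebra H} {x : H →L[ℂ] H} :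
    x ∈ cen M ↔ x ∈ M ∧ x ∈ M.commutant := by
  have h1 : x ∈ cen M ↔ ∀ g ∈ ((M : Set (H →L[ℂ] H)) ∪ M.commutant), g * x = x * g ∧
      star g * x = x * star g := StarSubalgebra.mem_centralizer_iff ℂ
  rw [h1]
  constructor
  · intro h
    constructor
    · rw [vn_mem_iff]
      intro y hy
      exact (h y (Or.inr hy)).1
    · rw [VonNeumannAlgebra.mem_commutant_iff]
      intro g hg
      exact (h g (Or.inl hg)).1
  · rintro ⟨h1, h2⟩ g (hg | hg)
    · exact ⟨VonNeumannAlgebra.mem_commutant_iff.mp h2 g hg,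
        VonNeumannAlgebra.mem_commutant_iff.mp h2 _ (star_mem hg)⟩
    · exact ⟨vn_commute h1 hg, vn_commute h1 (star_mem (hg : g ∈ M.commutant))⟩

theorem cen_comm (M : VonNeumannAlgebra H) : ∀ x ∈ cen M, ∀ y ∈ cen M, x * y = y * x := by
  intro x hx y hy
  exact VonNeumannAlgebra.mem_commutant_iff.mp (mem_cen.mp hy).2 x (mem_cen.mp hx).1

/-- A commutative von Neumann algebra as a commutative Banach algebra. -/
def RM (M : VonNeumannAlgebra H) (_hM : ∀ x ∈ M, ∀ y ∈ M, x * y = y * x) : Type :=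
  ↥M.toStarSubalgebra

section inst

variable (M : VonNeumannAlgebra H) (hM : ∀ x ∈ M, ∀ y ∈ M, x * y = y * x)

noncomputable instance : NormedCommRing (RM M hM) :=
  { (inferInstance : NormedRing ↥M.toStarSubalgebra) with
    mul_comm := fun a b => Subtype.ext (hM a.1 a.2 b.1 b.2) }

noncomputable instance : NormedAlgebra ℂ (RM M hM) :=
  inferInstanceAs (NormedAlgebra ℂ ↥M.toStarSubalgebra)

instance : CompleteSpace (RM M hM) := by
  have : IsClosed (M.toStarSubalgebra : Set (H →L[ℂ] H)) := vn_closed M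
  exact this.completeSpace_coe

/-- the inclusion -/
noncomputable def inc : RM M hM →ₐ[ℂ] (H →L[ℂ] H) := M.toStarSubalgebra.subtype.toAlgHom

theorem inc_apply (a : RM M hM) : inc M hM a = a.1 := rfl

theorem inc_norm (a : RM M hM) : ‖inc M hM a‖ = ‖a‖ := rfl

theorem inc_inj {a b : RM M hM} (h : inc M hM a = inc M hM b) : a = b := Subtype.ext h

theorem pr_iff {r : RM M hM} : Pr (inc M hM) r ↔ IsStarProjection (inc M hM r) := by
  constructor
  · intro h
    refine ⟨?_, h.2⟩
    show inc M hM r * inc M hM r = inc M hM r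
    rw [← map_mul, h.1]
  · intro h
    refine ⟨?_, h.isSelfAdjoint⟩
    apply inc_inj
    rw [map_mul]
    exact h.isIdempotentElem.eq

theorem vn_P1 (χ : RM M hM →ₐ[ℂ] ℂ) (b : RM M hM) (hb : χ b = 0) (ε : ℝ) (hε : 0 < ε) :
    ∃ r, Pr (inc M hM) r ∧ χ r = 1 ∧ ‖b * r‖ ≤ ε := by
  obtain ⟨r, hrM, hr, e, heM, k, hkM, hre, hk, hn⟩ := vn_cutoff M (inc M hM b) b.2 ε hε
  let r' : RM M hM := ⟨r, hrM⟩
  let e' : RM M hM := ⟨e, heM⟩
  let k' : RM M hM := ⟨k, hkM⟩
  let b' : RM M hM := ⟨star (inc M hM b), star_mem b.2⟩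
  have h1 : r' * e' = e' := inc_inj M hM (by rw [map_mul]; exact hre)
  have h2 : (e' + b' * b) * k' = 1 := inc_inj M hM (by
    rw [map_mul, map_add, map_mul, map_one]; exact hk)
  have h3 : χ e' ≠ 0 := by
    intro h0
    have := congrArg χ h2
    rw [map_mul, map_add, map_mul, hb, h0, mul_zero, add_zero, zero_mul, map_one] at this
    exact zero_ne_one this
  refine ⟨r', (pr_iff M hM).mpr hr, ?_, ?_⟩
  · have := congrArg χ h1
    rw [map_mul] at this
    exact mul_right_cancel₀ h3 (by rw [this, one_mul])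
  · rw [← inc_norm, map_mul]
    exact hn

end inst

section noncomm

variable (M : VonNeumannAlgebra H)

/-- the von Neumann algebra as a Banach algebra -/
abbrev RA : Type := ↥M.toStarSubalgebra

/-- the centre as a commutative Banach algebra -/
abbrev ZA : Type := RM (cen M) (cen_comm M)

/-- inclusion of the algebra in the operators -/
noncomputable def io : RA M →ₐ[ℂ] (H →L[ℂ] H) := M.toStarSubalgebra.subtype.toAlgHom

theorem io_apply (a : RA M) : io M a = a.1 := rfl

theorem io_norm (a : RA M) : ‖io M a‖ = ‖a‖ := rfl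

theorem io_inj {a b : RA M} (h : io M a = io M b) : a = b := Subtype.ext h

/-- inclusion of the centre -/
noncomputable def ic : ZA M →ₐ[ℂ] RA M where
  toFun x := ⟨inc _ _ x, (mem_cen.mp x.2).1⟩
  map_one' := rfl
  map_mul' _ _ := rfl
  map_zero' := rfl
  map_add' _ _ := rfl
  commutes' _ := rfl

theorem io_ic (x : ZA M) : io M (ic M x) = inc _ _ x := rfl

theorem io_comp_ic : (io M).comp (ic M) = inc _ (cen_comm M) := rfl

theorem ic_norm (x : ZA M) : ‖ic M x‖ = ‖x‖ := rfl

theorem ic_central (x : ZA M) (a : RA M) : ic M x * a = a * ic M x := by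
  apply io_inj
  rw [map_mul, map_mul, io_ic]
  exact (VonNeumannAlgebra.mem_commutant_iff.mp (mem_cen.mp x.2).2 a.1 a.2).symm

theorem prA_iff {r : RA M} : Pr (io M) r ↔ IsStarProjection (io M r) := by
  constructor
  · intro h
    refine ⟨?_, h.2⟩
    show io M r * io M r = io M r
    rw [← map_mul, h.1]
  · intro h
    refine ⟨?_, h.isSelfAdjoint⟩
    apply io_inj
    rw [map_mul]
    exact h.isIdempotentElem.eq

theorem vn_hasSums : HasSums (io M) := by
  intro p hp horth a hpa hap ha
  obtain ⟨A, hA1, hA2, hA3, hA4⟩ := vn_sum M (fun j => io M (p j)) (fun j => io M (a j))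
    (fun j => (a j).2) (fun j => (prA_iff M).mp (hp j))
    (fun i j hij => by rw [← map_mul, horth i j hij, map_zero])
    (fun j => by rw [← map_mul, hpa]) (fun j => by rw [← map_mul, hap]) (fun j => ha j)
  let A' : Set ℕ → RA M := fun S => ⟨A S, hA1 S⟩
  refine ⟨A', ?_, ?_, ?_⟩
  · intro S T hST
    apply io_inj
    rw [map_add]
    exact hA2 S T hST
  · intro j
    apply io_inj
    exact hA3 j
  · intro S
    exact hA4 S

end noncomm

end Pool.Agent.HK
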