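import Pool.Agent.HK.VN3
import Pool.Agent.HK.Defs

set_option autoImplicit false
set_option linter.unusedSectionVars false

namespace Pool.Agent.HK

variable {H : Type} [NormedAddCommGroup H] [InnerProductSpace ℂ H] [CompleteSpace H]

theorem mul_right_of_star_mul {v z : H →L[ℂ] H} (h : star v * v = z) (hz : z * z = z)
    (hzs : star z = z) : v * z = v := by
  have h1 : star (v - v * z) * (v - v * z) = 0 := by
    rw [star_sub, star_mul, hzs, sub_mul, mul_sub, mul_sub]
    have e1 : star v * (v * z) = z * z := by rw [← mul_assoc, h]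
    have e2 : z * star v * v = z * z := by rw [mul_assoc, h]
    have e3 : z * star v * (v * z) = z * z * z := by
      rw [mul_assoc, ← mul_assoc (star v), h, ← mul_assoc]
    rw [h, e1, e2, e3, hz, hz]
    simp
  have h2 : v - v * z = 0 := by
    rw [← norm_eq_zero]
    have := CStarRing.norm_star_mul_self (x := v - v * z)
    rw [h1, norm_zero] at this
    exact (mul_self_eq_zero.mp this.symm)
  rw [sub_eq_zero] at h2
  exact h2.symm

theorem norm_le_one_of_star_mul {v z : H →L[ℂ] H} (h : star v * v = z) (hz : z * z = z)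
    (hzs : star z = z) : ‖v‖ ≤ 1 := by
  have h0 : ‖z‖ ≤ 1 := by
    have h1 : ‖z‖ * ‖z‖ = ‖z‖ := by
      rw [← CStarRing.norm_star_mul_self, hzs, hz]
    by_contra hcon
    push Not at hcon
    nlinarith
  have h1 : ‖v‖ * ‖v‖ ≤ 1 := by
    rw [← CStarRing.norm_star_mul_self, h]; exact h0
  by_contra hcon
  push Not at hcon
  nlinarith

theorem pinf_seq {z v w : H →L[ℂ] H}
    (hv : star v * v = z) (hw : star w * w = z) (hvw : star v * w = 0) (hzv : z * v = v)
    (hzw : z * w = w) :
    (∀ i, star (v ^ i * w) * (v ^ i * w) = z) ∧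
      ∀ i j, i ≠ j → star (v ^ i * w) * (v ^ j * w) = 0 := by
  have hwv : star w * v = 0 := by
    have := congrArg star hvw
    rwa [star_mul, star_star, star_zero] at this
  -- `star (v^i) * v^i * x = x` whenever `z x = x`
  have hpow : ∀ (i : ℕ) (x : H →L[ℂ] H), z * x = x → star (v ^ i) * (v ^ i * x) = x := by
    intro i
    induction i with
    | zero => intro x _; simp
    | succ i ih =>
      intro x hx
      rw [pow_succ', star_mul]
      calc star (v ^ i) * star v * (v * v ^ i * x) = star (v ^ i) * (star v * v * (v ^ i * x)) := by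
            simp only [mul_assoc]
        _ = star (v ^ i) * (z * (v ^ i * x)) := by rw [hv]
        _ = star (v ^ i) * (v ^ i * x) := by
            have : z * (v ^ i * x) = v ^ i * x := by
              cases i with
              | zero => simpa using hx
              | succ i => rw [pow_succ', mul_assoc, ← mul_assoc, hzv]
            rw [this]
        _ = x := ih x hx
  have hlt : ∀ i k, star (v ^ i * w) * (v ^ (i + 1 + k) * w) = 0 := by
    intro i k
    have e1 : v ^ (i + 1 + k) * w = v ^ i * (v * (v ^ k * w)) := by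
      rw [show i + 1 + k = i + (1 + k) by ring, pow_add, pow_add, pow_one]
      simp only [mul_assoc]
    have e2 : z * (v * (v ^ k * w)) = v * (v ^ k * w) := by rw [← mul_assoc, hzv]
    rw [star_mul, mul_assoc, e1, hpow i _ e2, ← mul_assoc, hwv, zero_mul]
  refine ⟨?_, ?_⟩
  · intro i
    rw [star_mul, mul_assoc, hpow i w hzw, hw]
  · intro i j hij
    rcases lt_or_gt_of_ne hij with h | h
    · obtain ⟨k, rfl⟩ := Nat.exists_eq_add_of_le (Nat.succ_le_of_lt h)
      exact hlt i k
    · obtain ⟨k, rfl⟩ := Nat.exists_eq_add_of_le (Nat.succ_le_of_lt h)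
      have := congrArg star (hlt j k)
      rw [star_mul, star_star, star_zero] at this
      exact this

theorem pinf_of (M : VonNeumannAlgebra H) (z : ZA M) (hz : Pr (inc _ (cen_comm M)) z)
    (h : IsPropInf (M : Set (H →L[ℂ] H)) (inc _ _ z)) : Nonempty (PInf (ic M) (io M) z) := by
  obtain ⟨v, hvM, w, hwM, hv, hw, hvw⟩ := h
  set Z := inc _ (cen_comm M) z with hZ
  have hZZ : Z * Z = Z := by rw [hZ, ← map_mul, hz.1]
  have hZs : star Z = Z := hz.2.star_eq
  have hcomm : ∀ a ∈ M, Z * a = a * Z := fun a ha =>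
    (VonNeumannAlgebra.mem_commutant_iff.mp (mem_cen.mp z.2).2 a ha).symm
  have hvz : v * Z = v := mul_right_of_star_mul hv hZZ hZs
  have hwz : w * Z = w := mul_right_of_star_mul hw hZZ hZs
  have hzv : Z * v = v := by rw [hcomm v hvM, hvz]
  have hzw : Z * w = w := by rw [hcomm w hwM, hwz]
  obtain ⟨h1, h2⟩ := pinf_seq hv hw hvw hzv hzw
  have hVM : ∀ i, v ^ i * w ∈ M := fun i => mul_mem (pow_mem hvM i) hwM
  let V : ℕ → RA M := fun i => ⟨v ^ i * w, hVM i⟩
  let W : ℕ → RA M := fun i => ⟨star (v ^ i * w), star_mem (hVM i)⟩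
  have hVZ : ∀ i, v ^ i * w * Z = v ^ i * w := fun i => by rw [mul_assoc, hwz]
  refine ⟨⟨V, W, ?_, ?_, ?_, ?_, ?_, ?_, ?_⟩⟩
  · intro i
    apply io_inj
    rw [map_mul]
    exact h1 i
  · intro i
    apply io_inj
    rw [map_mul]
    exact hVZ i
  · intro i
    apply io_inj
    rw [map_mul]
    show Z * star (v ^ i * w) = star (v ^ i * w)
    have := congrArg star (hVZ i)
    rwa [star_mul, hZs] at this
  · intro i
    exact norm_le_one_of_star_mul (h1 i) hZZ hZs
  · intro i
    show ‖star (v ^ i * w)‖ ≤ 1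
    rw [norm_star]
    exact norm_le_one_of_star_mul (h1 i) hZZ hZs
  · intro i
    refine ⟨?_, ?_⟩
    · apply io_inj
      rw [map_mul, map_mul]
      show v ^ i * w * star (v ^ i * w) * (v ^ i * w * star (v ^ i * w)) =
        v ^ i * w * star (v ^ i * w)
      calc _ = v ^ i * w * (star (v ^ i * w) * (v ^ i * w)) * star (v ^ i * w) := by
            simp only [mul_assoc]
        _ = _ := by rw [h1, hVZ]
    · rw [map_mul]
      show IsSelfAdjoint (v ^ i * w * star (v ^ i * w))
      exact IsSelfAdjoint.mul_star_self _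
  · intro i j hij
    apply io_inj
    rw [map_mul, map_zero]
    exact h2 i j hij

end Pool.Agent.HK
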