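import Pool.Agent.HK.VN4

set_option autoImplicit false
set_option linter.unusedSectionVars false

/-! Homogeneous finite type I pieces of a von Neumann algebra: matrix coefficients. -/

namespace Pool.Agent.HK

variable {H : Type} [NormedAddCommGroup H] [InnerProductSpace ℂ H] [CompleteSpace H]

/-- matrix units in `M` with abelian diagonal -/
structure MU (M : VonNeumannAlgebra H) (z : H →L[ℂ] H) (k : ℕ)
    (e : Fin k → Fin k → (H →L[ℂ] H)) : Prop where
  mem : ∀ i j, e i j ∈ M
  st : ∀ i j, star (e i j) = e j i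
  mul : ∀ i j l m, e i j * e l m = if j = l then e i m else 0
  sum : ∑ i, e i i = z
  ab : ∀ i, ∀ a ∈ M, ∀ b ∈ M, e i i * a * e i i * b * e i i = e i i * b * e i i * a * e i i
  cen : ∀ a ∈ M, z * a = a * z

namespace MU

variable {M : VonNeumannAlgebra H} {z : H →L[ℂ] H} {k : ℕ} {e : Fin k → Fin k → (H →L[ℂ] H)}
  (S : MU M z k e)

include S

theorem mul_same (i j l : Fin k) : e i j * e j l = e i l := by rw [S.mul, if_pos rfl]

theorem z_mul (i j : Fin k) : z * e i j = e i j := by
  rw [← S.sum, Finset.sum_mul]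
  simp only [S.mul]
  simp

theorem mul_z (i j : Fin k) : e i j * z = e i j := by
  rw [← S.sum, Finset.mul_sum]
  simp only [S.mul]
  simp

theorem z_mem : z ∈ M := by
  rw [← S.sum]
  exact sum_mem fun i _ => S.mem i i

theorem zz : z * z = z := by
  calc z * z = (∑ i, e i i) * z := by rw [S.sum]
    _ = ∑ i, e i i * z := Finset.sum_mul _ _ _
    _ = ∑ i, e i i := Finset.sum_congr rfl fun i _ => S.mul_z i i
    _ = z := S.sum

/-- the matrix coefficient -/
def co (e : Fin k → Fin k → (H →L[ℂ] H)) (a : H →L[ℂ] H) (i j : Fin k) : H →L[ℂ] H :=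
  ∑ l, e l i * a * e j l

theorem co_mem {a : H →L[ℂ] H} (ha : a ∈ M) (i j : Fin k) : co e a i j ∈ M :=
  sum_mem fun l _ => mul_mem (mul_mem (S.mem l i) ha) (S.mem j l)

theorem z_co (a : H →L[ℂ] H) (i j : Fin k) : z * co e a i j = co e a i j := by
  unfold co
  rw [Finset.mul_sum]
  refine Finset.sum_congr rfl fun l _ => ?_
  rw [← mul_assoc, ← mul_assoc, S.z_mul]

theorem co_z (a : H →L[ℂ] H) (i j : Fin k) : co e a i j * z = co e a i j := by
  unfold co
  rw [Finset.sum_mul]
  refine Finset.sum_congr rfl fun l _ => ?_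
  rw [mul_assoc, S.mul_z]

theorem co_right (a : H →L[ℂ] H) (i j q m : Fin k) :
    co e a i j * e q m = e q i * a * e j m := by
  unfold co
  rw [Finset.sum_mul]
  rw [Finset.sum_eq_single q]
  · rw [mul_assoc, S.mul_same]
  · intro l _ hl
    rw [mul_assoc, S.mul, if_neg hl, mul_zero]
  · intro h; exact absurd (Finset.mem_univ q) h

theorem co_left (a : H →L[ℂ] H) (i j q m : Fin k) :
    e q m * co e a i j = e q i * a * e j m := by
  unfold co
  rw [Finset.mul_sum]
  rw [Finset.sum_eq_single m]
  · rw [← mul_assoc, ← mul_assoc, S.mul_same]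
  · intro l _ hl
    rw [← mul_assoc, ← mul_assoc, S.mul, if_neg (Ne.symm hl), zero_mul, zero_mul]
  · intro h; exact absurd (Finset.mem_univ m) h

theorem co_comm {a : H →L[ℂ] H} (ha : a ∈ M) (i j : Fin k) {g : H →L[ℂ] H} (hg : g ∈ M) :
    g * co e a i j = co e a i j * g := by
  have hz : ∀ y : H →L[ℂ] H, z * y * z = ∑ p, ∑ q, e p p * y * e q q := by
    intro y
    conv_lhs => rw [← S.sum]
    simp only [Finset.sum_mul, Finset.mul_sum]
    exact Finset.sum_comm
  have h1 : g * co e a i j = z * (g * co e a i j) * z := by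
    calc g * co e a i j = g * (z * co e a i j) * z := by rw [S.z_co, mul_assoc, S.co_z]
      _ = _ := by rw [← mul_assoc, ← S.cen g hg, mul_assoc z]
  have h2 : co e a i j * g = z * (co e a i j * g) * z := by
    calc co e a i j * g = z * (co e a i j * z * g) := by
          rw [S.co_z, ← mul_assoc, S.z_co]
      _ = _ := by rw [mul_assoc (co e a i j), S.cen g hg]; simp only [mul_assoc]
  rw [h1, h2, hz, hz]
  refine Finset.sum_congr rfl fun p _ => Finset.sum_congr rfl fun q _ => ?_
  have hA := S.ab p (g * e q p) (mul_mem hg (S.mem q p)) (e p i * a * e j p)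
    (mul_mem (mul_mem (S.mem p i) ha) (S.mem j p))
  have e1 : e p p * (g * co e a i j) * e q q = e p p * g * (e q i * a * e j q) := by
    rw [← mul_assoc, mul_assoc, S.co_right]
  have e2 : e p p * (co e a i j * g) * e q q = e p i * a * e j p * g * e q q := by
    rw [← mul_assoc, S.co_left]
  rw [e1, e2]
  have e3 : e p p * g * (e q i * a * e j q) =
      (e p p * (g * e q p) * e p p * (e p i * a * e j p) * e p p) * e p q := by
    calc _ = e p p * g * ((e q p * e p i) * a * (e j p * e p q)) := by
          simp only [S.mul_same]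
      _ = e p p * g * (((e q p * e p p) * e p i) * a * (e j p * (e p p * e p q))) := by
          simp only [S.mul_same]
      _ = _ := by simp only [mul_assoc]
  have e4 : e p i * a * e j p * g * e q q =
      (e p p * (e p i * a * e j p) * e p p * (g * e q p) * e p p) * e p q := by
    calc _ = e p i * a * e j p * g * (e q p * e p q) := by simp only [S.mul_same]
      _ = (e p p * e p i) * a * (e j p * e p p) * g * (e q p * (e p p * e p q)) := by
          simp only [S.mul_same]
      _ = _ := by simp only [mul_assoc]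
  rw [e3, e4, hA]

theorem co_cen {a : H →L[ℂ] H} (ha : a ∈ M) (i j : Fin k) : co e a i j ∈ HK.cen M :=
  mem_cen.mpr ⟨S.co_mem ha i j, VonNeumannAlgebra.mem_commutant_iff.mpr fun _ hg =>
    S.co_comm ha i j hg⟩

theorem co_lin (t : ℂ) (a b : H →L[ℂ] H) (i j : Fin k) :
    co e (t • a + b) i j = t • co e a i j + co e b i j := by
  simp only [co, mul_add, add_mul, mul_smul_comm, smul_mul_assoc, Finset.sum_add_distrib,
    Finset.smul_sum]

theorem co_mul {a b : H →L[ℂ] H} (hb : b ∈ M) (i j : Fin k) :
    co e (a * b) i j = ∑ m, co e a i m * co e b m j := by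
  have h1 : ∀ m, co e a i m * co e b m j = ∑ l, e l i * a * e m m * b * e j l := by
    intro m
    conv_lhs => rw [co]
    rw [Finset.sum_mul]
    refine Finset.sum_congr rfl fun l _ => ?_
    rw [mul_assoc, S.co_left]
    simp only [mul_assoc]
  simp only [h1]
  rw [Finset.sum_comm]
  unfold co
  refine Finset.sum_congr rfl fun l _ => ?_
  have h2 : ∑ m, e l i * a * e m m * b * e j l = e l i * a * z * b * e j l := by
    rw [← S.sum]
    simp only [Finset.mul_sum, Finset.sum_mul]
  rw [h2]
  calc _ = e l i * a * (b * e j l) := by simp only [mul_assoc]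
    _ = e l i * a * (b * (z * e j l)) := by rw [S.z_mul]
    _ = e l i * a * ((b * z) * e j l) := by simp only [mul_assoc]
    _ = _ := by rw [← S.cen b hb]; simp only [mul_assoc]

theorem co_c {w : H →L[ℂ] H} (hw : ∀ a ∈ M, w * a = a * w) (a : H →L[ℂ] H) (i j : Fin k) :
    co e (w * a) i j = w * co e a i j := by
  unfold co
  rw [Finset.mul_sum]
  refine Finset.sum_congr rfl fun l _ => ?_
  rw [← mul_assoc, ← hw _ (S.mem l i)]
  simp only [mul_assoc]

theorem co_e (p q i j : Fin k) : co e (e p q) i j = if i = p ∧ j = q then z else 0 := by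
  unfold co
  by_cases h1 : i = p
  · by_cases h2 : j = q
    · subst h1 h2
      rw [if_pos ⟨rfl, rfl⟩, ← S.sum]
      refine Finset.sum_congr rfl fun l _ => ?_
      rw [S.mul_same, S.mul_same]
    · rw [if_neg fun h => h2 h.2]
      refine Finset.sum_eq_zero fun l _ => ?_
      rw [mul_assoc, S.mul p q, if_neg (Ne.symm h2), mul_zero]
  · rw [if_neg fun h => h1 h.1]
    refine Finset.sum_eq_zero fun l _ => ?_
    rw [S.mul l i, if_neg h1, zero_mul]

theorem co_exp {a : H →L[ℂ] H} (ha : a ∈ M) :
    z * a = ∑ i, ∑ j, co e a i j * e i j := by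
  have h1 : ∀ i j, co e a i j * e i j = e i i * a * e j j := fun i j => S.co_right a i j i j
  simp only [h1]
  have h2 : z * a = z * a * z := by
    rw [mul_assoc, ← S.cen a ha, ← mul_assoc, S.zz]
  rw [h2, ← S.sum]
  simp only [Finset.sum_mul, Finset.mul_sum]
  exact Finset.sum_comm

theorem co_star (a : H →L[ℂ] H) (i j : Fin k) : co e (star a) i j = star (co e a j i) := by
  unfold co
  rw [star_sum]
  refine Finset.sum_congr rfl fun l _ => ?_
  rw [star_mul, star_mul, S.st, S.st]
  simp only [mul_assoc]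

theorem e_norm (i j : Fin k) : ‖e i j‖ ≤ 1 := by
  refine norm_le_one_of_star_mul (z := e j j) ?_ (S.mul_same j j j) (S.st j j)
  rw [S.st, S.mul_same]

end MU

end Pool.Agent.HK
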