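import Pool.Agent.HK.VN5

set_option autoImplicit false
set_option linter.unusedSectionVars false

namespace Pool.Agent.HK

variable {H : Type} [NormedAddCommGroup H] [InnerProductSpace ℂ H] [CompleteSpace H]

/-- characters of a commutative von Neumann algebra preserve the star -/
theorem char_star (N : VonNeumannAlgebra H) (hN : ∀ x ∈ N, ∀ y ∈ N, x * y = y * x)
    (χ : RM N hN →ₐ[ℂ] ℂ) (x y : RM N hN) (hxy : inc N hN y = star (inc N hN x)) :
    χ y = star (χ x) := by
  let _ : CStarAlgebra ↥N.toStarSubalgebra :=
    StarSubalgebra.cstarAlgebra N.toStarSubalgebra (h_closed := vn_closed N)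
  let χ' : ↥N.toStarSubalgebra →ₐ[ℂ] ℂ :=
    { toFun := fun x => χ x
      map_one' := map_one χ
      map_mul' := fun a b => map_mul χ a b
      map_zero' := map_zero χ
      map_add' := fun a b => map_add χ a b
      commutes' := fun t => AlgHomClass.commutes χ t }
  have hS : StarHomClass (↥N.toStarSubalgebra →ₐ[ℂ] ℂ) ↥N.toStarSubalgebra ℂ :=
    AlgHomClass.instStarHomClass
  have h1 : χ' (star (x : ↥N.toStarSubalgebra)) = star (χ' x) := map_star χ' x
  have h2 : y = (star (x : ↥N.toStarSubalgebra) : ↥N.toStarSubalgebra) := Subtype.ext hxy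
  rw [h2]
  exact h1

section contr

variable {M : VonNeumannAlgebra H} {z : H →L[ℂ] H} {k : ℕ} {e : Fin k → Fin k → (H →L[ℂ] H)}
  (S : MU M z k e)

/-- the coefficient in the centre -/
noncomputable def MU.coZ (S : MU M z k e) (a : RA M) (i j : Fin k) : ZA M :=
  ⟨MU.co e a.1 i j, S.co_cen a.2 i j⟩

theorem MU.inc_coZ (a : RA M) (i j : Fin k) : inc _ _ (S.coZ a i j) = MU.co e (io M a) i j := rfl

theorem MU.coZ_lin (t : ℂ) (a b : RA M) (i j : Fin k) :
    S.coZ (t • a + b) i j = t • S.coZ a i j + S.coZ b i j := by
  apply inc_inj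
  rw [map_add, map_smul, S.inc_coZ, S.inc_coZ, S.inc_coZ, map_add, map_smul]
  exact S.co_lin t _ _ i j

theorem MU.coZ_mul (a b : RA M) (i j : Fin k) :
    S.coZ (a * b) i j = ∑ l, S.coZ a i l * S.coZ b l j := by
  apply inc_inj
  rw [map_sum]
  simp only [map_mul, S.inc_coZ]
  exact S.co_mul b.2 i j

theorem MU.contr (χ : ZA M →ₐ[ℂ] ℂ) (a : RA M) :
    ‖∑ i, ∑ j, χ (S.coZ a i j) • e i j‖ ≤ ‖a‖ := by
  let _ : CStarAlgebra ↥M.toStarSubalgebra :=
    StarSubalgebra.cstarAlgebra M.toStarSubalgebra (h_closed := vn_closed M)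
  let Φ : ↥M.toStarSubalgebra →⋆ₙₐ[ℂ] (H →L[ℂ] H) :=
    { toFun := fun a => ∑ i, ∑ j, χ (S.coZ a i j) • e i j
      map_smul' := by
        intro t a
        have h0 : ∀ i j, S.coZ (t • a) i j = t • S.coZ a i j := by
          intro i j
          have h1 := S.coZ_lin t a 0 i j
          have h2 : S.coZ 0 i j = 0 := by
            have := S.coZ_lin 1 0 0 i j
            simpa using this
          rw [h2, add_zero, add_zero] at h1
          exact h1
        show ∑ i, ∑ j, χ (S.coZ (t • a) i j) • e i j = t • ∑ i, ∑ j, χ (S.coZ a i j) • e i j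
        simp only [h0, map_smul, smul_assoc, Finset.smul_sum]
      map_zero' := by
        have h2 : ∀ i j, S.coZ 0 i j = 0 := by
          intro i j
          have := S.coZ_lin 1 0 0 i j
          simpa using this
        show ∑ i, ∑ j, χ (S.coZ 0 i j) • e i j = 0
        simp only [h2, map_zero, zero_smul, Finset.sum_const_zero]
      map_add' := by
        intro a b
        have h1 : ∀ i j, S.coZ (a + b) i j = S.coZ a i j + S.coZ b i j := by
          intro i j
          have := S.coZ_lin 1 a b i j
          simpa using this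
        show ∑ i, ∑ j, χ (S.coZ (a + b) i j) • e i j = _
        simp only [h1, map_add, add_smul, Finset.sum_add_distrib]
      map_mul' := by
        intro a b
        show ∑ i, ∑ j, χ (S.coZ (a * b) i j) • e i j =
          (∑ i, ∑ j, χ (S.coZ a i j) • e i j) * ∑ i, ∑ j, χ (S.coZ b i j) • e i j
        have h1 : (∑ i, ∑ j, χ (S.coZ a i j) • e i j) * (∑ i, ∑ j, χ (S.coZ b i j) • e i j) =
            ∑ i, ∑ j, ∑ l, ∑ m, (χ (S.coZ a i j) * χ (S.coZ b l m)) • (e i j * e l m) := by
          rw [Finset.sum_mul]
          refine Finset.sum_congr rfl fun i _ => ?_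
          rw [Finset.sum_mul]
          refine Finset.sum_congr rfl fun j _ => ?_
          rw [Finset.mul_sum]
          refine Finset.sum_congr rfl fun l _ => ?_
          rw [Finset.mul_sum]
          refine Finset.sum_congr rfl fun m _ => ?_
          rw [smul_mul_smul_comm]
        rw [h1]
        simp only [S.mul, smul_ite, smul_zero]
        have h2 : ∀ i j, (∑ l, ∑ m, (if j = l then (χ (S.coZ a i j) * χ (S.coZ b l m)) • e i m
            else 0)) = ∑ m, (χ (S.coZ a i j) * χ (S.coZ b j m)) • e i m := by
          intro i j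
          rw [Finset.sum_eq_single j]
          · simp
          · intro l _ hl
            simp [Ne.symm hl]
          · intro h; exact absurd (Finset.mem_univ j) h
        simp only [h2]
        refine Finset.sum_congr rfl fun i _ => ?_
        rw [Finset.sum_comm]
        refine Finset.sum_congr rfl fun m _ => ?_
        rw [S.coZ_mul, map_sum, Finset.sum_smul]
        simp only [map_mul]
      map_star' := by
        intro a
        show ∑ i, ∑ j, χ (S.coZ (star a) i j) • e i j = star (∑ i, ∑ j, χ (S.coZ a i j) • e i j)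
        rw [star_sum]
        simp only [star_sum, star_smul, S.st]
        rw [Finset.sum_comm]
        refine Finset.sum_congr rfl fun i _ => Finset.sum_congr rfl fun j _ => ?_
        rw [char_star _ _ χ (S.coZ a i j) (S.coZ (star a) j i)]
        rw [S.inc_coZ, S.inc_coZ]
        exact S.co_star _ _ _ }
  exact NonUnitalStarAlgHom.norm_apply_le Φ a

end contr

end Pool.Agent.HK
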