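import Pool.Agent.HK.VN6

set_option autoImplicit false
set_option linter.unusedSectionVars false

namespace Pool.Agent.HK

variable {H : Type} [NormedAddCommGroup H] [InnerProductSpace ℂ H] [CompleteSpace H]

/-- the finite group of signed permutation matrices -/
abbrev GG (k : ℕ) : Type := ↥(Matrix.orthogonalGroup (Fin k) ℤ)

theorem GG_entry (k : ℕ) (γ : GG k) (i j : Fin k) : -1 ≤ γ.1 i j ∧ γ.1 i j ≤ 1 := by
  have h1 := (Matrix.mem_orthogonalGroup_iff _ _).mp γ.2
  have h2 : ∑ j, γ.1 i j * γ.1 i j = 1 := by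
    have := congrFun (congrFun h1 i) i
    rw [Matrix.mul_apply] at this
    simpa using this
  have h3 : γ.1 i j * γ.1 i j ≤ 1 := by
    rw [← h2]
    exact Finset.single_le_sum (f := fun j => γ.1 i j * γ.1 i j)
      (fun l _ => mul_self_nonneg _) (Finset.mem_univ j)
  constructor <;> nlinarith

instance GG_finite (k : ℕ) : Finite (GG k) := by
  let f : GG k → (Fin k → Fin k → Set.Icc (-1 : ℤ) 1) := fun γ i j => ⟨γ.1 i j, GG_entry k γ i j⟩
  refine Finite.of_injective f ?_
  intro γ δ h
  apply Subtype.ext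
  ext i j
  have := congrFun (congrFun h i) j
  exact congrArg Subtype.val this

/-- diagonal reflection -/
def GGd {k : ℕ} (i : Fin k) : GG k :=
  ⟨Matrix.diagonal fun l => if l = i then -1 else 1, by
    rw [Matrix.mem_orthogonalGroup_iff, Matrix.diagonal_transpose, Matrix.diagonal_mul_diagonal]
    rw [← Matrix.diagonal_one]
    congr 1
    funext l
    split_ifs <;> norm_num⟩

/-- transposition -/
def GGp {k : ℕ} (i j : Fin k) : GG k :=
  ⟨Matrix.of fun a b => if b = Equiv.swap i j a then 1 else 0, by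
    rw [Matrix.mem_orthogonalGroup_iff]
    ext a b
    rw [Matrix.mul_apply]
    simp only [Matrix.transpose_apply, Matrix.of_apply, ite_mul, one_mul, zero_mul]
    rw [Finset.sum_ite_eq' Finset.univ (Equiv.swap i j a)]
    simp only [Finset.mem_univ, if_true, Matrix.one_apply]
    by_cases h : a = b
    · subst h; simp
    · rw [if_neg, if_neg h]
      intro h'
      exact h ((Equiv.swap i j).injective h')⟩

namespace MU

variable {M : VonNeumannAlgebra H} {z : H →L[ℂ] H} {k : ℕ} {e : Fin k → Fin k → (H →L[ℂ] H)}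
  (S : MU M z k e)

/-- linear extension of the matrix units -/
noncomputable def TT (e : Fin k → Fin k → (H →L[ℂ] H)) (γ : Matrix (Fin k) (Fin k) ℤ) :
    H →L[ℂ] H := ∑ i, ∑ j, (γ i j : ℂ) • e i j

include S

theorem TT_mul (γ δ : Matrix (Fin k) (Fin k) ℤ) : TT e (γ * δ) = TT e γ * TT e δ := by
  have h1 : TT e γ * TT e δ =
      ∑ i, ∑ j, ∑ l, ∑ m, ((γ i j : ℂ) * (δ l m : ℂ)) • (e i j * e l m) := by
    unfold TT
    rw [Finset.sum_mul]
    refine Finset.sum_congr rfl fun i _ => ?_
    rw [Finset.sum_mul]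
    refine Finset.sum_congr rfl fun j _ => ?_
    rw [Finset.mul_sum]
    refine Finset.sum_congr rfl fun l _ => ?_
    rw [Finset.mul_sum]
    refine Finset.sum_congr rfl fun m _ => ?_
    rw [smul_mul_smul_comm]
  rw [h1]
  simp only [S.mul, smul_ite, smul_zero]
  have h2 : ∀ i j, (∑ l, ∑ m, (if j = l then ((γ i j : ℂ) * (δ l m : ℂ)) • e i m
      else 0)) = ∑ m, ((γ i j : ℂ) * (δ j m : ℂ)) • e i m := by
    intro i j
    rw [Finset.sum_eq_single j]
    · simp
    · intro l _ hl
      simp [Ne.symm hl]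
    · intro h; exact absurd (Finset.mem_univ j) h
  simp only [h2]
  unfold TT
  refine Finset.sum_congr rfl fun i _ => ?_
  rw [Finset.sum_comm]
  refine Finset.sum_congr rfl fun m _ => ?_
  rw [Matrix.mul_apply, ← Finset.sum_smul]
  push_cast
  rfl

theorem TT_one : TT e 1 = z := by
  unfold TT
  rw [← S.sum]
  refine Finset.sum_congr rfl fun i _ => ?_
  rw [Finset.sum_eq_single i]
  · simp
  · intro j _ hj
    simp [Matrix.one_apply_ne (Ne.symm hj)]
  · intro h; exact absurd (Finset.mem_univ i) h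

theorem TT_star (γ : Matrix (Fin k) (Fin k) ℤ) : star (TT e γ) = TT e γ.transpose := by
  unfold TT
  rw [star_sum]
  simp only [star_sum, star_smul, S.st, Matrix.transpose_apply]
  rw [Finset.sum_comm]
  refine Finset.sum_congr rfl fun i _ => Finset.sum_congr rfl fun j _ => ?_
  congr 1
  exact map_intCast (starRingEnd ℂ) _

theorem TT_z (γ : Matrix (Fin k) (Fin k) ℤ) : TT e γ * z = TT e γ ∧ z * TT e γ = TT e γ := by
  rw [← S.TT_one, ← S.TT_mul, ← S.TT_mul, mul_one, one_mul]
  exact ⟨rfl, rfl⟩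

theorem TT_mem (γ : Matrix (Fin k) (Fin k) ℤ) : TT e γ ∈ M :=
  sum_mem fun i _ => sum_mem fun j _ => M.toStarSubalgebra.smul_mem (S.mem i j) _

omit S in
/-- the unitary attached to a signed permutation -/
noncomputable def uu (e : Fin k → Fin k → (H →L[ℂ] H)) (z : H →L[ℂ] H)
    (γ : Matrix (Fin k) (Fin k) ℤ) : H →L[ℂ] H := TT e γ + (1 - z)

theorem uu_mul (γ δ : Matrix (Fin k) (Fin k) ℤ) : uu e z (γ * δ) = uu e z γ * uu e z δ := by
  unfold uu
  rw [S.TT_mul, add_mul, mul_add, mul_sub, mul_one, (S.TT_z γ).1, sub_self, mul_add, sub_mul,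
    one_mul, (S.TT_z δ).2, sub_self, mul_sub, mul_one, sub_mul, one_mul, S.zz, sub_self]
  simp

theorem uu_one : uu e z 1 = 1 := by
  unfold uu
  rw [S.TT_one]; abel

theorem uu_mem (γ : Matrix (Fin k) (Fin k) ℤ) : uu e z γ ∈ M :=
  add_mem (S.TT_mem γ) (sub_mem (one_mem M) S.z_mem)

theorem zstar : star z = z := by
  rw [← S.sum, star_sum]
  exact Finset.sum_congr rfl fun i _ => S.st i i

theorem uu_norm (γ : GG k) : ‖uu e z γ.1‖ ≤ 1 := by
  have h1 : star (uu e z γ.1) * uu e z γ.1 = 1 := by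
    have h2 : star (uu e z γ.1) = uu e z (γ.1.transpose) := by
      unfold uu
      rw [star_add, S.TT_star, star_sub, star_one, S.zstar]
    rw [h2, ← S.uu_mul, (Matrix.mem_orthogonalGroup_iff' _ _).mp γ.2, S.uu_one]
  exact norm_le_one_of_star_mul h1 (one_mul 1) (star_one _)

/-- the group homomorphism -/
noncomputable def uhom (S : MU M z k e) : GG k →* RA M where
  toFun γ := ⟨uu e z γ.1, S.uu_mem γ.1⟩
  map_one' := Subtype.ext S.uu_one
  map_mul' γ δ := Subtype.ext (S.uu_mul γ.1 δ.1)

/-- the unit as element of the algebra -/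
def eA (S : MU M z k e) (i j : Fin k) : RA M := ⟨e i j, S.mem i j⟩

theorem e_uu (γ : Matrix (Fin k) (Fin k) ℤ) (i : Fin k) :
    e i i * uu e z γ = ∑ j, (γ i j : ℂ) • e i j := by
  unfold uu TT
  rw [mul_add, mul_sub, mul_one, S.mul_z, sub_self, add_zero, Finset.mul_sum,
    Finset.sum_eq_single i]
  · rw [Finset.mul_sum]
    refine Finset.sum_congr rfl fun j _ => ?_
    rw [mul_smul_comm, S.mul_same]
  · intro l _ hl
    rw [Finset.mul_sum]
    refine Finset.sum_eq_zero fun j _ => ?_
    rw [mul_smul_comm, S.mul, if_neg (Ne.symm hl), smul_zero]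
  · intro h; exact absurd (Finset.mem_univ i) h

theorem uu_d (i : Fin k) : uu e z (GGd i).1 = 1 - (2 : ℂ) • e i i := by
  unfold uu TT
  have h1 : ∀ a : Fin k, ∑ b, (((GGd i).1 a b : ℤ) : ℂ) • e a b =
      e a a - if a = i then (2 : ℂ) • e i i else 0 := by
    intro a
    rw [Finset.sum_eq_single a]
    · show (((Matrix.diagonal (fun l => if l = i then (-1 : ℤ) else 1)) a a : ℤ) : ℂ) • e a a = _
      rw [Matrix.diagonal_apply_eq]
      by_cases h : a = i
      · subst h
        simp only [if_true]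
        rw [two_smul]
        push_cast
        rw [neg_smul, one_smul]
        abel
      · simp [h]
    · intro b _ hb
      show (((Matrix.diagonal (fun l => if l = i then (-1 : ℤ) else 1)) a b : ℤ) : ℂ) • e a b = _
      rw [Matrix.diagonal_apply_ne _ (Ne.symm hb)]
      simp
    · intro h; exact absurd (Finset.mem_univ a) h
  simp only [h1]
  rw [Finset.sum_sub_distrib, S.sum, Finset.sum_ite_eq' Finset.univ i]
  simp only [Finset.mem_univ, if_true]
  abel

theorem uu_dp (i j : Fin k) : uu e z (GGd i * GGp i j).1 =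
    uu e z (GGp i j).1 - (2 : ℂ) • e i j := by
  show uu e z ((GGd i).1 * (GGp i j).1) = _
  rw [S.uu_mul, S.uu_d, sub_mul, one_mul, smul_mul_assoc, S.e_uu]
  congr 2
  rw [Finset.sum_eq_single j]
  · show (((if j = Equiv.swap i j i then (1 : ℤ) else 0) : ℤ) : ℂ) • e i j = e i j
    rw [Equiv.swap_apply_left, if_pos rfl]
    simp
  · intro b _ hb
    show (((if b = Equiv.swap i j i then (1 : ℤ) else 0) : ℤ) : ℂ) • e i b = 0
    rw [Equiv.swap_apply_left, if_neg hb]
    simp
  · intro h; exact absurd (Finset.mem_univ j) h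

theorem van_e {B : Type} [NormedRing B] [NormedAlgebra ℂ B] (φ : List (RA M) → B) (hφ : Lin φ)
    (hv : ∀ γ, Van (S.uhom γ) φ) (i j : Fin k) : Van (S.eA i j) φ := by
  have h1 : S.eA i j = (1 / 2 : ℂ) • (S.uhom (GGp i j) - S.uhom (GGd i * GGp i j)) := by
    apply Subtype.ext
    show e i j = (1 / 2 : ℂ) • (uu e z (GGp i j).1 - uu e z (GGd i * GGp i j).1)
    rw [S.uu_dp, sub_sub_cancel, smul_smul]
    norm_num
  rw [h1]
  exact ((hv _).sub hφ (hv _)).smul hφ _

end MU

theorem homog_of (M : VonNeumannAlgebra H) (z : ZA M) (h : IsHomFin (M : Set (H →L[ℂ] H)) (inc _ _ z)) :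
    Nonempty (Homog (ic M) (H →L[ℂ] H) z) := by
  obtain ⟨k, e, h1, h2, h3, h4, h5⟩ := h
  have S : MU M (inc _ _ z) k e := ⟨h1, h2, h3, h4, h5, fun a ha =>
    (VonNeumannAlgebra.mem_commutant_iff.mp (mem_cen.mp z.2).2 a ha).symm⟩
  have : Fintype (GG k) := Fintype.ofFinite _
  refine ⟨{
    k := k
    e := S.eA
    coef := S.coZ
    e_norm := fun i j => S.e_norm i j
    e_mul := ?_
    coef_lin := S.coZ_lin
    coef_mul := S.coZ_mul
    coef_c := ?_
    coef_e := ?_
    coef_exp := ?_
    contr := ?_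
    grp := ⟨GG k, inferInstance, this, S.uhom, fun γ => S.uu_norm γ, fun φ hφ hv i j =>
      S.van_e φ hφ hv i j⟩ }⟩
  · intro i j l m
    apply io_inj
    rw [map_mul]
    show e i j * e l m = io M (if j = l then S.eA i m else 0)
    rw [S.mul]
    split_ifs
    · rfl
    · rw [map_zero]
  · intro w a i j
    apply inc_inj
    rw [map_mul, S.inc_coZ, S.inc_coZ, map_mul]
    exact S.co_c (fun a ha => (VonNeumannAlgebra.mem_commutant_iff.mp (mem_cen.mp w.2).2 a ha).symm)
      _ i j
  · intro p q i j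
    apply inc_inj
    rw [S.inc_coZ]
    show MU.co e (e p q) i j = _
    rw [S.co_e]
    split_ifs
    · rfl
    · rw [map_zero]
  · intro a
    apply io_inj
    rw [map_mul, map_sum]
    simp only [map_sum, map_mul]
    exact S.co_exp a.2
  · intro χ _ a
    have h6 := S.contr χ a
    rw [← io_norm, map_sum]
    simp only [map_sum, map_smul]
    exact h6

end Pool.Agent.HK
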