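import Pool.Agent.HK.LocFine

set_option autoImplicit false
set_option linter.unusedSectionVars false

namespace Pool.Agent.HK

section sums

variable {R B : Type} [NormedRing R] [NormedRing B] [NormedAlgebra ℂ R] [NormedAlgebra ℂ B]
  (ι : R →ₐ[ℂ] B)

theorem E_hasSum (l : List R) : ∀ (φ : ℕ → List R → B) (Ψ : List R → B),
    (∀ t, HasSum (fun k => φ k t) (Ψ t)) → HasSum (fun k => E ι (φ k) l) (E ι Ψ l) := by
  induction l with
  | nil => intro φ Ψ _; simp
  | cons a l ih =>
    intro φ Ψ h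
    cases l with
    | nil => simpa using (h []).mul_right (ι a)
    | cons b t =>
      simp only [E_cons]
      exact (h _).sub (ih (fun k s => φ k (a :: s)) (fun s => Ψ (a :: s)) fun s => h (a :: s))

theorem D_hasSum (l : List R) (φ : ℕ → List R → B) (Ψ : List R → B)
    (h : ∀ t, HasSum (fun k => φ k t) (Ψ t)) : HasSum (fun k => D ι (φ k) l) (D ι Ψ l) := by
  cases l with
  | nil => simp
  | cons a l =>
    simp only [D_cons]
    exact ((h l).mul_left (ι a)).sub (E_hasSum ι _ φ Ψ h)

end sums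

section hilbert

variable {H : Type} [NormedAddCommGroup H] [InnerProductSpace ℂ H] [CompleteSpace H]
variable {R : Type} [NormedRing R] [NormedAlgebra ℂ R] {ι : R →ₐ[ℂ] (H →L[ℂ] H)}

theorem vanish
    {X : Submodule ℂ (H →L[ℂ] H)} (hXcl : IsClosed (X : Set (H →L[ℂ] H)))
    {n : ℕ} (K : ℝ) (hstep0 : ∀ (C : ℝ) (φ : List R → (H →L[ℂ] H)), 0 ≤ C →
      Coch X (n + 1) C φ → (∀ l, D ι φ l = 0) → ∀ δ : ℝ, 0 < δ →
      ∃ ψ : List R → (H →L[ℂ] H), Coch X n (K * C) ψ ∧
      Coch X (n + 1) δ (fun l => φ l - D ι ψ l))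
    {C : ℝ} (hC : 0 ≤ C) {φ : List R → (H →L[ℂ] H)} (h : Coch X (n + 1) C φ)
    (hc : ∀ l, D ι φ l = 0) :
    ∃ ψ : List R → (H →L[ℂ] H), Coch X n (K * C * 2) ψ ∧ ∀ l, D ι ψ l = φ l := by
  classical
  rcases eq_or_lt_of_le hC with hC0 | hC0
  · subst hC0
    refine ⟨fun _ => 0, (Coch.zero X n).mono (by simp), fun l => ?_⟩
    have := h.bd l
    rw [zero_mul, norm_le_zero_iff] at this
    rw [D_zero, this]
  have hstep : ∀ (c : ℝ) (φ : List R → (H →L[ℂ] H)), ∃ ψ : List R → (H →L[ℂ] H),
      0 < c → Coch X (n + 1) c φ → (∀ l, D ι φ l = 0) →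
      Coch X n (K * c) ψ ∧ Coch X (n + 1) (c / 2) (fun l => φ l - D ι ψ l) := by
    intro c φ
    by_cases hh : 0 < c ∧ Coch X (n + 1) c φ ∧ ∀ l, D ι φ l = 0
    · obtain ⟨h1, h2, h3⟩ := hh
      obtain ⟨ψ, hψ⟩ := hstep0 c φ h1.le h2 h3 (c / 2) (by linarith)
      exact ⟨ψ, fun _ _ _ => hψ⟩
    · exact ⟨0, fun h1 h2 h3 => absurd ⟨h1, h2, h3⟩ hh⟩
  choose G hG using hstep
  set c : ℕ → ℝ := fun k => C * (1 / 2) ^ k with hcdef
  have hcpos : ∀ k, 0 < c k := fun k => by positivity
  let seq : ℕ → List R → (H →L[ℂ] H) := fun k =>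
    Nat.rec φ (fun k f => fun l => f l - D ι (G (c k) f) l) k
  have hseq0 : seq 0 = φ := rfl
  have hseqs : ∀ k, seq (k + 1) = fun l => seq k l - D ι (G (c k) (seq k)) l := fun k => rfl
  have hinv : ∀ k, Coch X (n + 1) (c k) (seq k) ∧ ∀ l, D ι (seq k) l = 0 := by
    intro k
    induction k with
    | zero =>
      refine ⟨?_, hc⟩
      rw [hseq0]
      exact h.mono (by simp [hcdef])
    | succ k ih =>
      obtain ⟨_, h2⟩ := hG (c k) (seq k) (hcpos k) ih.1 ih.2
      rw [hseqs]
      refine ⟨?_, cocycle_sub ih.2⟩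
      have : c (k + 1) = c k / 2 := by simp only [hcdef]; rw [pow_succ]; ring
      rw [this]
      exact h2
  set ψ : ℕ → List R → (H →L[ℂ] H) := fun k => G (c k) (seq k) with hψdef
  have hψ : ∀ k, Coch X n (K * c k) (ψ k) := fun k =>
    (hG (c k) (seq k) (hcpos k) (hinv k).1 (hinv k).2).1
  have hgeo : HasSum (fun k : ℕ => ((1 : ℝ) / 2) ^ k) 2 := by
    have := hasSum_geometric_of_lt_one (r := (1 : ℝ) / 2) (by norm_num) (by norm_num)
    convert this using 1
    norm_num
  have hsumm : ∀ l : List R, HasSum (fun k => K * c k * nm l) (K * C * 2 * nm l) := by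
    intro l
    have := (hgeo.mul_left (K * C)).mul_right (nm l)
    have e : (fun k => K * c k * nm l) =
        fun k : ℕ => K * C * ((1 : ℝ) / 2) ^ k * nm l := by
      funext k; simp only [hcdef]; ring
    rw [e]; exact this
  have hsum : ∀ l, Summable (fun k => ψ k l) := fun l =>
    Summable.of_norm_bounded (hsumm l).summable fun k => (hψ k).bd l
  set Ψ : List R → (H →L[ℂ] H) := fun l => ∑' k, ψ k l with hΨdef
  have hΨ : ∀ l, HasSum (fun k => ψ k l) (Ψ l) := fun l => (hsum l).hasSum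
  refine ⟨Ψ, ⟨?_, ?_, ?_, ?_⟩, ?_⟩
  · intro l hl
    have h1 : HasSum (fun k => ψ k l) 0 := by
      have : (fun k => ψ k l) = fun _ => 0 := by funext k; exact (hψ k).supp l hl
      rw [this]; exact hasSum_zero
    exact (hΨ l).unique h1
  · intro p post x y a
    have h1 := ((hΨ (p ++ x :: post)).const_smul a).add (hΨ (p ++ y :: post))
    have h2 := hΨ (p ++ (a • x + y) :: post)
    have h3 : (fun k => ψ k (p ++ (a • x + y) :: post)) =
        fun k => a • ψ k (p ++ x :: post) + ψ k (p ++ y :: post) := by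
      funext k; exact (hψ k).lin p post x y a
    rw [h3] at h2
    exact h2.unique h1
  · intro l
    exact hXcl.mem_of_tendsto (hΨ l)
      (Filter.Eventually.of_forall fun s => X.sum_mem fun k _ => (hψ k).val l)
  · intro l
    exact tsum_of_norm_bounded (hsumm l) fun k => (hψ k).bd l
  · intro l
    have h1 := (D_hasSum ι l ψ Ψ hΨ).tendsto_sum_nat
    have h2 : ∀ N, ∑ k ∈ Finset.range N, D ι (ψ k) l = φ l - seq N l := by
      intro N
      induction N with
      | zero => simp [hseq0]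
      | succ N ih =>
        rw [Finset.sum_range_succ, ih, hseqs]
        simp only [hψdef]
        abel
    have h3 : Filter.Tendsto (fun N => φ l - seq N l) Filter.atTop (nhds (φ l - 0)) := by
      apply Filter.Tendsto.sub tendsto_const_nhds
      rw [tendsto_zero_iff_norm_tendsto_zero]
      have h4 : Filter.Tendsto (fun N => c N * nm l) Filter.atTop (nhds (0 * nm l)) := by
        apply Filter.Tendsto.mul_const
        have := (tendsto_pow_atTop_nhds_zero_of_lt_one (r := (1 : ℝ) / 2) (by norm_num)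
          (by norm_num)).const_mul C
        simpa [hcdef] using this
      rw [zero_mul] at h4
      exact squeeze_zero (fun N => norm_nonneg _) (fun N => (hinv N).1.bd l) h4
    rw [sub_zero] at h3
    simp only [h2] at h1
    exact tendsto_nhds_unique h1 h3

end hilbert

end Pool.Agent.HK
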